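import Pool.Agent.SRV.Defs

set_option autoImplicit false

namespace SRV

open SRT

variable {V : Type*} {B : V → V → Prop} {d : ℕ} {q : V → Prop}

/-- in a closed set all closed degrees are equal -/
theorem closed_card_eq [Fintype V] [DecidableEq V] [DecidablePred q] [DecidableRel B]
    (h : Geo B d) (hq : Closed B q) {x y : V} (hx : q x) (hy : q y) :
    (Finset.univ.filter fun u => q u ∧ B x u).card =
      (Finset.univ.filter fun u => q u ∧ B y u).card := by
  classical
  by_cases hxy : x = y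
  · rw [hxy]
  set N : V → Finset V := fun x => Finset.univ.filter fun u => q u ∧ B x u with hN
  have hmN : ∀ x u, u ∈ N x ↔ q u ∧ B x u := fun x u => by simp [hN]
  have key : ∀ x u, q x → q u → x ≠ u → ((N x).filter fun w => B w u).card = 2 := by
    intro x u hx hu hxu
    rw [← h.two x u hxu, Nat.card_eq_fintype_card, Fintype.card_subtype]
    congr 1
    ext w
    rw [Finset.mem_filter, hmN, Finset.mem_filter]
    constructor
    · rintro ⟨⟨-, h1⟩, h2⟩
      exact ⟨Finset.mem_univ _, h1, h2⟩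
    · rintro ⟨-, h1, h2⟩
      exact ⟨⟨hq x u hx hu hxu w h1 h2, h1⟩, h2⟩
  have key' : ∀ x u, q x → q u → x ≠ u → ((N x).filter fun w => B u w).card = 2 := by
    intro x u hx hu hxu
    rw [← key x u hx hu hxu]
    congr 1
    refine Finset.filter_congr fun w _ => ?_
    exact ⟨fun hw => h.symm _ _ hw, fun hw => h.symm _ _ hw⟩
  have hself : ∀ x, ((N x).filter fun w => B w x) = N x := by
    intro x
    rw [Finset.filter_eq_self]
    intro w hw
    exact h.symm _ _ ((hmN x w).1 hw).2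
  have hself' : ∀ x, ((N x).filter fun w => B x w) = N x := by
    intro x
    rw [Finset.filter_eq_self]
    intro w hw
    exact ((hmN x w).1 hw).2
  have hdc : ∑ u ∈ N y, ((N x).filter fun w => B w u).card =
      ∑ w ∈ N x, ((N y).filter fun u => B w u).card := by
    have e1 : ∀ u ∈ N y, ((N x).filter fun w => B w u).card = ∑ w ∈ N x, if B w u then 1 else 0 :=
      fun u _ => by rw [Finset.card_filter]
    have e2 : ∀ w ∈ N x, ((N y).filter fun u => B w u).card = ∑ u ∈ N y, if B w u then 1 else 0 :=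
      fun w _ => by rw [Finset.card_filter]
    rw [Finset.sum_congr rfl e1, Finset.sum_congr rfl e2, Finset.sum_comm]
  change (N x).card = (N y).card
  by_cases hB : B x y
  · have hxN : x ∈ N y := (hmN y x).2 ⟨hx, h.symm _ _ hB⟩
    have hyN : y ∈ N x := (hmN x y).2 ⟨hy, hB⟩
    rw [← Finset.add_sum_erase _ _ hxN, ← Finset.add_sum_erase (N x) _ hyN, hself, hself'] at hdc
    have e1 : ∑ u ∈ (N y).erase x, ((N x).filter fun w => B w u).card = ((N y).card - 1) * 2 := by
      rw [Finset.sum_congr rfl (g := fun _ => 2), Finset.sum_const, Finset.card_erase_of_mem hxN,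
        smul_eq_mul]
      intro u hu
      rw [Finset.mem_erase, hmN] at hu
      exact key x u hx hu.2.1 (Ne.symm hu.1)
    have e2 : ∑ w ∈ (N x).erase y, ((N y).filter fun u => B w u).card = ((N x).card - 1) * 2 := by
      rw [Finset.sum_congr rfl (g := fun _ => 2), Finset.sum_const, Finset.card_erase_of_mem hyN,
        smul_eq_mul]
      intro w hw
      rw [Finset.mem_erase, hmN] at hw
      exact key' y w hy hw.2.1 (Ne.symm hw.1)
    rw [e1, e2] at hdc
    have h1 : 0 < (N y).card := Finset.card_pos.2 ⟨x, hxN⟩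
    have h2 : 0 < (N x).card := Finset.card_pos.2 ⟨y, hyN⟩
    omega
  · have e1 : ∑ u ∈ N y, ((N x).filter fun w => B w u).card = (N y).card * 2 := by
      rw [Finset.sum_congr rfl (g := fun _ => 2), Finset.sum_const, smul_eq_mul]
      intro u hu
      rw [hmN] at hu
      refine key x u hx hu.1 ?_
      rintro rfl
      exact hB (h.symm _ _ hu.2)
    have e2 : ∑ w ∈ N x, ((N y).filter fun u => B w u).card = (N x).card * 2 := by
      rw [Finset.sum_congr rfl (g := fun _ => 2), Finset.sum_const, smul_eq_mul]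
      intro w hw
      rw [hmN] at hw
      refine key' y w hy hw.1 ?_
      rintro rfl
      exact hB hw.2
    rw [e1, e2] at hdc
    omega

/-- a nonempty closed set is again such a geometry -/
theorem exists_geo_closed [Finite V] (h : Geo B d) (hq : Closed B q) (hne : ∃ x, q x) :
    ∃ d' : ℕ, Geo (fun x y : {x : V // q x} => B x.1 y.1) d' := by
  classical
  have := Fintype.ofFinite V
  obtain ⟨x₀, hx₀⟩ := hne
  have e : ∀ x : {x : V // q x}, Nat.card {y : {x : V // q x} // B x.1 y.1} =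
      (Finset.univ.filter fun u => q u ∧ B x.1 u).card := by
    intro x
    rw [← Fintype.card_subtype, ← Nat.card_eq_fintype_card]
    exact Nat.card_congr ⟨fun y => ⟨y.1.1, y.1.2, y.2⟩, fun y => ⟨⟨y.1, y.2.1⟩, y.2.2⟩,
      fun y => rfl, fun y => rfl⟩
  refine ⟨(Finset.univ.filter fun u => q u ∧ B x₀ u).card,
    ⟨fun x => h.refl x.1, fun x y hxy => h.symm _ _ hxy, ?_, ?_⟩⟩
  · intro x
    rw [e]
    exact closed_card_eq h hq x.2 hx₀
  · rintro ⟨x, hx⟩ ⟨z, hz⟩ hxz
    have hxz' : x ≠ z := fun hc => hxz (Subtype.ext hc)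
    rw [← h.two x z hxz']
    exact Nat.card_congr ⟨fun y => ⟨y.1.1, y.2⟩,
      fun y => ⟨⟨y.1, hq x z hx hz hxz' y.1 y.2.1 y.2.2⟩, y.2⟩, fun y => rfl, fun y => rfl⟩

/-- the closed degree of a proper closed set is at most `n + 1` -/
theorem closed_deg_le [Finite V] {n : ℕ} (h : Geo B (n ^ 2 + 2)) (hne : ∃ x, q x)
    (hprop : ∃ x, ¬ q x) {d' : ℕ} (h' : Geo (fun x y : {x : V // q x} => B x.1 y.1) d') :
    d' ≤ n + 1 := by
  classical
  obtain ⟨x₀, hx₀⟩ := hne
  have hV : Nonempty V := ⟨x₀⟩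
  have hW : Nonempty {x : V // q x} := ⟨⟨x₀, hx₀⟩⟩
  have h1 := rayleigh h {x | q x}
  have h2 := h'.two_mul_card
  have h3 := h.two_mul_card'
  have hlt : Nat.card {x : V // q x} < Nat.card V := by
    obtain ⟨x₁, hx₁⟩ := hprop
    have := Fintype.ofFinite V
    rw [Nat.card_eq_fintype_card, Nat.card_eq_fintype_card]
    exact Fintype.card_subtype_lt hx₁
  have hcard : Nat.card {p : V × V // p.1 ∈ {x | q x} ∧ p.2 ∈ {x | q x} ∧ B p.1 p.2} =
      Nat.card {x : V // q x} * d' := by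
    have := Fintype.ofFinite V
    have e1 : Nat.card {p : V × V // p.1 ∈ {x | q x} ∧ p.2 ∈ {x | q x} ∧ B p.1 p.2} =
        Nat.card (Σ x : {x : V // q x}, {y : {x : V // q x} // B x.1 y.1}) :=
      Nat.card_congr ⟨fun p => ⟨⟨p.1.1, p.2.1⟩, ⟨⟨p.1.2, p.2.2.1⟩, p.2.2.2⟩⟩,
        fun p => ⟨(p.1.1, p.2.1.1), p.1.2, p.2.1.2, p.2.2⟩, fun p => rfl, fun p => rfl⟩
    rw [e1, Nat.card_sigma, Finset.sum_congr rfl (fun x _ => h'.card x), Finset.sum_const,
      Finset.card_univ, smul_eq_mul, Nat.card_eq_fintype_card]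
  have hcF : Nat.card ({x : V | q x} : Set V) = Nat.card {x : V // q x} := rfl
  rw [hcard, hcF] at h1
  set w := Nat.card {x : V // q x} with hw
  set v := Nat.card V with hv
  have hwpos : 0 < w := Nat.card_pos
  have h2' : 2 * (w : ℝ) + d' = (d' : ℝ) ^ 2 + 2 := by exact_mod_cast h2
  have h3' : 2 * (v : ℝ) = (n : ℝ) ^ 4 + 3 * (n : ℝ) ^ 2 + 4 := by exact_mod_cast h3
  have hw' : (0 : ℝ) < w := by exact_mod_cast hwpos
  push_cast at h1
  have h4 : (v : ℝ) * d' ≤ w * ((n : ℝ) ^ 2 + 2) + n * ((v : ℝ) - w) := by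
    have : (w : ℝ) * (v * d') ≤ w * (w * ((n : ℝ) ^ 2 + 2) + n * ((v : ℝ) - w)) := by nlinarith
    exact le_of_mul_le_mul_left this hw'
  have hlt' : (w : ℝ) < v := by exact_mod_cast hlt
  -- `(n²+n+2) (n²-n+2) = 2 v`, divide by `n² - n + 2`
  have hB : (0 : ℝ) < (n : ℝ) ^ 2 - n + 2 := by nlinarith [sq_nonneg ((n : ℝ) - 1)]
  have h5 : ((d' : ℝ) - n) * ((n : ℝ) ^ 2 + n + 2) ≤ 2 * w := by
    have e : ((n : ℝ) ^ 2 - n + 2) * (((d' : ℝ) - n) * ((n : ℝ) ^ 2 + n + 2)) ≤
        ((n : ℝ) ^ 2 - n + 2) * (2 * w) := by nlinarith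
    exact le_of_mul_le_mul_left e hB
  have h6 : 0 ≤ ((d' : ℝ) - (n + 1)) * ((d' : ℝ) - ((n : ℝ) ^ 2 + 2)) := by nlinarith
  have h7 : (d' : ℝ) < (n : ℝ) ^ 2 + 2 := by
    by_contra hcon
    push Not at hcon
    have : (v : ℝ) ≤ w := by nlinarith [sq_nonneg (n : ℝ)]
    linarith
  have h8 : (d' : ℝ) ≤ n + 1 := by
    by_contra hcon
    push Not at hcon
    nlinarith
  exact_mod_cast h8

/-- the size of a proper closed set -/
theorem closed_card_le [Finite V] {n : ℕ} (h : Geo B (n ^ 2 + 2)) (hq : Closed B q)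
    (hprop : ∃ x, ¬ q x) : 2 * Nat.card {x : V // q x} ≤ n ^ 2 + n + 2 := by
  classical
  by_cases hne : ∃ x, q x
  · obtain ⟨d', h'⟩ := exists_geo_closed h hq hne
    have h1 := closed_deg_le h hne hprop h'
    obtain ⟨x₀, hx₀⟩ := hne
    have hW : Nonempty {x : V // q x} := ⟨⟨x₀, hx₀⟩⟩
    have h2 := h'.two_mul_card
    have h3 := h'.one_le
    have h4 : (d' - 1) * d' ≤ n * (n + 1) := Nat.mul_le_mul (by omega) h1
    obtain ⟨e, rfl⟩ : ∃ e, d' = e + 1 := ⟨d' - 1, by omega⟩
    simp only [Nat.add_sub_cancel] at h4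
    nlinarith
  · have : IsEmpty {x : V // q x} := ⟨fun x => hne ⟨x.1, x.2⟩⟩
    rw [Nat.card_of_isEmpty]
    omega

/-- the fixed points of a group of odd order are closed -/
theorem closed_fix {G : Type*} [Group G] [Finite G] [MulAction G V] (h : Geo B d)
    (haut : Aut G B) (Y : Subgroup G) (hY : Odd (Nat.card Y)) :
    Closed B (fun x => ∀ u ∈ Y, u • x = x) := by
  intro x z hx hz hxz y hxy hyz u hu
  have h3 : (MulAction.toPermHom G V u) ^ Nat.card Y = 1 := by
    rw [← map_pow]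
    have h4 : (⟨u, hu⟩ : Y) ^ Nat.card Y = 1 := pow_card_eq_one'
    have h5 : u ^ Nat.card Y = 1 := congrArg Subtype.val h4
    rw [h5, map_one]
  refine fix_of_two (MulAction.toPermHom G V u) (Nat.card Y) hY h3 (fun y => B x y ∧ B y z)
    (h.two x z hxz) ?_ y ⟨hxy, hyz⟩
  rintro w ⟨hw1, hw2⟩
  have e1 := haut u _ _ hw1
  have e2 := haut u _ _ hw2
  rw [hx u hu] at e1
  rw [hz u hu] at e2
  exact ⟨e1, e2⟩

end SRV
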