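import Pool.Agent.SRV.B4

set_option autoImplicit false

namespace SRV

open SRT

variable {G V : Type*} [Group G] [Finite G] [MulAction G V] [Finite V] [Nonempty V]
  {B : V → V → Prop} {n : ℕ}

/-- PROOF. Apply `card_le_of_stab` to the action of `T = Q ⊓ centralizer {z}` on
`X = {y : V // B y (z • y)}` (`Nat.card X = NN B z`); the stabiliser in `T` of a point embeds in
`Q ⊓ stabilizer G y`. -/
theorem Sit.card_fix_le (S : Sit G V B n) (Q : Subgroup G) (hQ : IsPGroup 2 Q) (h : ℕ)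
    (hst : ∀ x : V, Nat.card ↥(Q ⊓ MulAction.stabilizer G x) ≤ h) (z : G) (i P : ℕ)
    (hP : Odd P) (hz : NN B z = 2 ^ i * P) :
    Nat.card ↥(Q ⊓ Subgroup.centralizer ({z} : Set G)) ≤ 2 ^ i * h := by
  let _ := b1_act S.aut z
  let _ : MulAction ↥(Q ⊓ Subgroup.centralizer ({z} : Set G)) {y : V // B y (z • y)} :=
    MulAction.compHom _ (Subgroup.inclusion
      (inf_le_right : Q ⊓ Subgroup.centralizer ({z} : Set G) ≤ Subgroup.centralizer ({z} : Set G)))
  have hT : IsPGroup 2 ↥(Q ⊓ Subgroup.centralizer ({z} : Set G)) := hQ.to_le inf_le_left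
  refine card_le_of_stab (X := {y : V // B y (z • y)}) hT i P h hP hz ?_
  intro y
  refine le_trans ?_ (hst y.1)
  have hsm : ∀ t : MulAction.stabilizer ↥(Q ⊓ Subgroup.centralizer ({z} : Set G)) y,
      ((t : ↥(Q ⊓ Subgroup.centralizer ({z} : Set G))) : G) • (y : V) = y :=
    fun t => congrArg Subtype.val t.2
  let f : MulAction.stabilizer ↥(Q ⊓ Subgroup.centralizer ({z} : Set G)) y →
      ↥(Q ⊓ MulAction.stabilizer G y.1) :=
    fun t => ⟨t.1.1, ⟨t.1.2.1, hsm t⟩⟩
  apply Nat.card_le_card_of_injective f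
  intro t t' htt
  have h1 := congrArg Subtype.val htt
  exact Subtype.ext (Subtype.ext h1)

end SRV
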