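import Pool.Agent.SRV.B4

set_option autoImplicit false

namespace SRV

open SRT

variable {G V : Type*} [Group G] [Finite G] [MulAction G V] [Finite V] [Nonempty V]
  {B : V → V → Prop} {n : ℕ}

/-- PROOF. Let `E` be a normal subgroup in which every element `≠ 1` satisfies `NN B g = N` and has
no fixed point.  `∑_{g ∈ E} NN B g = ∑_y #{g ∈ E : B y (g y)}`.  The number
`c = #{g ∈ E : B y (g y)}` does not depend on `y` (`y' = u y`, `g ↦ u g u⁻¹`, `Sit.trans`), and the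
term `g = 1` is `|V|`, so `|V| + (|E| - 1) N = |V| c`, with `c ≥ 1` (`g = 1`).
Compare `SRC.sum_T_normal` (Pool/Agent/SRC/W5.lean). -/
theorem Sit.sum_NN_normal (S : Sit G V B n) (E : Subgroup G) (hE : E.Normal) (N : ℕ)
    (hN : ∀ g ∈ E, g ≠ 1 → NN B g = N) :
    ∃ d : ℕ, (Nat.card E - 1) * N = Nat.card V * d := by
  classical
  let _ : Fintype V := Fintype.ofFinite V
  let _ : Fintype G := Fintype.ofFinite G
  obtain ⟨x₀⟩ := (inferInstance : Nonempty V)
  set F : Finset G := Finset.univ.filter fun g => g ∈ E with hF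
  have hFcard : F.card = Nat.card E := by
    rw [Nat.card_eq_fintype_card, ← Fintype.card_subtype]
  have hNN : ∀ g : G, NN B g = (Finset.univ.filter fun y : V => B y (g • y)).card := by
    intro g
    rw [NN, Nat.card_eq_fintype_card, Fintype.card_subtype]
  have h1 : ∀ y : V, (F.filter fun g => B y (g • y)).card
      = (F.filter fun g => B x₀ (g • x₀)).card := by
    intro y
    obtain ⟨u, hu⟩ := S.trans x₀ y
    symm
    refine Finset.card_bij' (fun g _ => u * g * u⁻¹) (fun g _ => u⁻¹ * g * u) ?_ ?_ ?_ ?_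
    · intro g hg
      rw [Finset.mem_filter, hF, Finset.mem_filter] at hg ⊢
      refine ⟨⟨Finset.mem_univ _, hE.conj_mem g hg.1.2 u⟩, ?_⟩
      have h2 := S.aut u _ _ hg.2
      have h3 : (u * g * u⁻¹) • y = u • (g • x₀) := by
        rw [← hu, smul_smul, smul_smul]
        congr 1
        group
      rw [h3, ← hu]
      exact h2
    · intro g hg
      rw [Finset.mem_filter, hF, Finset.mem_filter] at hg ⊢
      have h4 : u⁻¹ * g * u ∈ E := by
        have := hE.conj_mem g hg.1.2 u⁻¹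
        rwa [inv_inv] at this
      refine ⟨⟨Finset.mem_univ _, h4⟩, ?_⟩
      have h2 := S.aut u⁻¹ _ _ hg.2
      have h3 : (u⁻¹ * g * u) • x₀ = u⁻¹ • (g • y) := by
        rw [← hu, smul_smul, smul_smul]
      have h5 : u⁻¹ • y = x₀ := by rw [← hu, inv_smul_smul]
      rw [h3]
      rwa [h5] at h2
    · intro g _
      group
    · intro g _
      group
  have h2 : ∑ g ∈ F, NN B g = Nat.card V * (F.filter fun g => B x₀ (g • x₀)).card := by
    have e1 : ∑ g ∈ F, NN B g = ∑ g ∈ F, ∑ y : V, if B y (g • y) then 1 else 0 := by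
      apply Finset.sum_congr rfl
      intro g _
      rw [hNN, Finset.card_filter]
    rw [e1, Finset.sum_comm]
    have e2 : ∀ y ∈ (Finset.univ : Finset V), (∑ g ∈ F, if B y (g • y) then 1 else 0)
        = (F.filter fun g => B x₀ (g • x₀)).card := by
      intro y _
      rw [← h1 y, Finset.card_filter]
    rw [Finset.sum_congr rfl e2, Finset.sum_const, Finset.card_univ, smul_eq_mul,
      Nat.card_eq_fintype_card]
  have h1F : (1 : G) ∈ F := by
    rw [hF, Finset.mem_filter]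
    exact ⟨Finset.mem_univ _, E.one_mem⟩
  have hT1 : NN B (1 : G) = Nat.card V := by
    rw [NN]
    apply Nat.card_congr
    refine ⟨fun y => y.1, fun y => ⟨y, ?_⟩, fun y => rfl, fun y => rfl⟩
    rw [one_smul]
    exact S.geo.refl y
  rw [← Finset.add_sum_erase F _ h1F, hT1] at h2
  have h5 : ∑ g ∈ F.erase 1, NN B g = (Nat.card E - 1) * N := by
    rw [Finset.sum_congr rfl (g := fun _ => N), Finset.sum_const, Finset.card_erase_of_mem h1F,
      hFcard, smul_eq_mul]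
    intro g hg
    rw [Finset.mem_erase, hF, Finset.mem_filter] at hg
    exact hN g hg.2.2 hg.1
  rw [h5] at h2
  refine ⟨(F.filter fun g => B x₀ (g • x₀)).card - 1, ?_⟩
  rw [Nat.mul_sub, mul_one, ← h2]
  omega

/-- PROOF. Adaptation of `SRC.el_of_isD` (Pool/Agent/SRC/F2.lean).  If `E ≠ ⊥`, then `|E| = p ^ k`,
`k ≥ 1`, all elements `≠ 1` of `E` have order `p` and no fixed point (`Sit.free`); `E` acts freely on
`V`, so `|E| ∣ |V|` (`SRC.free_dvd`), and `2 |V| = (n^2+2+n)(n^2+2-n)`; choose `ε` with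
`p ∣ n^2+2+εn`; `Sit.NN_eq`, `Sit.sum_NN_normal`, `SRC.prime_facts`, `SRC.arith_el`. -/
theorem Sit.el_free (S : Sit G V B n) (hn : 2 ≤ n) (p : ℕ) (hp : p.Prime) (hp2 : p ≠ 2)
    (E : Subgroup G) (hE : E.Normal) (hEp : ∀ x ∈ E, x ^ p = 1)
    (hfree : ∀ g ∈ E, g ≠ 1 → ∀ x : V, g • x ≠ x) : E = ⊥ := by
  classical
  by_contra hne
  have : Fact p.Prime := ⟨hp⟩
  have hpE : IsPGroup p E := by
    intro x
    refine ⟨1, ?_⟩
    ext
    simpa using hEp x x.2
  obtain ⟨k, hk⟩ := (IsPGroup.iff_card (p := p)).1 hpE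
  have hk0 : k ≠ 0 := by
    rintro rfl
    rw [pow_zero] at hk
    exact hne ((Subgroup.card_eq_one).1 hk)
  have hpodd : Odd p := hp.odd_of_ne_two hp2
  have hord : ∀ g ∈ E, g ≠ 1 → orderOf g = p := fun g hg hg1 => orderOf_eq_prime (hEp g hg) hg1
  have hv := S.geo.two_mul_card'
  have hEG : Nat.card E ∣ Nat.card V := by
    apply SRC.free_dvd
    intro x
    rw [eq_bot_iff]
    intro g hg
    rw [Subgroup.mem_bot]
    by_contra hg1
    have h1 : (g : G) ≠ 1 := fun h => hg1 (by ext; exact h)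
    exact hfree g.1 g.2 h1 x hg
  have hpG : (p : ℤ) ∣ (2 * Nat.card V : ℕ) := by
    have h1 : p ∣ Nat.card E := by rw [hk]; exact dvd_pow_self p hk0
    exact_mod_cast (h1.trans hEG).mul_left 2
  have hfac : ((2 * Nat.card V : ℕ) : ℤ) =
      ((n : ℤ) ^ 2 + 2 + 1 * n) * ((n : ℤ) ^ 2 + 2 + (-1) * n) := by
    rw [hv]; push_cast; ring
  -- the sign
  obtain ⟨ε, hε, hd⟩ : ∃ ε : ℤ, (ε = 1 ∨ ε = -1) ∧ (p : ℤ) ∣ (n : ℤ) ^ 2 + 2 + ε * n := by
    rw [hfac] at hpG
    have hpp : Prime (p : ℤ) := Nat.prime_iff_prime_int.1 hp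
    rcases hpp.dvd_or_dvd hpG with h5 | h5
    · exact ⟨1, Or.inl rfl, h5⟩
    · exact ⟨-1, Or.inr rfl, h5⟩
  obtain ⟨hpn, hpd'⟩ := SRC.prime_facts hp hp2 hε hd
  obtain ⟨N, hN⟩ : ∃ N : ℕ, (N : ℤ) = (n : ℤ) ^ 2 + 2 + ε * n := by
    have h1 : (0 : ℤ) ≤ (n : ℤ) ^ 2 + 2 + ε * n := by
      rcases hε with rfl | rfl <;> nlinarith
    exact ⟨((n : ℤ) ^ 2 + 2 + ε * n).toNat, Int.toNat_of_nonneg h1⟩
  have hfac2 : 2 * (Nat.card V : ℤ) =
      ((n : ℤ) ^ 2 + 2 + ε * n) * ((n : ℤ) ^ 2 + 2 - ε * n) := by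
    have h1 : (2 * (Nat.card V : ℤ)) = ((2 * Nat.card V : ℕ) : ℤ) := by push_cast; ring
    rw [h1, hfac]
    rcases hε with rfl | rfl <;> ring
  have hT : ∀ g ∈ E, g ≠ 1 → NN B g = N := by
    intro g hg hg1
    have h1 := NN_eq S.geo S.aut p hp hp2 ε hε hd g (hEp g hg) (hfree g hg hg1)
    rw [← hN] at h1
    exact_mod_cast h1
  obtain ⟨d, hdd⟩ := S.sum_NN_normal E hE N hT
  have hcop : IsCoprime ((Nat.card E : ℕ) : ℤ) ((n : ℤ) ^ 2 + 2 - ε * n) := by
    rw [hk]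
    push_cast
    apply IsCoprime.pow_left
    exact (Nat.prime_iff_prime_int.1 hp).coprime_iff_not_dvd.2 hpd'
  have hqN : ((Nat.card E : ℕ) : ℤ) ∣ (n : ℤ) ^ 2 + 2 + ε * n := by
    refine hcop.dvd_of_dvd_mul_right ?_
    rw [← hfac2]
    exact Dvd.dvd.mul_left (by exact_mod_cast hEG) _
  have hq1 : 1 < Nat.card E := by
    rw [hk]; exact Nat.one_lt_pow hk0 hp.one_lt
  refine SRC.arith_el n (Nat.card E) (Nat.card V) d ε hε hn hq1 ?_ hqN hfac2 ?_
  · rw [hk]; exact hpodd.pow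
  · rw [← hN]
    have h1 : ((Nat.card E - 1 : ℕ) : ℤ) = (Nat.card E : ℤ) - 1 := by
      push_cast [Nat.cast_sub hq1.le]; ring
    rw [← h1]
    exact_mod_cast hdd

end SRV
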