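import Pool.Agent.SRV.C3

set_option autoImplicit false

namespace SRV

open SRT

variable {G V : Type*} [Group G] [Finite G] [MulAction G V] [Finite V] [Nonempty V]
  {B : V → V → Prop} {n : ℕ}

/-- PROOF. The group `Q ⊓ G_x` acts on the closed neighbourhood of `x`; the orbit of `y` under it has
`h / |Q ⊓ G_x ⊓ G_y|` elements and is contained in `{z : B x z ∧ ∃ q ∈ Q, z = q y}`. -/
theorem Sit.orbit_le (S : Sit G V B n) (Q : Subgroup G) (h : ℕ) (x y : V) (hy : B x y)
    (hh : ∀ x : V, Nat.card ↥(Q ⊓ MulAction.stabilizer G x) = h) :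
    h ≤ Nat.card {z : V // B x z ∧ ∃ q ∈ Q, z = q • y} *
      Nat.card ↥(Q ⊓ MulAction.stabilizer G x ⊓ MulAction.stabilizer G y) := by
  classical
  set H : Subgroup G := Q ⊓ MulAction.stabilizer G x with hH
  have h1 : Nat.card H = h := hh x
  have h2 : Nat.card H = Nat.card (H ⧸ MulAction.stabilizer H y) * Nat.card (MulAction.stabilizer H y) :=
    Subgroup.card_eq_card_quotient_mul_card_subgroup _
  have h3 : Nat.card (H ⧸ MulAction.stabilizer H y) = Nat.card (MulAction.orbit H y) :=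
    (Nat.card_congr (MulAction.orbitEquivQuotientStabilizer H y)).symm
  have h4 : Nat.card (MulAction.orbit H y) ≤ Nat.card {z : V // B x z ∧ ∃ q ∈ Q, z = q • y} := by
    refine Nat.card_le_card_of_injective (fun z => ⟨(z : V), ?_⟩) ?_
    · obtain ⟨g, hg⟩ := z.2
      have hgx : (g : G) • x = x := (g.2).2
      have hg' : (g : G) • y = (z : V) := hg
      refine ⟨?_, (g : G), (g.2).1, hg'.symm⟩
      have h5 := S.aut (g : G) x y hy
      rw [hgx, hg'] at h5
      exact h5
    · intro z w hzw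
      exact Subtype.ext (Subtype.mk.inj hzw)
  have h5 : Nat.card (MulAction.stabilizer H y) ≤ Nat.card ↥(H ⊓ MulAction.stabilizer G y) := by
    refine Nat.card_le_card_of_injective (fun g => ⟨((g : H) : G), ?_⟩) ?_
    · exact ⟨(g : H).2, g.2⟩
    · intro g k hgk
      exact Subtype.ext (Subtype.ext (Subtype.mk.inj hgk))
  rw [← h1, h2, h3]
  exact Nat.mul_le_mul h4 h5

/-- PROOF. Double count of `{(g, y) : g ∈ Q ⊓ G_x, B x y, g y = y}`: the term `g = 1` is `n²+2`, the
`h - 1` others are at most `n + 2` (`Sit.card_fix_nbhd_le`; `Q` is a `2`-group). -/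
theorem Sit.sum_stab_le (S : Sit G V B n) (Q : Subgroup G) (hQ2 : IsPGroup 2 Q) (h : ℕ) (x : V)
    (hh : ∀ x : V, Nat.card ↥(Q ⊓ MulAction.stabilizer G x) = h) [Fintype {y : V // B x y}] :
    ∑ y : {y : V // B x y},
        Nat.card ↥(Q ⊓ MulAction.stabilizer G x ⊓ MulAction.stabilizer G (y : V)) ≤
      n ^ 2 + 2 + (h - 1) * (n + 2) := by
  classical
  have : Fintype V := Fintype.ofFinite V
  have : Fintype G := Fintype.ofFinite G
  set H : Subgroup G := Q ⊓ MulAction.stabilizer G x with hH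
  have h1 : Nat.card H = h := hh x
  have hF : Fintype H := Fintype.ofFinite H
  have e1 : ∀ y : {y : V // B x y}, Nat.card ↥(H ⊓ MulAction.stabilizer G (y : V)) =
      ∑ g : H, if (g : G) • (y : V) = y then 1 else 0 := by
    intro y
    rw [Finset.sum_boole, Nat.cast_id, ← Fintype.card_subtype, ← Nat.card_eq_fintype_card]
    refine Nat.card_congr ⟨fun g => ⟨⟨(g : G), g.2.1⟩, g.2.2⟩, fun g => ⟨((g : H) : G), (g : H).2, g.2⟩, ?_, ?_⟩
    · intro g; rfl
    · intro g; rfl
  have e2 : ∀ g : H, (∑ y : {y : V // B x y}, if (g : G) • (y : V) = y then 1 else 0) =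
      Nat.card {y : V // B x y ∧ (g : G) • y = y} := by
    intro g
    rw [Finset.sum_boole, Nat.cast_id, ← Fintype.card_subtype, ← Nat.card_eq_fintype_card]
    refine Nat.card_congr ⟨fun y => ⟨((y : {y : V // B x y}) : V), (y : {y : V // B x y}).2, y.2⟩,
      fun y => ⟨⟨(y : V), y.2.1⟩, y.2.2⟩, ?_, ?_⟩
    · intro g; rfl
    · intro g; rfl
  rw [Finset.sum_congr rfl fun y _ => e1 y, Finset.sum_comm, Finset.sum_congr rfl fun g _ => e2 g,
    ← Finset.add_sum_erase Finset.univ _ (Finset.mem_univ (1 : H))]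
  have e3 : Nat.card {y : V // B x y ∧ (((1 : H) : G)) • y = y} = n ^ 2 + 2 := by
    rw [← S.geo.card x]
    refine Nat.card_congr (Equiv.subtypeEquivRight fun y => ?_)
    rw [OneMemClass.coe_one, one_smul]
    exact ⟨fun h => h.1, fun h => ⟨h, rfl⟩⟩
  rw [e3]
  refine Nat.add_le_add_left ?_ _
  have e4 : (Finset.univ.erase (1 : H)).card = h - 1 := by
    rw [Finset.card_erase_of_mem (Finset.mem_univ _), Finset.card_univ, ← Nat.card_eq_fintype_card, h1]
  rw [← e4, ← smul_eq_mul]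
  refine Finset.sum_le_card_nsmul _ _ _ fun g hg => ?_
  have hg1 : (g : G) ≠ 1 := by
    intro hcon
    exact (Finset.mem_erase.1 hg).1 (Subtype.ext hcon)
  obtain ⟨c, hc⟩ := hQ2 ⟨(g : G), g.2.1⟩
  have hc' : (g : G) ^ (2 ^ c) = 1 := congrArg (fun z : Q => (z : G)) hc
  exact S.card_fix_nbhd_le (g : G) hg1 c hc' x g.2.2

end SRV
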