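import Pool.Agent.SRV.C4a
import Pool.Agent.SRV.C4b

set_option autoImplicit false

namespace SRV

open SRT

variable {G V : Type*} [Group G] [Finite G] [MulAction G V] [Finite V] [Nonempty V]
  {B : V → V → Prop} {n : ℕ}

/-- PROOF. For `y` with `B x y` let `w y = #{z : B x z ∧ ∃ q ∈ Q, z = q y}` (`≥ 1`).
`∑_y w y = n² + 2^(a+1)` (`Sit.pairs`), `1 / w y ≤ |Q_{xy}| / h` (`Sit.orbit_le`), so by Cauchy-Schwarz
`(n²+2)² = (∑_y 1)² ≤ (∑_y w y) (∑_y 1 / w y) ≤ (n²+2^(a+1)) (1/h) ∑_y |Q_{xy}|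
≤ (n²+2^(a+1)) (1/h) (n²+2+(h-1)(n+2))` (`Sit.sum_stab_le`).
(`Finset.sum_mul_sq_le_sq_mul_sq` or `inner_mul_le_norm_mul_norm` with `√w`, `1/√w`;
`div_add_div_same`, `Finset.sum_div_... ` / `Finset.sq_sum_div_le_sum_sq_div`:
`(∑ 1)² / ∑ w ≤ ∑ 1² / w`.) -/
theorem Sit.ineq2 (S : Sit G V B n) (Q : Subgroup G) (hQ2 : IsPGroup 2 Q) (a h : ℕ)
    (hh : ∀ x : V, Nat.card ↥(Q ⊓ MulAction.stabilizer G x) = h)
    (hQ : Nat.card Q = 2 ^ a * h) :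
    h * (n ^ 2 + 2) ^ 2 ≤ (n ^ 2 + 2 ^ (a + 1)) * (n ^ 2 + 2 + (h - 1) * (n + 2)) := by
  classical
  have : Fintype V := Fintype.ofFinite V
  obtain ⟨x⟩ := ‹Nonempty V›
  set w : {y : V // B x y} → ℕ := fun y => Nat.card {z : V // B x z ∧ ∃ q ∈ Q, z = q • (y : V)} with hw
  set s : {y : V // B x y} → ℕ := fun y =>
    Nat.card ↥(Q ⊓ MulAction.stabilizer G x ⊓ MulAction.stabilizer G (y : V)) with hs
  have h1 : ∀ y, h ≤ w y * s y := fun y => S.orbit_le Q h x y y.2 hh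
  have h2 : ∑ y, w y = n ^ 2 + 2 ^ (a + 1) := by
    rw [← S.pairs Q a h x hh hQ, hw, ← Nat.card_sigma]
    refine Nat.card_congr ⟨fun p => ⟨((p.1 : V), (p.2 : V)), p.1.2, p.2.2.1, p.2.2.2⟩,
      fun p => ⟨⟨p.1.1, p.2.1⟩, ⟨p.1.2, p.2.2.1, p.2.2.2⟩⟩, ?_, ?_⟩
    · intro p; rfl
    · intro p; rfl
  have h3 : ∑ y, s y ≤ n ^ 2 + 2 + (h - 1) * (n + 2) := S.sum_stab_le Q hQ2 h x hh
  have hc : Fintype.card {y : V // B x y} = n ^ 2 + 2 := by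
    rw [← Nat.card_eq_fintype_card]; exact S.geo.card x
  have h4 := Finset.sum_sq_le_sum_mul_sum_of_sq_le_mul (R := ℝ) (Finset.univ : Finset {y : V // B x y})
    (r := fun _ => Real.sqrt h) (f := fun y => (w y : ℝ)) (g := fun y => (s y : ℝ))
    (fun y _ => Nat.cast_nonneg _) (fun y _ => Nat.cast_nonneg _) (fun y _ => by
      rw [Real.sq_sqrt (Nat.cast_nonneg _)]
      exact_mod_cast h1 y)
  rw [Finset.sum_const, Finset.card_univ, hc, nsmul_eq_mul, mul_pow, Real.sq_sqrt (Nat.cast_nonneg _)] at h4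
  have h5 : (n ^ 2 + 2) ^ 2 * h ≤ (∑ y, w y) * ∑ y, s y := by exact_mod_cast h4
  rw [h2] at h5
  calc h * (n ^ 2 + 2) ^ 2 = (n ^ 2 + 2) ^ 2 * h := mul_comm _ _
    _ ≤ (n ^ 2 + 2 ^ (a + 1)) * ∑ y, s y := h5
    _ ≤ _ := Nat.mul_le_mul_left _ h3

end SRV
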