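import Pool.Agent.SRT.B2
import Pool.Agent.SRT.C1
import Pool.Agent.SRT.C2b
import Pool.Agent.SRT.D1
import Pool.Agent.SRT.D2a
import Pool.Agent.SRT.D2b
import Pool.Agent.SRT.A3
import Pool.Agent.SRT.G1
import Pool.Agent.SRT.G3a
import Pool.Agent.SRT.F1d
import Pool.Agent.SRT.F2a
import Pool.Agent.SRT.F2b
import Pool.Agent.SRC.N1

/-!
# MP_e446a9_co, SRV: vertex-transitive groups of automorphisms of strongly regular graphs with
`λ = 0`, `μ = 2`.  Common definitions.
-/

set_option autoImplicit false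

namespace SRV

open SRT

/-- a faithful transitive group of automorphisms -/
structure Sit (G V : Type*) [Group G] [MulAction G V] (B : V → V → Prop) (n : ℕ) : Prop where
  aut : Aut G B
  faithful : ∀ g : G, (∀ x : V, g • x = x) → g = 1
  trans : ∀ x y : V, ∃ g : G, g • x = y
  geo : Geo B (n ^ 2 + 2)

/-- a closed set of vertices -/
def Closed {V : Type*} (B : V → V → Prop) (q : V → Prop) : Prop :=
  ∀ x z : V, q x → q z → x ≠ z → ∀ y : V, B x y → B y z → q y

universe u

/-- the statement proved by induction on the number of vertices: a solvable normal subgroup of a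
vertex-transitive group is a `2`-group. -/
def TwoRad (N : ℕ) : Prop :=
  ∀ (V : Type u) [Finite V] [Nonempty V] (B : V → V → Prop) (n : ℕ), Nat.card V = N → 3 ≤ n →
    Geo B (n ^ 2 + 2) → ∀ G R : Subgroup (Equiv.Perm V),
      (∀ g ∈ G, ∀ x y, B x y → B (g x) (g y)) → (∀ x y : V, ∃ g ∈ G, g x = y) →
      R ≤ G → (∀ g ∈ G, ∀ r ∈ R, g * r * g⁻¹ ∈ R) → Group.IsSolvable R → IsPGroup 2 R

end SRV
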