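import Pool.Agent.SRV.B4

set_option autoImplicit false

namespace SRV

/-- An element of odd prime order `p` acts nontrivially on `Q` (version with a non-commuting element).
PROOF. `|Q| = 2^b`; `|Q ⊓ C(z)| = 2^c` with `c < b` (if `Q ⊓ C(z) = Q`, then `z ∈ C(Q) ≤ Q`, but `Q` is
a `2`-group); `t = b - c`; `2^c ≡ 2^b (mod p)` (`SRC.card_inf_centralizer_modEq`), so
`p ∣ 2^c (2^t - 1)` and `p` is odd. -/
theorem exists_t_nc {G : Type*} [Group G] [Finite G] (Q : Subgroup G) (hQn : Q.Normal)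
    (hQ : IsPGroup 2 Q) (p : ℕ) (hp : p.Prime)
    (hp2 : p ≠ 2) (z : G) (hz : orderOf z = p) (hnc : ∃ q ∈ Q, z * q ≠ q * z) :
    ∃ t : ℕ, 1 ≤ t ∧ 2 ^ t * Nat.card ↥(Q ⊓ Subgroup.centralizer ({z} : Set G)) = Nat.card Q ∧
      p ∣ 2 ^ t - 1 := by
  obtain ⟨b, hb⟩ := (IsPGroup.iff_card (p := 2)).1 hQ
  have hF : IsPGroup 2 ↥(Q ⊓ Subgroup.centralizer ({z} : Set G)) := hQ.to_le inf_le_left
  obtain ⟨c, hc⟩ := (IsPGroup.iff_card (p := 2)).1 hF
  have hcb : c ≤ b := by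
    have h1 : 2 ^ c ∣ 2 ^ b := by
      rw [← hb, ← hc]
      exact Subgroup.card_dvd_of_le inf_le_left
    exact (Nat.pow_dvd_pow_iff_le_right (by norm_num)).1 h1
  obtain ⟨t, rfl⟩ := Nat.exists_eq_add_of_le hcb
  have ht : 1 ≤ t := by
    by_contra hcon
    have ht0 : t = 0 := by omega
    subst ht0
    have h1 : Q ⊓ Subgroup.centralizer ({z} : Set G) = Q := by
      apply Subgroup.eq_of_le_of_card_ge inf_le_left
      rw [hb, hc]
      simp
    obtain ⟨q, hq, hne⟩ := hnc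
    have h3 : q ∈ Q ⊓ Subgroup.centralizer ({z} : Set G) := by rw [h1]; exact hq
    exact hne (Subgroup.mem_centralizer_singleton_iff.1 h3.2).symm
  refine ⟨t, ht, by rw [hb, hc, pow_add, mul_comm], ?_⟩
  have h1 := SRC.card_inf_centralizer_modEq Q z p hp
    (by rw [← hz]; exact pow_orderOf_eq_one z) (fun h hh => hQn.conj_mem h hh z)
  rw [hb, hc] at h1
  have h2 : p ∣ 2 ^ (c + t) - 2 ^ c :=
    (Nat.modEq_iff_dvd' (Nat.pow_le_pow_right (by norm_num) (by omega))).1 h1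
  have h3 : 2 ^ (c + t) - 2 ^ c = 2 ^ c * (2 ^ t - 1) := by
    rw [pow_add, Nat.mul_sub, mul_one]
  rw [h3] at h2
  rcases (Nat.Prime.dvd_mul hp).1 h2 with h4 | h4
  · exact absurd ((Nat.prime_dvd_prime_iff_eq hp Nat.prime_two).1 (hp.dvd_of_dvd_pow h4)) hp2
  · exact h4


end SRV
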