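import Pool.Agent.SRV.B2
import Pool.Agent.SRV.B3
import Pool.Agent.SRV.C4c
import Pool.Agent.SRV.G3b
import Pool.Agent.SRV.G0
import Pool.Agent.SRV.A1

/-!
# SRV: the situation in a minimal counterexample
-/

set_option autoImplicit false

namespace SRV

open SRT

/-- `R` is a normal subgroup of `G`, `Q` a normal `2`-subgroup of `G` contained in `R`, `R / Q` is a
nontrivial elementary abelian `p`-group, `p` odd; the elements of order `p` of `R` have no fixed point
and do not centralise `Q`. -/
structure Rad {G : Type*} (V : Type*) [Group G] [MulAction G V] (Q R : Subgroup G) (p : ℕ) :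
    Prop where
  normal : Q.Normal
  two : IsPGroup 2 Q
  prime : p.Prime
  ne_two : p ≠ 2
  elem : SRC.Elem Q R p
  solv : Group.IsSolvable R
  free : ∀ z ∈ R, z ^ p = 1 → z ≠ 1 → ∀ x : V, z • x ≠ x
  nc : ∀ z ∈ R, orderOf z = p → ∃ q ∈ Q, z * q ≠ q * z

end SRV
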