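import Pool.Agent.SRV.Defs

set_option autoImplicit false

namespace SRV

/-- PROOF. `A = {x ∈ E : (∀ y ∈ E, x * y = y * x) ∧ x ^ p = 1}`: a subgroup (its elements commute),
normal in `G` (`E` normal).  The centre of the nontrivial `p`-group `E` is nontrivial
(`IsPGroup.center_nontrivial`), so it contains an element of order `p` (Cauchy). -/
theorem exists_elem_ab {G : Type*} [Group G] [Finite G] (p : ℕ) (hp : p.Prime) (E : Subgroup G)
    (hE : E.Normal) (hEp : IsPGroup p E) (hne : E ≠ ⊥) :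
    ∃ A : Subgroup G, A.Normal ∧ A ≤ E ∧ A ≠ ⊥ ∧ (∀ x ∈ A, ∀ y ∈ A, x * y = y * x) ∧
      ∀ x ∈ A, x ^ p = 1 := by
  haveI : Fact p.Prime := ⟨hp⟩
  let A : Subgroup G :=
    { carrier := {x | x ∈ E ∧ (∀ y ∈ E, x * y = y * x) ∧ x ^ p = 1}
      one_mem' := ⟨E.one_mem, fun y _ => by simp, one_pow p⟩
      mul_mem' := by
        rintro a b ⟨haE, hac, hap⟩ ⟨hbE, hbc, hbp⟩
        refine ⟨E.mul_mem haE hbE, fun y hy => ?_, ?_⟩
        · rw [mul_assoc, hbc y hy, ← mul_assoc, hac y hy, mul_assoc]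
        · have hc : Commute a b := hac b hbE
          rw [hc.mul_pow, hap, hbp, one_mul]
      inv_mem' := by
        rintro a ⟨haE, hac, hap⟩
        refine ⟨E.inv_mem haE, fun y hy => ?_, ?_⟩
        · have hc : Commute a y := hac y hy
          exact hc.inv_left
        · rw [inv_pow, hap, inv_one] }
  have hA : ∀ x, x ∈ A ↔ x ∈ E ∧ (∀ y ∈ E, x * y = y * x) ∧ x ^ p = 1 := fun x => Iff.rfl
  refine ⟨A, ⟨?_⟩, fun x hx => ((hA x).1 hx).1, ?_, ?_, fun x hx => ((hA x).1 hx).2.2⟩
  · intro n hn g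
    obtain ⟨hnE, hnc, hnp⟩ := (hA n).1 hn
    refine (hA _).2 ⟨hE.conj_mem n hnE g, fun y hy => ?_, ?_⟩
    · have h1 := hnc (g⁻¹ * y * g) (by simpa using hE.conj_mem y hy g⁻¹)
      calc g * n * g⁻¹ * y = g * (n * (g⁻¹ * y * g)) * g⁻¹ := by group
        _ = g * ((g⁻¹ * y * g) * n) * g⁻¹ := by rw [h1]
        _ = y * (g * n * g⁻¹) := by group
    · rw [conj_pow, hnp, mul_one, mul_inv_cancel]
  · haveI : Nontrivial E := (Subgroup.nontrivial_iff_ne_bot E).2 hne
    haveI : Finite E := inferInstance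
    have hcn : Nontrivial (Subgroup.center E) := hEp.center_nontrivial
    have hcp : IsPGroup p (Subgroup.center E) := hEp.to_subgroup _
    have hdvd : p ∣ Nat.card (Subgroup.center E) := by
      obtain ⟨k, hk0, hk⟩ := hcp.nontrivial_iff_card.1 hcn
      rw [hk]
      exact dvd_pow_self p (by omega)
    obtain ⟨z, hz⟩ := exists_prime_orderOf_dvd_card' p hdvd
    intro hbot
    have hzA : ((z : E) : G) ∈ A := by
      refine (hA _).2 ⟨(z : E).2, fun y hy => ?_, ?_⟩
      · have h1 := (Subgroup.mem_center_iff.1 z.2) ⟨y, hy⟩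
        have h2 := congrArg (Subtype.val) h1
        simpa using h2.symm
      · have h1 : z ^ p = 1 := by rw [← hz]; exact pow_orderOf_eq_one z
        have h2 := congrArg (fun t : Subgroup.center E => ((t : E) : G)) h1
        simpa using h2
    rw [hbot, Subgroup.mem_bot] at hzA
    have hz1 : z = 1 := by
      apply Subtype.ext
      apply Subtype.ext
      simpa using hzA
    rw [hz1, orderOf_one] at hz
    exact hp.one_lt.ne hz
  · intro x hx y hy
    exact ((hA x).1 hx).2.1 y ((hA y).1 hy).1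

end SRV
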