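import Pool.Agent.SRV.I1
import Pool.Agent.SRV.A1

set_option autoImplicit false

namespace SRV

open SRT

universe u

/-- the elements normalising `Y` -/
def I2_N {M : Type*} [Group M] (P : Subgroup M) : Subgroup M where
  carrier := {g | ∀ u : M, u ∈ P ↔ g * u * g⁻¹ ∈ P}
  one_mem' := fun u => by simp
  mul_mem' := by
    rintro a b ha' hb' u
    rw [hb' u, ha' (b * u * b⁻¹)]
    have e : a * (b * u * b⁻¹) * a⁻¹ = a * b * u * (a * b)⁻¹ := by group
    rw [e]
  inv_mem' := by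
    rintro a ha' u
    rw [ha' (a⁻¹ * u * a⁻¹⁻¹)]
    have e : a * (a⁻¹ * u * a⁻¹⁻¹) * a⁻¹ = u := by group
    rw [e]

/-- a permutation of prime order without fixed points -/
theorem I2_dvd {D : Type*} [Finite D] (p : ℕ) (hp : p.Prime) (s : Equiv.Perm D) (hs : s ^ p = 1)
    (hf : ∀ w, s w ≠ w) : p ∣ Nat.card D := by
  have : Fact p.Prime := ⟨hp⟩
  rcases isEmpty_or_nonempty D with he | he
  · simp
  have hP : IsPGroup p (Subgroup.zpowers s) := by
    refine IsPGroup.of_card (n := 1) ?_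
    rw [Nat.card_zpowers, pow_one]
    refine orderOf_eq_prime hs ?_
    rintro rfl
    exact hf (Classical.arbitrary D) rfl
  have h1 := hP.card_modEq_card_fixedPoints D
  have h2 : IsEmpty (MulAction.fixedPoints (Subgroup.zpowers s) D) := by
    refine ⟨fun w => hf w.1 ?_⟩
    exact w.2 ⟨s, Subgroup.mem_zpowers s⟩
  have h3 : Nat.card (MulAction.fixedPoints (Subgroup.zpowers s) D) = 0 := Nat.card_of_isEmpty
  rw [h3] at h1
  exact Nat.modEq_zero_iff_dvd.1 h1

/-- The induction step through a fixed subgraph.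
PROOF. Let `Δ = {w : V // ∀ u ∈ Y, u • w = w}` (contains `x`).  `|Y|` is a power of the odd prime `r`,
so odd; `Δ` is closed (`closed_fix`), so `exists_geo_closed` gives `d'` with `Geo B' d'` on `Δ`.
`N = {g : G | ∀ u, u ∈ Y ↔ g * u * g⁻¹ ∈ Y}` (a subgroup, compare `SRT.D3b_N` in
Pool/Agent/SRT/D3b.lean) maps `Δ` to itself; it is transitive on `Δ` (`exists_norm` twice: `x → a`,
`x → b`).  Let `φ : N →* Equiv.Perm Δ` be the action (compare `SRT.false_of_invariant`, D3a.lean;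
`Equiv.Perm` of the restriction of `w ↦ g • w`).  `Nat.card Δ < Nat.card V`, since an element
`≠ 1` of `Y` moves a point (`S.faithful`).
`z ∈ N` (`hzY`).  `z` acts on `Δ` without fixed point (`hzf`) and `z ^ p = 1`, so `p ∣ Nat.card Δ`
(`zpowers` of the permutation is a `p`-group without fixed points:
`IsPGroup.card_modEq_card_fixedPoints`), so `d' = m ^ 2 + 2` with `3 ≤ m`
(`SRT.exists_n_of_dvd`, Pool/Agent/SRT/D2a.lean).
`IH` for `Δ`, `B'`, `m`, `G' = φ.range`, `R' = (R.subgroupOf N).map φ` (solvable: image of a subgroup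
of `R`; invariant under conjugation by `G'`; preserves `B'`) says that `R'` is a `2`-group.  `φ z ∈ R'`
satisfies `(φ z)^p = 1` and `(φ z)^(2^k) = 1`, so `φ z = 1`, contradiction to `hzf x`. -/
theorem fixed_step {G : Type*} {V : Type u} [Group G] [Finite G] [MulAction G V] [Finite V]
    [Nonempty V] {B : V → V → Prop} {n : ℕ} (S : Sit G V B n)
    (IH : ∀ N < Nat.card V, TwoRad.{u} N) (K R : Subgroup G) (hK : K.Normal) (hR : R.Normal)
    (hRs : Group.IsSolvable R) (r : ℕ) (hr : r.Prime) (hr2 : r ≠ 2) (x : V) (Y : Subgroup G)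
    (hYK : Y ≤ K) (hYx : ∀ u ∈ Y, u • x = x) (hYr : IsPGroup r Y) (hY1 : Y ≠ ⊥)
    (hmax : ∀ Y' : Subgroup G, Y' ≤ K → (∀ u ∈ Y', u • x = x) → IsPGroup r Y' →
      Nat.card Y' ≤ Nat.card Y)
    (p : ℕ) (hp : p.Prime) (hp2 : p ≠ 2) (z : G) (hzR : z ∈ R)
    (hzY : ∀ u : G, u ∈ Y ↔ z * u * z⁻¹ ∈ Y) (hzp : z ^ p = 1)
    (hzf : ∀ w : V, (∀ u ∈ Y, u • w = w) → z • w ≠ w) : False := by
  have : Fact r.Prime := ⟨hr⟩
  have hYodd : Odd (Nat.card Y) := by
    obtain ⟨k, hk⟩ := IsPGroup.iff_card.mp hYr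
    rw [hk]
    exact (hr.odd_of_ne_two hr2).pow
  obtain ⟨d', hd'⟩ := exists_geo_closed S.geo (closed_fix S.geo S.aut Y hYodd) ⟨x, hYx⟩
  set N := I2_N Y with hN
  have hmemN : ∀ g : G, g ∈ N ↔ ∀ u : G, u ∈ Y ↔ g * u * g⁻¹ ∈ Y := fun g => Iff.rfl
  have hN2 : ∀ g ∈ N, ∀ y : V, (∀ u ∈ Y, u • y = y) → ∀ u ∈ Y, u • g • y = g • y := by
    intro g hg y hy u hu
    have h1 : g⁻¹ * u * g ∈ Y := by
      rw [(hmemN g).mp hg]
      have e : g * (g⁻¹ * u * g) * g⁻¹ = u := by group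
      rw [e]; exact hu
    have h2 := hy _ h1
    have h3 : g • (g⁻¹ * u * g) • y = u • g • y := by
      rw [← mul_smul, ← mul_smul]
      congr 1
      group
    rw [← h3, h2]
  have hN3 : ∀ g : N, ∀ y : V, (∀ u ∈ Y, u • y = y) ↔ ∀ u ∈ Y, u • (g : G) • y = (g : G) • y := by
    intro g y
    refine ⟨hN2 g.1 g.2 y, fun h1 => ?_⟩
    have h2 := hN2 (g.1)⁻¹ (N.inv_mem g.2) _ h1
    rw [inv_smul_smul] at h2
    exact h2
  let φ : N →* Equiv.Perm {w : V // ∀ u ∈ Y, u • w = w} :=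
    { toFun := fun g => (MulAction.toPerm (g : G) : Equiv.Perm V).subtypePerm
        (fun y => (hN3 g y).symm)
      map_one' := by
        ext w
        exact one_smul G w.1
      map_mul' := fun a b => by
        ext w
        exact mul_smul (a : G) (b : G) w.1 }
  have hφ : ∀ (g : N) (w : {w : V // ∀ u ∈ Y, u • w = w}), ((φ g) w : V) = (g : G) • w.1 :=
    fun g w => rfl
  have hne : Nonempty {w : V // ∀ u ∈ Y, u • w = w} := ⟨⟨x, hYx⟩⟩
  have hzN : z ∈ N := hzY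
  have hφz : φ ⟨z, hzN⟩ ^ p = 1 := by
    rw [← map_pow]
    have h1 : (⟨z, hzN⟩ : N) ^ p = 1 := Subtype.ext hzp
    rw [h1, map_one]
  have hφf : ∀ w, φ ⟨z, hzN⟩ w ≠ w := fun w h => hzf w.1 w.2 (congrArg Subtype.val h)
  have hdvd := I2_dvd p hp _ hφz hφf
  obtain ⟨m, hm, rfl⟩ := exists_n_of_dvd hd' p hp hp2 hdvd
  have hlt : Nat.card {w : V // ∀ u ∈ Y, u • w = w} < Nat.card V := by
    obtain ⟨u, hu, hu1⟩ : ∃ u ∈ Y, u ≠ 1 := by
      by_contra hno
      push Not at hno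
      exact hY1 ((Subgroup.eq_bot_iff_forall Y).mpr hno)
    obtain ⟨y, hy⟩ : ∃ y : V, u • y ≠ y := by
      by_contra hno
      push Not at hno
      exact hu1 (S.faithful u hno)
    exact Finite.card_subtype_lt (x := y) (fun hcon => hy (hcon u hu))
  have hsol : Group.IsSolvable ((R.subgroupOf N).map φ) := by
    have h1 : Group.IsSolvable (R.subgroupOf N) := by
      have e : (R.subgroupOf N) →* R :=
        { toFun := fun g => ⟨((g : N) : G), g.2⟩
          map_one' := rfl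
          map_mul' := fun _ _ => rfl }
      refine Group.isSolvable_of_isSolvable_injective (f := (
        { toFun := fun g => ⟨((g : N) : G), g.2⟩
          map_one' := rfl
          map_mul' := fun _ _ => rfl } : (R.subgroupOf N) →* R)) ?_
      intro a b hab
      have h2 := congrArg (Subtype.val : R → G) hab
      exact Subtype.ext (Subtype.ext h2)
    exact Group.isSolvable_of_surjective (f := φ.subgroupMap (R.subgroupOf N))
      (φ.subgroupMap_surjective _)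
  have h2 := IH _ hlt {w : V // ∀ u ∈ Y, u • w = w} (fun a b => B a.1 b.1) m rfl hm hd' φ.range
    ((R.subgroupOf N).map φ) ?_ ?_ ?_ ?_ hsol
  · have hmem : φ ⟨z, hzN⟩ ∈ (R.subgroupOf N).map φ := ⟨⟨z, hzN⟩, hzR, rfl⟩
    obtain ⟨k, hk⟩ := h2 ⟨_, hmem⟩
    have h3 : φ ⟨z, hzN⟩ ^ 2 ^ k = 1 := congrArg Subtype.val hk
    have h4 : φ ⟨z, hzN⟩ = 1 := by
      have hcop : Nat.Coprime p (2 ^ k) :=
        ((Nat.coprime_primes hp Nat.prime_two).2 hp2).pow_right k
      have h5 := Nat.dvd_gcd (orderOf_dvd_of_pow_eq_one hφz) (orderOf_dvd_of_pow_eq_one h3)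
      rw [hcop] at h5
      exact orderOf_eq_one_iff.1 (Nat.dvd_one.1 h5)
    exact hφf ⟨x, hYx⟩ (by rw [h4]; rfl)
  · rintro _ ⟨g, rfl⟩ a b hab
    change B (φ g a).1 (φ g b).1
    rw [hφ, hφ]
    exact S.aut g.1 _ _ hab
  · rintro ⟨a, ha⟩ ⟨b, hb⟩
    obtain ⟨g, hg, hga⟩ := exists_norm S.trans K Y hK r hr x hYK hYx hYr hmax a ha
    obtain ⟨h, hh, hhb⟩ := exists_norm S.trans K Y hK r hr x hYK hYx hYr hmax b hb
    have hgN : g ∈ N := hg
    have hhN : h ∈ N := hh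
    refine ⟨φ (⟨h, hhN⟩ * ⟨g, hgN⟩⁻¹), ⟨_, rfl⟩, Subtype.ext ?_⟩
    rw [hφ]
    change (h * g⁻¹) • a = b
    rw [mul_smul, ← hga, inv_smul_smul, hhb]
  · rintro _ ⟨g, -, rfl⟩
    exact ⟨g, rfl⟩
  · rintro _ ⟨g, rfl⟩ _ ⟨s, hs, rfl⟩
    refine ⟨g * s * g⁻¹, ?_, by rw [map_mul, map_mul, map_inv]⟩
    exact hR.conj_mem _ hs g.1

/-- a Sylow subgroup of a point stabiliser inside `K` exists.
PROOF. Finite set of subgroups, maximal order (`Set.Finite.exists_maximalFor`, as in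
Pool/Agent/SRT/D3b.lean); it is `≠ ⊥` because `u` generates a nontrivial `r`-subgroup of `K`
fixing `x`. -/
theorem exists_max {G V : Type*} [Group G] [Finite G] [MulAction G V] (K : Subgroup G) (r : ℕ)
    (hr : r.Prime) (x : V) (u : G) (hu : u ∈ K) (hux : u • x = x) (hur : orderOf u = r) :
    ∃ Y : Subgroup G, Y ≤ K ∧ (∀ u ∈ Y, u • x = x) ∧ IsPGroup r Y ∧ Y ≠ ⊥ ∧
      ∀ Y' : Subgroup G, Y' ≤ K → (∀ u ∈ Y', u • x = x) → IsPGroup r Y' →
        Nat.card Y' ≤ Nat.card Y := by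
  have : Fact r.Prime := ⟨hr⟩
  obtain ⟨P, ⟨hPG, hPx, hPp⟩, hmax⟩ := Set.Finite.exists_maximalFor
    (fun R : Subgroup G => Nat.card R)
    {R : Subgroup G | R ≤ K ∧ (∀ u ∈ R, u • x = x) ∧ IsPGroup r R}
    (Set.toFinite _) ⟨⊥, bot_le, by
      intro u hu
      rw [Subgroup.mem_bot] at hu
      rw [hu]; exact one_smul G x, IsPGroup.of_bot⟩
  have hmax' : ∀ R : Subgroup G, R ≤ K → (∀ u ∈ R, u • x = x) → IsPGroup r R →
      Nat.card R ≤ Nat.card P := by
    intro R h1 h2 h3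
    rcases le_total (Nat.card R) (Nat.card P) with h | h
    · exact h
    · exact hmax ⟨h1, h2, h3⟩ h
  refine ⟨P, hPG, hPx, hPp, ?_, hmax'⟩
  intro hPbot
  have hcard : Nat.card (Subgroup.zpowers u) = r := by rw [Nat.card_zpowers, hur]
  have h1 := hmax' (Subgroup.zpowers u) (by rw [Subgroup.zpowers_le]; exact hu)
    (by
      intro w hw
      have h2 : Subgroup.zpowers u ≤ MulAction.stabilizer G x := by
        rw [Subgroup.zpowers_le]; exact hux
      exact h2 hw)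
    (IsPGroup.of_card (n := 1) (by rw [hcard, pow_one]))
  rw [hcard, hPbot, Subgroup.card_bot] at h1
  exact absurd hr.one_lt (by omega)

end SRV
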