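import Pool.Agent.SRV.E1
import Pool.Agent.SRV.B3
import Pool.Agent.SRV.I2

set_option autoImplicit false

namespace SRV

open SRT

universe u

/-- Normal `p`-subgroups are trivial, `p` odd.
PROOF. Suppose `E ≠ ⊥`, take `A` from `exists_elem_ab`.  If all elements `≠ 1` of `A` have no fixed
point: `Sit.el_free` (B3.lean) gives `A = ⊥`, contradiction.
Otherwise some `g ∈ A`, `g ≠ 1` fixes a point `x`.  Let `Y = A ⊓ MulAction.stabilizer G x ≠ ⊥`.
All `A ⊓ stabilizer G y` have the same order (`Sit.card_stab_eq`, B4.lean), so `Y` satisfies `hmax` of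
`fixed_step` for `K = A`, `r = p` (every `Y' ≤ A` fixing `x` is contained in `Y`).
`Y ≠ A`: otherwise `A` fixes `x`, hence (`A` normal, `G` transitive) every point, and `A = ⊥`
(`S.faithful`).  Take `z ∈ A`, `z ∉ Y`: it commutes with `Y`, `z ^ p = 1`, and it fixes no point `w` of
`Fix Y`: otherwise `A ⊓ stabilizer G w` contains `Y` and `z`, so has more elements than `Y`
(`Set.ncard_lt_ncard` / `Subgroup.eq_of_le_of_card_ge`), contradiction to `Sit.card_stab_eq`.
`A` is solvable (commutative: `Group.IsSolvable` of a commutative group, e.g.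
`Group.isSolvable_of_comm`).  Apply `fixed_step` with `K = R = A`. -/
theorem Sit.no_normal_p {G : Type*} {V : Type u} [Group G] [Finite G] [MulAction G V] [Finite V]
    [Nonempty V] {B : V → V → Prop} {n : ℕ} (S : Sit G V B n) (hn : 3 ≤ n)
    (IH : ∀ N < Nat.card V, TwoRad.{u} N) (p : ℕ) (hp : p.Prime) (hp2 : p ≠ 2) (E : Subgroup G)
    (hE : E.Normal) (hEp : IsPGroup p E) : E = ⊥ := by
  classical
  by_contra hne
  obtain ⟨A, hAn, hAE, hA1, hAc, hAp⟩ := exists_elem_ab p hp E hE hEp hne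
  by_cases hfree : ∀ g ∈ A, g ≠ 1 → ∀ x : V, g • x ≠ x
  · exact hA1 (S.el_free (by omega) p hp hp2 A hAn hAp hfree)
  push Not at hfree
  obtain ⟨g, hgA, hg1, x, hgx⟩ := hfree
  have hYA : A ⊓ MulAction.stabilizer G x ≠ A := by
    intro hcon
    apply hA1
    rw [eq_bot_iff]
    intro a ha
    rw [Subgroup.mem_bot]
    apply S.faithful
    intro y
    have h1 := S.card_stab_eq A hAn x y
    rw [hcon] at h1
    have h2 : A ⊓ MulAction.stabilizer G y = A :=
      Subgroup.eq_of_le_of_card_ge inf_le_left h1.le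
    have h3 : a ∈ A ⊓ MulAction.stabilizer G y := by rw [h2]; exact ha
    exact h3.2
  obtain ⟨z, hzA, hzY⟩ : ∃ z ∈ A, z ∉ A ⊓ MulAction.stabilizer G x := by
    by_contra hcon
    push Not at hcon
    exact hYA (le_antisymm inf_le_left hcon)
  have hAs : Group.IsSolvable A := by
    apply Group.isSolvable_of_comm
    intro a b
    apply Subtype.ext
    exact hAc a.1 a.2 b.1 b.2
  refine fixed_step S IH A A hAn hAn hAs p hp hp2 x (A ⊓ MulAction.stabilizer G x) inf_le_left
    (fun u hu => hu.2) (hEp.to_le (inf_le_left.trans hAE)) ?_ ?_ p hp hp2 z hzA ?_ (hAp z hzA) ?_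
  · intro hcon
    have h1 : g ∈ A ⊓ MulAction.stabilizer G x := ⟨hgA, hgx⟩
    rw [hcon, Subgroup.mem_bot] at h1
    exact hg1 h1
  · intro Y' hY' hY'x _
    have h1 : Y' ≤ A ⊓ MulAction.stabilizer G x := fun u hu => ⟨hY' hu, hY'x u hu⟩
    exact Nat.le_of_dvd Nat.card_pos (Subgroup.card_dvd_of_le h1)
  · intro u
    have h1 : ∀ v ∈ A, z * v * z⁻¹ = v := fun v hv => by rw [hAc z hzA v hv]; group
    constructor
    · intro hu
      rw [h1 u hu.1]
      exact hu
    · intro hu
      have h2 := h1 _ hu.1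
      have h3 : z * u * z⁻¹ = u := by
        have h4 := congrArg (fun t => z⁻¹ * t * z) h2
        have h5 : z⁻¹ * (z * (z * u * z⁻¹) * z⁻¹) * z = z * u * z⁻¹ := by group
        have h6 : z⁻¹ * (z * u * z⁻¹) * z = u := by group
        rw [h5, h6] at h4
        exact h4
      rw [h3] at hu
      exact hu
  · intro w hw hzw
    apply hzY
    have h1 : A ⊓ MulAction.stabilizer G x ≤ A ⊓ MulAction.stabilizer G w :=
      fun u hu => ⟨hu.1, hw u hu⟩
    have h2 := Subgroup.eq_of_le_of_card_ge h1 (S.card_stab_eq A hAn x w).ge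
    rw [h2]
    exact ⟨hzA, hzw⟩

end SRV
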