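import Pool.Agent.SRV.B4

set_option autoImplicit false

namespace SRV

open SRT

open scoped Pointwise in
/-- Frattini: every element of `G` becomes a normaliser of `P` after multiplication by an element of `Q`. -/
private theorem F1_frattini {G : Type*} [Group G] [Finite G] (Q R : Subgroup G)
    (hRn : R.Normal) (hQR : Q ≤ R) (p : ℕ) (hp : p.Prime) (hpQ : ¬ p ∣ Nat.card Q)
    (P : Subgroup G) (hPR : P ≤ R) (hPp : IsPGroup p P)
    (hcard : Nat.card R = Nat.card P * Nat.card Q) (g : G) :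
    ∃ q ∈ Q, ∀ v : G, v ∈ P ↔ q * g * v * (q * g)⁻¹ ∈ P := by
  have : Fact p.Prime := ⟨hp⟩
  have hcop : ∀ R' : Subgroup G, IsPGroup p R' → Nat.Coprime (Nat.card R') (Nat.card Q) := by
    intro R' hR'
    obtain ⟨k, hk⟩ := (IsPGroup.iff_card (p := p)).1 hR'
    rw [hk]
    exact Nat.Coprime.pow_left k ((Nat.Prime.coprime_iff_not_dvd hp).2 hpQ)
  have hmax : ∀ R' : Subgroup G, R' ≤ R → IsPGroup p R' → Nat.card R' ≤ Nat.card P := by
    intro R' hR' hp'
    have h1 : Nat.card R' ∣ Nat.card P * Nat.card Q := by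
      rw [← hcard]
      exact Subgroup.card_dvd_of_le hR'
    exact Nat.le_of_dvd Nat.card_pos ((hcop R' hp').dvd_of_dvd_mul_right h1)
  set P' : Subgroup G := P.map (MulAut.conj g).toMonoidHom with hP'
  have hmemP' : ∀ v : G, v ∈ P ↔ g * v * g⁻¹ ∈ P' := by
    intro v
    constructor
    · intro hv
      exact ⟨v, hv, rfl⟩
    · rintro ⟨v', hv', h⟩
      have h1 : g * v' * g⁻¹ = g * v * g⁻¹ := h
      have h2 : v' = v := mul_left_cancel (mul_right_cancel h1)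
      rw [← h2]
      exact hv'
  have hP'R : P' ≤ R := by
    rintro _ ⟨v, hv, rfl⟩
    exact hRn.conj_mem v (hPR hv) g
  have hP'p : IsPGroup p P' := hPp.map _
  have hP'c : Nat.card P' = Nat.card P :=
    (Nat.card_congr (P.equivMapOfInjective (MulAut.conj g).toMonoidHom (MulAut.conj g).injective).toEquiv).symm
  obtain ⟨S, hS⟩ := D2b_syl p R P hPR hPp hmax
  obtain ⟨T, hT⟩ := D2b_syl p R P' hP'R hP'p (by rw [hP'c]; exact hmax)
  obtain ⟨r, hr⟩ := MulAction.exists_smul_eq R T S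
  have key : ∀ w : R, (w : G) ∈ P' ↔ ((r * w * r⁻¹ : R) : G) ∈ P := by
    intro w
    have h1 : w ∈ (T : Subgroup R) ↔ MulAut.conj r • w ∈ MulAut.conj r • (T : Subgroup R) :=
      Subgroup.smul_mem_pointwise_smul_iff.symm
    rw [← Sylow.coe_subgroup_smul, hr, hS, hT, Subgroup.mem_subgroupOf, Subgroup.mem_subgroupOf] at h1
    exact h1
  -- `r = u q`
  obtain ⟨u, hu, q, hq, huq⟩ : ∃ u ∈ P, ∃ q ∈ Q, u * q = (r : G) := by
    let f : P × Q → R := fun z => ⟨z.1 * z.2, R.mul_mem (hPR z.1.2) (hQR z.2.2)⟩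
    have hf : Function.Injective f := by
      rintro ⟨u, q⟩ ⟨u', q'⟩ h
      have h1 : (u : G) * q = u' * q' := congrArg Subtype.val h
      have h2 : (u' : G)⁻¹ * u = q' * (q : G)⁻¹ := by
        have h3 : (u' : G)⁻¹ * (u * q) * (q : G)⁻¹ = (u' : G)⁻¹ * (u' * q') * (q : G)⁻¹ := by rw [h1]
        calc (u' : G)⁻¹ * u = (u' : G)⁻¹ * (u * q) * (q : G)⁻¹ := by group
          _ = (u' : G)⁻¹ * (u' * q') * (q : G)⁻¹ := h3
          _ = q' * (q : G)⁻¹ := by group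
      have h4 : (u' : G)⁻¹ * u ∈ P ⊓ Q :=
        ⟨P.mul_mem (P.inv_mem u'.2) u.2, by rw [h2]; exact Q.mul_mem q'.2 (Q.inv_mem q.2)⟩
      rw [disjoint_iff.1 (Subgroup.disjoint_of_coprime_natCard (hcop P hPp)), Subgroup.mem_bot] at h4
      have h5 : (u : G) = u' := by
        have := congrArg (fun y => (u' : G) * y) h4
        simpa using this
      have h6 : (q : G) = q' := by
        rw [h5] at h1
        exact mul_left_cancel h1
      exact Prod.ext (Subtype.ext h5) (Subtype.ext h6)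
    have hf2 := hf.bijective_of_nat_card_le (by rw [Nat.card_prod, hcard])
    obtain ⟨⟨u, q⟩, h⟩ := hf2.2 r
    exact ⟨u, u.2, q, q.2, congrArg Subtype.val h⟩
  refine ⟨q, hq, fun v => ?_⟩
  rw [hmemP' v]
  have e1 : q * g * v * (q * g)⁻¹ = q * (g * v * g⁻¹) * q⁻¹ := by group
  rw [e1]
  have hconj : ∀ y : G, u * y * u⁻¹ ∈ P ↔ y ∈ P := by
    intro y
    constructor
    · intro h
      have h1 := P.mul_mem (P.mul_mem (P.inv_mem hu) h) hu
      have h2 : u⁻¹ * (u * y * u⁻¹) * u = y := by group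
      rwa [h2] at h1
    · intro h
      exact P.mul_mem (P.mul_mem hu h) (P.inv_mem hu)
  have e2 : ∀ y : G, (r : G) * y * (r : G)⁻¹ = u * (q * y * q⁻¹) * u⁻¹ := by
    intro y
    rw [← huq]
    group
  constructor
  · intro h
    have h1 := (key ⟨_, hP'R h⟩).1 h
    have h2 : (r : G) * (g * v * g⁻¹) * (r : G)⁻¹ ∈ P := h1
    rw [e2, hconj] at h2
    exact h2
  · intro h
    have hw : g * v * g⁻¹ ∈ R := by
      have h1 := R.mul_mem (R.mul_mem (R.inv_mem (hQR hq)) (hPR h)) (hQR hq)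
      have h2 : q⁻¹ * (q * (g * v * g⁻¹) * q⁻¹) * q = g * v * g⁻¹ := by group
      rwa [h2] at h1
    refine (key ⟨_, hw⟩).2 ?_
    show (r : G) * (g * v * g⁻¹) * (r : G)⁻¹ ∈ P
    rw [e2, hconj]
    exact h

/-- Let a Sylow `p`-subgroup `P` of `R` fix the point `x`.  Then every orbit of `Q` contains the same
number `c > 0` of fixed points of `P`.
PROOF. (i) For every `g : G` there is `q ∈ Q` with `(q g) P (q g)⁻¹ = P`: `g P g⁻¹ ≤ R` has the same
order as `P`; both, as subgroups of `↥R` (`Subgroup.subgroupOf`), are Sylow `p`-subgroups, since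
`|R| = |P| |Q|` and `p ∤ |Q|` (`Sylow.ofCard` or `SRT.D2b_syl`, Pool/Agent/SRT/D2b.lean), so
`r (g P g⁻¹) r⁻¹ = P` for some `r ∈ R` (`MulAction.exists_smul_eq`).  Every `r ∈ R` is `u q` with
`u ∈ P`, `q ∈ Q` (`P ⊓ Q = ⊥`, `|R| = |P| |Q|`, `Q` normal: `P ⊔ Q = R`, `Subgroup.mem_sup`,
`Subgroup.mul_normal`), so `q (g P g⁻¹) q⁻¹ = u⁻¹ P u = P`.
(ii) Let `F = {y : V | ∀ u ∈ P, u • y = y}` and `c y = #{f ∈ F : ∃ q ∈ Q, f = q • y}`.  For `y` in `V`:
`y = g • x` for some `g`, take `q` as in (i): `q • y = (q g) • x ∈ F`.  So `c y > 0`.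
`c (q • y) = c y` for `q ∈ Q`.  For `f, f' ∈ F`: `f' = g • f`, `q` as in (i): `(q g)` normalises `P`, so
it maps `F` to `F` bijectively, and it maps `Q f` to `Q (q g f) = Q f'`; so `c f = c f'`.  So
`c` is constant.
(iii) Double count of the pairs `(f, y)`, `f ∈ F`, `y : V`, `∃ q ∈ Q, f = q • y`: for fixed `y` there are
`c`, for fixed `f` there are `|Q f| = |Q| / |Q ⊓ G_f| = l` (orbit-stabiliser, `hl`, `hQ`).
So `|F| l = c |V|`. -/
theorem Sit.fix_count {G V : Type*} [Group G] [Finite G] [MulAction G V] [Finite V] [Nonempty V]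
    {B : V → V → Prop} {n : ℕ} (S : Sit G V B n) (Q R : Subgroup G) (hQn : Q.Normal)
    (hRn : R.Normal) (hQR : Q ≤ R) (p : ℕ) (hp : p.Prime) (hpQ : ¬ p ∣ Nat.card Q)
    (P : Subgroup G) (hPR : P ≤ R) (hPp : IsPGroup p P)
    (hcard : Nat.card R = Nat.card P * Nat.card Q) (x : V) (hx : ∀ u ∈ P, u • x = x) (l h : ℕ)
    (hl : ∀ y : V, Nat.card ↥(Q ⊓ MulAction.stabilizer G y) = h) (hQ : Nat.card Q = l * h) :
    ∃ c : ℕ, 0 < c ∧ Nat.card {y : V // ∀ u ∈ P, u • y = y} * l = c * Nat.card V := by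
  classical
  have := Fintype.ofFinite V
  have := Fintype.ofFinite Q
  have hcQ : ∀ y y' : V, Nat.card {f : V // (∀ u ∈ P, u • f = f) ∧ ∃ q ∈ Q, f = q • y} =
      Nat.card {f : V // (∀ u ∈ P, u • f = f) ∧ ∃ q ∈ Q, f = q • y'} := by
    intro y y'
    obtain ⟨g, hg⟩ := S.trans y y'
    obtain ⟨q, hq, hqg⟩ := F1_frattini Q R hRn hQR p hp hpQ P hPR hPp hcard g
    set t := q * g with ht
    have hF : ∀ f : V, (∀ u ∈ P, u • f = f) → ∀ u ∈ P, u • t • f = t • f := by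
      intro f hf u hu
      have h1 : t⁻¹ * u * t ∈ P := (hqg _).2 (by
        have e : t * (t⁻¹ * u * t) * t⁻¹ = u := by group
        rw [e]
        exact hu)
      have h2 := hf _ h1
      calc u • t • f = t • (t⁻¹ * u * t) • f := by
            rw [smul_smul, smul_smul]
            congr 1
            group
        _ = t • f := by rw [h2]
    have hF' : ∀ f : V, (∀ u ∈ P, u • f = f) → ∀ u ∈ P, u • t⁻¹ • f = t⁻¹ • f := by
      intro f hf u hu
      have h1 : t * u * t⁻¹ ∈ P := (hqg u).1 hu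
      have h2 := hf _ h1
      calc u • t⁻¹ • f = t⁻¹ • (t * u * t⁻¹) • f := by
            rw [smul_smul, smul_smul]
            congr 1
            group
        _ = t⁻¹ • f := by rw [h2]
    refine Nat.card_congr ⟨fun f => ⟨t • f.1, hF _ f.2.1, ?_⟩, fun f => ⟨t⁻¹ • f.1, hF' _ f.2.1, ?_⟩,
      fun f => ?_, fun f => ?_⟩
    · obtain ⟨q₁, hq₁, hf⟩ := f.2.2
      refine ⟨t * q₁ * t⁻¹ * q, Q.mul_mem (hQn.conj_mem _ hq₁ t) hq, ?_⟩
      rw [hf, ← hg, smul_smul, smul_smul]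
      congr 1
      rw [ht]
      group
    · obtain ⟨q₂, hq₂, hf⟩ := f.2.2
      refine ⟨(t⁻¹ * q₂ * t⁻¹⁻¹) * (g⁻¹ * q⁻¹ * g⁻¹⁻¹), Q.mul_mem (hQn.conj_mem _ hq₂ t⁻¹)
        (hQn.conj_mem _ (Q.inv_mem hq) g⁻¹), ?_⟩
      rw [hf, ← hg, smul_smul, smul_smul]
      congr 1
      rw [ht]
      group
    · exact Subtype.ext (inv_smul_smul t _)
    · exact Subtype.ext (smul_inv_smul t _)
  obtain ⟨c, hc⟩ : ∃ c, c = Nat.card {f : V // (∀ u ∈ P, u • f = f) ∧ ∃ q ∈ Q, f = q • x} := ⟨_, rfl⟩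
  have hcpos : 0 < c := by
    rw [hc]
    have : Nonempty {f : V // (∀ u ∈ P, u • f = f) ∧ ∃ q ∈ Q, f = q • x} :=
      ⟨⟨x, hx, 1, Q.one_mem, (one_smul _ _).symm⟩⟩
    exact Nat.card_pos
  have hh : 0 < h := by
    rw [← hl x]
    exact Nat.card_pos
  -- the orbits
  have horb : ∀ f : V, Nat.card {y : V // ∃ q ∈ Q, f = q • y} = l := by
    intro f
    have h4 := MulAction.card_orbit_mul_card_stabilizer_eq_card_group Q f
    rw [← Nat.card_eq_fintype_card, ← Nat.card_eq_fintype_card, ← Nat.card_eq_fintype_card] at h4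
    have h5 : Nat.card (MulAction.stabilizer Q f) = h := by
      rw [← hl f]
      exact Nat.card_congr ⟨fun q => ⟨q.1.1, ⟨q.1.2, q.2⟩⟩, fun q => ⟨⟨q.1, q.2.1⟩, q.2.2⟩, fun q => rfl,
        fun q => rfl⟩
    rw [h5, hQ] at h4
    have h6 := Nat.eq_of_mul_eq_mul_right hh h4
    rw [← h6]
    refine Nat.card_congr (Equiv.subtypeEquivRight fun y => ?_)
    constructor
    · rintro ⟨q, hq, hf⟩
      refine ⟨⟨q⁻¹, Q.inv_mem hq⟩, ?_⟩
      show q⁻¹ • f = y
      rw [hf, inv_smul_smul]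
    · rintro ⟨q, hq⟩
      have hq' : (q : G) • f = y := hq
      refine ⟨(q : G)⁻¹, Q.inv_mem q.2, ?_⟩
      rw [← hq', inv_smul_smul]
  refine ⟨c, hcpos, ?_⟩
  have e : (Σ f : {y : V // ∀ u ∈ P, u • y = y}, {y : V // ∃ q ∈ Q, f.1 = q • y}) ≃
      (Σ y : V, {f : V // (∀ u ∈ P, u • f = f) ∧ ∃ q ∈ Q, f = q • y}) :=
    { toFun := fun z => ⟨z.2.1, ⟨z.1.1, z.1.2, z.2.2⟩⟩
      invFun := fun z => ⟨⟨z.2.1, z.2.2.1⟩, ⟨z.1, z.2.2.2⟩⟩
      left_inv := fun z => rfl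
      right_inv := fun z => rfl }
  have h1 := Nat.card_congr e
  rw [Nat.card_sigma, Nat.card_sigma, Finset.sum_congr rfl (fun f _ => horb f.1),
    Finset.sum_congr rfl (fun y _ => (hcQ y x).trans hc.symm), Finset.sum_const, Finset.sum_const, Finset.card_univ,
    Finset.card_univ, smul_eq_mul, smul_eq_mul, ← Nat.card_eq_fintype_card, ← Nat.card_eq_fintype_card] at h1
  rw [h1, mul_comm]

end SRV
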