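import Pool.Agent.SRV.Defs

set_option autoImplicit false

namespace SRV

theorem F2_aux (F d P n : ℕ) (hP : P ∣ F) (hd : 2 * F + d = d ^ 2 + 2) (hd1 : 1 ≤ d)
    (hdn : d ≤ n + 1) (hdm : 3 ≤ d → ∃ m : ℕ, d = m ^ 2 + 2)
    (h : (n = 5 ∧ P = 11) ∨ (n = 6 ∧ P = 11) ∨ (n = 90 ∧ P = 2003) ∨ (n = 91 ∧ P = 4187)) :
    False := by
  by_cases h3 : 3 ≤ d
  · obtain ⟨m, rfl⟩ := hdm h3
    have hF : 2 * F = m ^ 4 + 3 * m ^ 2 + 4 := by nlinarith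
    obtain ⟨k, rfl⟩ := hP
    rcases h with ⟨rfl, rfl⟩ | ⟨rfl, rfl⟩ | ⟨rfl, rfl⟩ | ⟨rfl, rfl⟩
    · have hm : m ≤ 2 := by nlinarith
      interval_cases m <;> omega
    · have hm : m ≤ 2 := by nlinarith
      interval_cases m <;> omega
    · have hm : m ≤ 9 := by nlinarith
      interval_cases m <;> omega
    · have hm : m ≤ 9 := by nlinarith
      interval_cases m <;> omega
  · have hd2 : d ≤ 2 := by omega
    obtain ⟨k, rfl⟩ := hP
    interval_cases d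
    · rcases h with ⟨rfl, rfl⟩ | ⟨rfl, rfl⟩ | ⟨rfl, rfl⟩ | ⟨rfl, rfl⟩ <;> omega
    · rcases h with ⟨rfl, rfl⟩ | ⟨rfl, rfl⟩ | ⟨rfl, rfl⟩ | ⟨rfl, rfl⟩ <;> omega

/-- Pure arithmetic.
PROOF. `F * 2 ^ a = c * v`, `c > 0`: every odd divisor of `v` divides `F`.
`d ≤ n + 1` and `2 F = d ^ 2 - d + 2 ≤ n ^ 2 + n + 2`.
Case `n ≥ 5`: `SRC.exists_dat` (Pool/Agent/SRC/N1.lean) gives `s = ± n`, `N1, N2, i, j, P1, P2`;
`v = 2 ^ (i+j-1) * (P1 * P2)` (`SRC.Dat.card_eq`), so `P1 * P2 ∣ F` (`P1 * P2` odd) and, as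
`0 < F` (`2 F = d ^ 2 - d + 2`), `P1 * P2 ≤ F`.
If `P2 ≠ 1`, then `7 ≤ P2` (`SRC.Dat.seven_le`, `Nat.exists_prime_and_dvd`), `4 P1 ≥ N1 ≥ n^2 - n + 2`
(`h1`, `i ≤ 2`, `e1`), so `7 (n^2 - n + 2) ≤ 4 P1 P2 ≤ 4 F ≤ 2 (n^2 + n + 2)`: contradiction.
If `P2 = 1`: `SRT.cases_of_P2_eq_one` (Pool/Agent/SRT/F1d.lean): `n = 5`, `P1 = 11`; `n = 6`, `P1 = 11`;
`n = 90`, `P1 = 2003`; `n = 91`, `P1 = 4187`.  `P1 ∣ F`.  `d = 1`: `F = 1`; `d = 2`: `F = 2`;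
`d ≥ 3`: `d = m^2 + 2 ≤ n + 1`, so `m ≤ 2` (`n = 5, 6`), `m ≤ 9` (`n = 90, 91`), and
`2 F = m^4 + 3 m^2 + 4`: `F` is one of `2, 4, 16, 56, 154, 352, 704, 1276, 2146, 3404`
(`m = 0, ..., 9`); none is divisible by `P1` in the range allowed (`interval_cases m`).
Case `n = 4`: excluded by `h4`.  Case `n = 3`: `v = 56`, so `7 ∣ F`, `d ≤ 4`, so `d ∈ {1, 2, 3}`
(`d = 4` is not of the form `m^2+2`), `F ∈ {1, 2, 4}`: contradiction. -/
theorem false_of_fix_num (n : ℕ) (hn : 3 ≤ n) (h4 : ¬ 4 ∣ n) (v F a c d : ℕ)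
    (hv : 2 * v = n ^ 4 + 3 * n ^ 2 + 4) (hc : 0 < c) (hF : F * 2 ^ a = c * v)
    (hd : 2 * F + d = d ^ 2 + 2) (hd1 : 1 ≤ d) (hdn : d ≤ n + 1)
    (hdm : 3 ≤ d → ∃ m : ℕ, d = m ^ 2 + 2) : False := by
  have hdd : d ^ 2 ≤ d + n * (n + 1) := by
    obtain ⟨e, rfl⟩ : ∃ e, d = e + 1 := ⟨d - 1, by omega⟩
    have h1 : e ≤ n := by omega
    have h2 : e * (e + 1) ≤ n * (n + 1) := Nat.mul_le_mul h1 (by omega)
    nlinarith
  have hF2 : 2 * F ≤ n * (n + 1) + 2 := by omega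
  have hdsq : d ≤ d ^ 2 := by nlinarith
  have hFpos : 0 < F := by omega
  rcases Nat.lt_or_ge n 5 with hn5 | hn5
  · interval_cases n
    · have hv' : v = 56 := by omega
      subst hv'
      have h7 : 7 ∣ F * 2 ^ a := by rw [hF]; exact Dvd.dvd.mul_left (by norm_num) _
      have hcop : Nat.Coprime 7 (2 ^ a) := Nat.Coprime.pow_right _ (by norm_num)
      have h7' : 7 ∣ F := hcop.dvd_of_dvd_mul_right h7
      obtain ⟨k, rfl⟩ := h7'
      by_cases h3 : 3 ≤ d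
      · obtain ⟨m, rfl⟩ := hdm h3
        have hm : m ≤ 1 := by nlinarith
        interval_cases m <;> omega
      · have hd2 : d ≤ 2 := by omega
        interval_cases d <;> omega
    · exact h4 (by norm_num)
  · obtain ⟨s, N1, N2, i, j, P1, P2, hs, D⟩ := SRC.exists_dat v n hn5 h4 hv
    have hodd : Odd (P1 * P2) := D.odd1.mul D.odd2
    have hdvd : P1 * P2 ∣ F * 2 ^ a := by
      rw [hF, D.card_eq]
      exact Dvd.dvd.mul_left (Dvd.intro_left _ rfl) _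
    have hcop : Nat.Coprime (P1 * P2) (2 ^ a) :=
      Nat.Coprime.pow_right _ (Nat.coprime_two_right.2 hodd)
    have hdvd' : P1 * P2 ∣ F := hcop.dvd_of_dvd_mul_right hdvd
    have hle : P1 * P2 ≤ F := Nat.le_of_dvd hFpos hdvd'
    by_cases hP2 : P2 = 1
    · have hc := SRT.cases_of_P2_eq_one D hP2
      refine F2_aux F d P1 n ((Dvd.intro _ rfl).trans hdvd') hd hd1 hdn hdm ?_
      rcases hc with ⟨h1, -, -, h2⟩ | ⟨h1, -, -, h2⟩ | ⟨h1, -, -, h2⟩ | ⟨h1, -, -, h2⟩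
      · left; exact ⟨by rcases hs with h | h <;> omega, h2⟩
      · right; left; exact ⟨by rcases hs with h | h <;> omega, h2⟩
      · right; right; left; exact ⟨by rcases hs with h | h <;> omega, h2⟩
      · right; right; right; exact ⟨by rcases hs with h | h <;> omega, h2⟩
    · obtain ⟨p, hp, hpP⟩ := Nat.exists_prime_and_dvd hP2
      have hp2 : p ≠ 2 := SRC.n2_not_two_dvd D.odd2 hpP
      have h7 : 7 ≤ p := D.seven_le hp hp2 (Or.inr hpP)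
      have hP2pos : 0 < P2 := by
        rcases D.odd2 with ⟨k, hk⟩
        omega
      have h7' : 7 ≤ P2 := h7.trans (Nat.le_of_dvd hP2pos hpP)
      have hN1 : N1 ≤ 4 * P1 := by
        rw [D.h1]
        rcases D.hi with h | h <;> rw [h] <;> omega
      have hN1' : (n : ℤ) ^ 2 - n + 2 ≤ N1 := by
        rw [D.e1]
        rcases hs with h | h <;> rw [h] <;> nlinarith
      have hA : 7 * P1 ≤ P1 * P2 := by nlinarith
      have hB : 2 * (7 * P1) ≤ n * (n + 1) + 2 := by omega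
      have hB' : 2 * (7 * (P1 : ℤ)) ≤ n * (n + 1) + 2 := by exact_mod_cast hB
      have hN1'' : (N1 : ℤ) ≤ 4 * P1 := by exact_mod_cast hN1
      have hn5' : (5 : ℤ) ≤ n := by exact_mod_cast hn5
      nlinarith

end SRV
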