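import Pool.Agent.SRV.F1
import Pool.Agent.SRV.F2
import Pool.Agent.SRV.A1
import Pool.Agent.SRT.A1b
import Pool.Agent.SRT.A1c

set_option autoImplicit false

namespace SRV

open SRT

/-- A Sylow `p`-subgroup `P ≠ ⊥` of `R` fixes no point.
PROOF. `h = |Q ⊓ G_x|`, `Sit.card_stab_eq`, `Sit.exists_a` (B4.lean): `|Q| = 2^a h`, so `Sit.fix_count`
(`l = 2^a`) gives `c`.  `F = {y // ∀ u ∈ P, u • y = y}` is closed (`closed_fix`; `|P|` is a power of the
odd prime `p`), nonempty, and proper: `P ≠ ⊥` moves a point (`S.faithful`).  `exists_geo_closed`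
gives `d'`, `closed_deg_le`: `d' ≤ n + 1`; `Geo.two_mul_card`, `Geo.one_le`, `Geo.exists_sq`
(Pool/Agent/SRT/A1a.lean, A1b.lean) for `F`; `S.geo.two_mul_card'`, `S.geo.four_not_dvd`
(A1c.lean).  `false_of_fix_num`. -/
theorem Sit.not_all_fixed {G V : Type*} [Group G] [Finite G] [MulAction G V] [Finite V]
    [Nonempty V] {B : V → V → Prop} {n : ℕ} (S : Sit G V B n) (hn : 3 ≤ n) (Q R : Subgroup G)
    (hQn : Q.Normal) (hQ2 : IsPGroup 2 Q) (hRn : R.Normal) (hQR : Q ≤ R) (p : ℕ) (hp : p.Prime)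
    (hp2 : p ≠ 2) (P : Subgroup G) (hPR : P ≤ R) (hPp : IsPGroup p P) (hP1 : P ≠ ⊥)
    (hcard : Nat.card R = Nat.card P * Nat.card Q) (x : V) (hx : ∀ u ∈ P, u • x = x) :
    False := by
  classical
  have hpc : ∃ b, Nat.card Q = 2 ^ b := (IsPGroup.iff_card (p := 2)).1 hQ2
  obtain ⟨b, hb⟩ := hpc
  have hpQ : ¬ p ∣ Nat.card Q := by
    rw [hb]
    intro h
    exact hp2 ((Nat.prime_dvd_prime_iff_eq hp Nat.prime_two).1 (hp.dvd_of_dvd_pow h))
  obtain ⟨a, η, hQc, -, -⟩ := S.exists_a Q hQn hQ2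
    (Nat.card ↥(Q ⊓ MulAction.stabilizer G x)) (fun y => S.card_stab_eq Q hQn y x)
  obtain ⟨c, hc, hcF⟩ := S.fix_count Q R hQn hRn hQR p hp hpQ P hPR hPp hcard x hx (2 ^ a)
    (Nat.card ↥(Q ⊓ MulAction.stabilizer G x)) (fun y => S.card_stab_eq Q hQn y x) hQc
  have hpF : Fact p.Prime := ⟨hp⟩
  have hPodd : Odd (Nat.card P) := by
    obtain ⟨e, he⟩ := (IsPGroup.iff_card (p := p)).1 hPp
    rw [he]
    exact (hp.odd_of_ne_two hp2).pow
  have hcl := closed_fix S.geo S.aut P hPodd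
  have hne : ∃ y : V, ∀ u ∈ P, u • y = y := ⟨x, hx⟩
  have hprop : ∃ y : V, ¬ ∀ u ∈ P, u • y = y := by
    by_contra hcon
    push Not at hcon
    apply hP1
    rw [Subgroup.eq_bot_iff_forall]
    intro u hu
    exact S.faithful u fun y => hcon y u hu
  obtain ⟨d', hd'⟩ := exists_geo_closed S.geo hcl hne
  have hle := closed_deg_le S.geo hne hprop hd'
  have hW : Nonempty {y : V // ∀ u ∈ P, u • y = y} := ⟨⟨x, hx⟩⟩
  exact false_of_fix_num n hn (S.geo.four_not_dvd (by omega)) (Nat.card V)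
    (Nat.card {y : V // ∀ u ∈ P, u • y = y}) a c d' S.geo.two_mul_card' hc hcF
    hd'.two_mul_card hd'.one_le hle (fun h3 => hd'.exists_sq h3)

end SRV
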