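import Pool.Agent.SRV.F3
import Pool.Agent.SRV.I2

set_option autoImplicit false

namespace SRV

open SRT

universe u

/-- The elements of order `p` of `R` have no fixed points.
PROOF. `|R| = p^k |Q|`, `k ≥ 1` (`SRC.relIndex_eq_pow`, Pool/Agent/SRC/A5.lean), `p ∤ |Q|`
(`SRC.not_dvd_card_two_group`).
Suppose `z ∈ R`, `z^p = 1`, `z ≠ 1`, `z • x = x` (so `orderOf z = p`).  `exists_max` (I2.lean) with
`K = R`, `r = p`, `u = z` gives `Y ≠ ⊥` and `hmax`.  Extend `Y` to a Sylow `p`-subgroup `P` of `R`: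
`Y ≤ P ≤ R`, `|P| = p^k`, `IsPGroup p P` (`IsPGroup.exists_le_sylow` in `↥R`, and map to `G`; the
order is the full `p`-part of `|R|`).  Then `|R| = |P| |Q|`.  `P ⊓ Q = ⊥`, so for `g, g' ∈ P`:
`g^p ∈ Q`, so `g^p = 1`; `g g' g⁻¹ g'⁻¹ ∈ Q` so `g g' = g' g` (`Elem.pow_mem`, `Elem.comm_mem`).
If `P = Y`: `Sit.not_all_fixed` (F3.lean; `P ≠ ⊥`).
Otherwise take `w ∈ P`, `w ∉ Y`: `w^p = 1`, `w` commutes with `Y`, and `w` fixes no point `y` of
`Fix Y`: otherwise the subgroup `Y'' = P ⊓ stabilizer G y` is an `r`-subgroup of `R` fixing `y` that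
contains `Y` and `w ∉ Y`, so `|Y''| > |Y|`, contradiction to `max_transfer` (I1.lean).
`fixed_step` (I2.lean) with `K = R`, `R = R`, `r = p`, `z = w`. -/
theorem Sit.p_free {G : Type*} {V : Type u} [Group G] [Finite G] [MulAction G V] [Finite V]
    [Nonempty V] {B : V → V → Prop} {n : ℕ} (S : Sit G V B n) (hn : 3 ≤ n)
    (IH : ∀ N < Nat.card V, TwoRad.{u} N) (Q R : Subgroup G) (hQn : Q.Normal)
    (hQ2 : IsPGroup 2 Q) (p : ℕ) (hp : p.Prime) (hp2 : p ≠ 2) (hR : SRC.Elem Q R p)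
    (hRs : Group.IsSolvable R) (z : G) (hz : z ∈ R) (hzp : z ^ p = 1) (hz1 : z ≠ 1) (x : V) :
    z • x ≠ x := by
  intro hzx
  have hfact : Fact p.Prime := ⟨hp⟩
  have hord : orderOf z = p := orderOf_eq_prime hzp hz1
  obtain ⟨Y, hYR, hYx, hYp, hY1, hmax⟩ := exists_max R p hp x z hz hzx hord
  obtain ⟨k, hk1, hk⟩ := SRC.relIndex_eq_pow Q R p hp hQn hR
  obtain ⟨a, ha⟩ := IsPGroup.iff_card.1 hQ2
  have hpQ : ¬ p ∣ Nat.card Q := by
    rw [ha]
    intro h
    have h1 := hp.dvd_of_dvd_pow h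
    exact hp2 ((Nat.prime_dvd_prime_iff_eq hp Nat.prime_two).1 h1)
  -- a Sylow subgroup of `R` containing `Y`
  have hYs : IsPGroup p (Y.subgroupOf R) :=
    hYp.comap_of_injective R.subtype (Subgroup.subtype_injective R)
  obtain ⟨P', hP'⟩ := hYs.exists_le_sylow
  have hPcard' : Nat.card P' = p ^ k := by
    rw [P'.card_eq_multiplicity]
    congr 1
    rw [hk, Nat.factorization_mul (pow_ne_zero _ hp.ne_zero) (by rw [ha]; positivity),
      Nat.Prime.factorization_pow hp]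
    simp [Nat.factorization_eq_zero_of_not_dvd hpQ]
  obtain ⟨P, hPdef⟩ : ∃ P : Subgroup G, P = (P' : Subgroup R).map R.subtype := ⟨_, rfl⟩
  have hPR : P ≤ R := by
    rw [hPdef]
    rintro _ ⟨g, -, rfl⟩
    exact g.2
  have hPp : IsPGroup p P := by
    rw [hPdef]
    exact P'.isPGroup'.map R.subtype
  have hPcard : Nat.card P = p ^ k := by
    rw [hPdef, Subgroup.card_map_of_injective (Subgroup.subtype_injective R)]
    exact hPcard'
  have hYP : Y ≤ P := by
    intro u hu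
    rw [hPdef]
    exact ⟨⟨u, hYR hu⟩, hP' (Subgroup.mem_subgroupOf.2 hu), rfl⟩
  have hcard : Nat.card R = Nat.card P * Nat.card Q := by rw [hPcard, hk]
  have hPQ : ∀ g : G, g ∈ P → g ∈ Q → g = 1 := by
    intro g hgP hgQ
    obtain ⟨i, hi⟩ := hPp ⟨g, hgP⟩
    obtain ⟨j, hj⟩ := hQ2 ⟨g, hgQ⟩
    have hi' : g ^ (p ^ i) = 1 := by
      have := congrArg Subtype.val hi
      simpa using this
    have hj' : g ^ (2 ^ j) = 1 := by
      have := congrArg Subtype.val hj
      simpa using this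
    have h1 : orderOf g ∣ p ^ i := orderOf_dvd_of_pow_eq_one hi'
    have h2 : orderOf g ∣ 2 ^ j := orderOf_dvd_of_pow_eq_one hj'
    have h3 : Nat.Coprime (p ^ i) (2 ^ j) :=
      Nat.Coprime.pow _ _ ((Nat.coprime_primes hp Nat.prime_two).2 hp2)
    exact orderOf_eq_one_iff.1 (Nat.eq_one_of_dvd_coprimes h3 h1 h2)
  have hPpow : ∀ g ∈ P, g ^ p = 1 := fun g hg =>
    hPQ _ (P.pow_mem hg p) (hR.pow_mem g (hPR hg))
  have hPcomm : ∀ g ∈ P, ∀ g' ∈ P, g * g' = g' * g := by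
    intro g hg g' hg'
    have h1 : g * g' * g⁻¹ * g'⁻¹ = 1 :=
      hPQ _ (P.mul_mem (P.mul_mem (P.mul_mem hg hg') (P.inv_mem hg)) (P.inv_mem hg'))
        (hR.comm_mem g (hPR hg) g' (hPR hg'))
    have h2 : g * g' * g⁻¹ = g' := by
      rw [mul_inv_eq_one] at h1
      exact h1
    exact mul_inv_eq_iff_eq_mul.1 h2
  have hP1 : P ≠ ⊥ := by
    intro h
    apply hY1
    rw [eq_bot_iff, ← h]
    exact hYP
  by_cases hPY : P ≤ Y
  · exact S.not_all_fixed hn Q R hQn hQ2 hR.normal hR.le p hp hp2 P hPR hPp hP1 hcard x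
      (fun u hu => hYx u (hPY hu))
  · obtain ⟨w, hwP, hwY⟩ := SetLike.not_le_iff_exists.1 hPY
    have hconj : ∀ u ∈ Y, w * u * w⁻¹ = u := by
      intro u hu
      rw [mul_inv_eq_iff_eq_mul]
      exact hPcomm w hwP u (hYP hu)
    refine fixed_step S IH R R hR.normal hR.normal hRs p hp hp2 x Y hYR hYx hYp hY1 hmax p hp hp2 w
      (hPR hwP) ?_ (hPpow w hwP) ?_
    · intro u
      constructor
      · intro hu
        rw [hconj u hu]
        exact hu
      · intro hu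
        have h1 := hconj _ hu
        have h2 : w * u * w⁻¹ = u := by
          have h3 : w⁻¹ * (w * (w * u * w⁻¹) * w⁻¹) * w = w⁻¹ * (w * u * w⁻¹) * w := by rw [h1]
          have h4 : w⁻¹ * (w * (w * u * w⁻¹) * w⁻¹) * w = w * u * w⁻¹ := by group
          have h5 : w⁻¹ * (w * u * w⁻¹) * w = u := by group
          rw [h4, h5] at h3
          exact h3
        rw [h2] at hu
        exact hu
    · intro y hy hwy
      have h1 : Nat.card (P ⊓ MulAction.stabilizer G y : Subgroup G) ≤ Nat.card Y := by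
        refine max_transfer S.trans R hR.normal p x y (Nat.card Y) hmax _ ?_ ?_ ?_
        · exact inf_le_left.trans hPR
        · intro u hu
          exact hu.2
        · exact hPp.to_le inf_le_left
      have h2 : Y ≤ P ⊓ MulAction.stabilizer G y := fun u hu => ⟨hYP hu, hy u hu⟩
      have h3 : Y = P ⊓ MulAction.stabilizer G y := Subgroup.eq_of_le_of_card_ge h2 h1
      apply hwY
      rw [h3]
      exact ⟨hwP, hwy⟩

end SRV
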