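import Pool.Agent.SRV.M4
import Pool.Agent.SRT.A3

set_option autoImplicit false

namespace SRV

open SRT

variable {G V : Type*} [Group G] [Finite G] [MulAction G V] [Finite V] [Nonempty V]
  {B : V → V → Prop} {n : ℕ}

/-- the number of vertices is neither a power of two nor a prime.
PROOF. `2 |V| = (n^2+n+2)(n^2-n+2)`, `n ≥ 3`.  If `|V| = 2^k`, both factors are powers of `2`,
`n^2-n+2 = 2^a`, `n^2+n+2 = 2^b`, `a < b`, so `2^a ∣ 2 n` (difference), `n^2-n+2 ≤ 2 n`, impossible for
`n ≥ 3`.  Both factors are even and `≥ 8`, so `|V|` is even and `> 2`: not a prime. -/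
theorem card_facts (h : Geo B (n ^ 2 + 2)) (hn : 3 ≤ n) :
    (∀ k : ℕ, Nat.card V ≠ 2 ^ k) ∧ ¬ (Nat.card V).Prime ∧ 56 ≤ Nat.card V := by
  have hv := h.two_mul_card'
  obtain ⟨m, rfl⟩ : ∃ m, n = m + 3 := ⟨n - 3, by omega⟩
  set v := Nat.card V with hvdef
  have hfac : 2 * v = (m ^ 2 + 5 * m + 8) * (m ^ 2 + 7 * m + 14) := by
    rw [hv]; ring
  refine ⟨?_, ?_, ?_⟩
  · intro k hk
    have h1 : (m ^ 2 + 5 * m + 8) * (m ^ 2 + 7 * m + 14) = 2 ^ (k + 1) := by
      rw [← hfac, hk, pow_succ]; ring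
    obtain ⟨a, -, ha⟩ := (Nat.dvd_prime_pow Nat.prime_two).1 (Dvd.intro _ h1)
    obtain ⟨b, -, hb⟩ := (Nat.dvd_prime_pow Nat.prime_two).1 (Dvd.intro_left _ h1)
    have hab : a ≤ b := by
      by_contra hcon
      push Not at hcon
      have h2 : (2 : ℕ) ^ b ≤ 2 ^ a := Nat.pow_le_pow_right (by norm_num) hcon.le
      rw [← ha, ← hb] at h2
      nlinarith
    have h3 : (2 : ℕ) ^ a ∣ 2 ^ b := pow_dvd_pow 2 hab
    rw [← ha, ← hb] at h3
    have h4 : m ^ 2 + 5 * m + 8 ∣ 2 * m + 6 := by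
      have h5 := Nat.dvd_sub h3 (dvd_refl (m ^ 2 + 5 * m + 8))
      have h6 : m ^ 2 + 7 * m + 14 - (m ^ 2 + 5 * m + 8) = 2 * m + 6 := by omega
      rwa [h6] at h5
    have h5 := Nat.le_of_dvd (by omega) h4
    nlinarith
  · intro hp
    have h2 : 2 ∣ v := by
      have e1 : 2 ∣ m ^ 2 + 5 * m + 8 := by
        rcases Nat.even_or_odd' m with ⟨c, rfl | rfl⟩
        · exact ⟨2 * c ^ 2 + 5 * c + 4, by ring⟩
        · exact ⟨2 * c ^ 2 + 7 * c + 7, by ring⟩
      have e2 : 2 ∣ m ^ 2 + 7 * m + 14 := by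
        rcases Nat.even_or_odd' m with ⟨c, rfl | rfl⟩
        · exact ⟨2 * c ^ 2 + 7 * c + 7, by ring⟩
        · exact ⟨2 * c ^ 2 + 9 * c + 11, by ring⟩
      obtain ⟨a, ha⟩ := e1
      obtain ⟨b, hb⟩ := e2
      rw [ha, hb] at hfac
      refine ⟨a * b, ?_⟩
      nlinarith
    have h3 : v = 2 := ((Nat.prime_dvd_prime_iff_eq Nat.prime_two hp).1 h2).symm
    nlinarith
  · nlinarith

omit [Finite G] [Finite V] in
private theorem card_dvd_of_trans (N : Subgroup G) (htr : ∀ x y : V, ∃ g ∈ N, g • x = y) :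
    Nat.card V ∣ Nat.card N := by
  obtain ⟨x⟩ := (inferInstance : Nonempty V)
  have h1 := (MulAction.stabilizer N x).card_mul_index
  have h2 : (MulAction.orbit N x) = Set.univ := by
    ext y
    obtain ⟨g, hgN, hg⟩ := htr x y
    simp only [Set.mem_univ, iff_true]
    exact ⟨⟨g, hgN⟩, hg⟩
  rw [MulAction.index_stabilizer, h2, Set.ncard_univ] at h1
  exact Dvd.intro_left _ h1

/-- A transitive minimal normal subgroup is simple and not commutative.
PROOF. `|V| ∣ |N|` (transitive: orbit-stabiliser).  `N` is not a `2`-group (`card_facts`).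
If `N` is not simple: `exists_commuting` (M4.lean) and `false_of_comm` (M3.lean; `htr` there from
transitivity of `N`).  So `N` is simple.  If `N` were commutative, it would have prime order
(`IsSimpleGroup.prime_card` for a commutative simple group, needs a `CommGroup` structure), and
`|V| ∣ |N|`, `|V| > 1`, so `|V| = |N|` prime, contradiction to `card_facts`. -/
theorem Sit.simple_of_min (S : Sit G V B n) (hn : 3 ≤ n) (N : Subgroup G) (hN : N.Normal)
    (hmin : ∀ M : Subgroup G, M.Normal → M ≤ N → M = ⊥ ∨ M = N)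
    (htr : ∀ x y : V, ∃ g ∈ N, g • x = y) :
    IsSimpleGroup N ∧ ∃ a ∈ N, ∃ b ∈ N, a * b ≠ b * a := by
  classical
  obtain ⟨hc1, hc2, hc3⟩ := card_facts S.geo hn
  have hdvd := card_dvd_of_trans N htr
  have hN1 : N ≠ ⊥ := by
    rintro rfl
    rw [Subgroup.card_bot] at hdvd
    have := Nat.le_of_dvd one_pos hdvd
    omega
  have h2 : ¬ IsPGroup 2 N := by
    intro h2
    have : Fact (Nat.Prime 2) := ⟨Nat.prime_two⟩
    obtain ⟨b, hb⟩ := (IsPGroup.iff_card (p := 2)).1 h2
    rw [hb] at hdvd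
    obtain ⟨k, -, hk⟩ := (Nat.dvd_prime_pow Nat.prime_two).1 hdvd
    exact hc1 k hk
  have hs : IsSimpleGroup N := by
    by_contra hns
    obtain ⟨T, K, g, p, z, hcomm, hprod, hg, hp, hp2, hz, hzo⟩ :=
      exists_commuting N hN hN1 hmin hns h2
    refine false_of_comm S.geo hn S.aut S.faithful T K hcomm ?_ g hg p hp hp2 z hz hzo
    intro x y
    obtain ⟨u, hu, hux⟩ := htr x y
    obtain ⟨t, ht, k, hk, rfl⟩ := hprod u hu
    exact ⟨t, ht, k, hk, hux⟩
  refine ⟨hs, ?_⟩
  by_contra hcon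
  push Not at hcon
  let _ : CommGroup N :=
    { (inferInstance : Group N) with
      mul_comm := fun a b => Subtype.ext (hcon a a.2 b b.2) }
  have hpr : (Nat.card N).Prime := by
    have hs' : @IsSimpleGroup N (CommGroup.toGroup) := hs
    exact IsSimpleGroup.prime_card
  rcases (Nat.dvd_prime hpr).1 hdvd with h3 | h3
  · omega
  · exact hc2 (h3 ▸ hpr)

/-- The centraliser of a transitive subgroup has at most two elements.
PROOF. Let `c ∈ C = centralizer N`, `c ≠ 1`.  `X = {x | B x (c • x)}` is invariant under `N`, so it is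
empty or everything (`N` transitive); `NN B c = |X| ≡ 2 (mod n)` (`SRT.NN_modEq`, A3.lean), `n ≥ 3`, so it
is not empty: `B x (c • x)` for all `x`.  Also `c • x ≠ x` for all `x` (`{x | c • x = x}` is
`N`-invariant, so if nonempty everything and `c = 1` by `S.faithful`).
If `|C| ≥ 3`, there are `c ≠ c'` in `C`, both `≠ 1`.  `x, c x, c' x` are different (`c⁻¹ c' ≠ 1`),
`B x (c x)`, `B x (c' x)`, and `B (c x) (c' x)` (`c' c⁻¹ ∈ C`, `≠ 1`, applied to the point `c x`).  So
`{y | B x y ∧ B y (c x)}` contains the three elements `x`, `c x`, `c' x`, contradiction to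
`S.geo.two`. -/
theorem Sit.card_centralizer_le (S : Sit G V B n) (hn : 3 ≤ n) (N : Subgroup G)
    (htr : ∀ x y : V, ∃ g ∈ N, g • x = y) :
    Nat.card (Subgroup.centralizer (N : Set G)) ≤ 2 := by
  classical
  set C := Subgroup.centralizer (N : Set G) with hC
  have hB : ∀ c ∈ C, ∀ x : V, B x (c • x) := by
    intro c hc x
    have h1 := NN_modEq S.geo S.aut (by omega) c
    have h2 : NN B c ≠ 0 := by
      intro h0
      rw [h0] at h1
      have h3 := (Int.modEq_iff_dvd.1 h1)
      have h4 := Int.le_of_dvd (by norm_num) h3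
      push_cast at h4
      omega
    unfold NN at h2
    obtain ⟨⟨y, hy⟩⟩ := (Nat.card_ne_zero.1 h2).1
    obtain ⟨u, hu, rfl⟩ := htr y x
    have h3 := S.aut u _ _ hy
    have h4 : u * c = c * u := (Subgroup.mem_centralizer_iff.1 hc) u hu
    rwa [smul_smul, h4, mul_smul] at h3
  have hne : ∀ c ∈ C, c ≠ 1 → ∀ x : V, c • x ≠ x := by
    intro c hc hc1 x hx
    apply hc1
    apply S.faithful
    intro y
    obtain ⟨u, hu, rfl⟩ := htr x y
    have h4 : u * c = c * u := (Subgroup.mem_centralizer_iff.1 hc) u hu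
    rw [smul_smul, ← h4, mul_smul, hx]
  by_contra hcon
  push Not at hcon
  have := Fintype.ofFinite C
  rw [Nat.card_eq_fintype_card, Fintype.two_lt_card_iff] at hcon
  obtain ⟨a, b, c, hab, hac, hbc⟩ := hcon
  obtain ⟨x⟩ := (inferInstance : Nonempty V)
  -- the points `a x`, `b x`, `c x`
  have key : ∀ s t : C, s ≠ t → (s : G) • x ≠ (t : G) • x ∧ B ((s : G) • x) ((t : G) • x) := by
    intro s t hst
    have h1 : (t : G) * (s : G)⁻¹ ∈ C := C.mul_mem t.2 (C.inv_mem s.2)
    have h2 : (t : G) * (s : G)⁻¹ ≠ 1 := by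
      intro h
      apply hst
      apply Subtype.ext
      exact (mul_inv_eq_one.1 h).symm
    have h3 := hne _ h1 h2 ((s : G) • x)
    have h4 := hB _ h1 ((s : G) • x)
    rw [smul_smul, inv_mul_cancel_right] at h3 h4
    exact ⟨fun h => h3 h.symm, h4⟩
  have h2 := S.geo.two ((a : G) • x) ((b : G) • x) (key a b hab).1
  let f : Fin 3 → {y : V // B ((a : G) • x) y ∧ B y ((b : G) • x)} :=
    ![⟨(a : G) • x, S.geo.refl _, (key a b hab).2⟩, ⟨(b : G) • x, (key a b hab).2, S.geo.refl _⟩,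
      ⟨(c : G) • x, (key a c hac).2, (key c b hbc.symm).2⟩]
  have hf : Function.Injective f := by
    intro i j hij
    have h3 := congrArg Subtype.val hij
    fin_cases i <;> fin_cases j <;> simp [f] at h3 ⊢
    · exact (key a b hab).1 h3
    · exact (key a c hac).1 h3
    · exact (key a b hab).1 h3.symm
    · exact (key b c hbc).1 h3
    · exact (key a c hac).1 h3.symm
    · exact (key b c hbc).1 h3.symm
  have h3 := Nat.card_le_card_of_injective f hf
  rw [h2, Nat.card_eq_fintype_card, Fintype.card_fin] at h3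
  omega

end SRV
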