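import Pool.Agent.SRV.O1
import Pool.Agent.SRV.B4
import Pool.Agent.SRT.A3

set_option autoImplicit false

namespace SRV

open SRT

theorem o2_fiber {H V : Type*} [Group H] [MulAction H V] (y z : V)
    (hz : z ∈ MulAction.orbit H y) :
    Nat.card {g : H // g • y = z} = Nat.card (MulAction.stabilizer H y) := by
  obtain ⟨u, hu⟩ := hz
  dsimp only at hu
  apply Nat.card_congr
  refine ⟨fun g => ⟨u⁻¹ * g.1, ?_⟩, fun g => ⟨u * g.1, ?_⟩, fun g => ?_, fun g => ?_⟩
  · show (u⁻¹ * g.1) • y = y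
    rw [mul_smul, g.2, ← hu]
    exact inv_smul_smul u y
  · show (u * g.1) • y = z
    have h2 : (g.1) • y = y := g.2
    rw [mul_smul, h2]
    exact hu
  · apply Subtype.ext
    simp
  · apply Subtype.ext
    simp

theorem o2_sum {H V : Type*} [Group H] [Fintype H] [MulAction H V] [Finite V]
    (B : V → V → Prop) (h δ : ℕ)
    (hst : ∀ y : V, Nat.card (MulAction.stabilizer H y) = h)
    (hδ : ∀ y : V, Nat.card {z : V // B y z ∧ z ∈ MulAction.orbit H y} = δ) :
    ∑ g : H, NN B g = Nat.card V * (δ * h) := by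
  classical
  let _ := Fintype.ofFinite V
  have e : (Σ g : H, {y : V // B y (g • y)}) ≃
      (Σ y : V, Σ z : {z : V // B y z ∧ z ∈ MulAction.orbit H y}, {g : H // g • y = z}) :=
    { toFun := fun p => ⟨p.2.1, ⟨p.1 • p.2.1, p.2.2, ⟨p.1, rfl⟩⟩, ⟨p.1, rfl⟩⟩
      invFun := fun p => ⟨p.2.2.1, ⟨p.1, by rw [p.2.2.2]; exact p.2.1.2.1⟩⟩
      left_inv := fun p => rfl
      right_inv := by
        rintro ⟨y, ⟨z, hz⟩, ⟨g, hg⟩⟩
        dsimp only at hg
        subst hg
        rfl }
  have h1 := Nat.card_congr e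
  rw [Nat.card_sigma, Nat.card_sigma] at h1
  calc ∑ g : H, NN B g = ∑ g : H, Nat.card {y : V // B y (g • y)} := rfl
    _ = _ := h1
    _ = ∑ y : V, δ * h := by
      refine Finset.sum_congr rfl fun y _ => ?_
      rw [Nat.card_sigma]
      have h5 : ∀ z ∈ (Finset.univ : Finset {z : V // B y z ∧ z ∈ MulAction.orbit H y}),
          Nat.card {g : H // g • y = (z : V)} = h :=
        fun z _ => (o2_fiber y (z : V) z.2.2).trans (hst y)
      rw [Finset.sum_congr rfl h5]
      rw [Finset.sum_const, smul_eq_mul, Finset.card_univ, ← Nat.card_eq_fintype_card, hδ y]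
    _ = _ := by
      rw [Finset.sum_const, smul_eq_mul, Finset.card_univ, ← Nat.card_eq_fintype_card]

/-- a set of pairwise related points has at most two elements -/
theorem o2_clique {V : Type*} [Finite V] {B : V → V → Prop} {d : ℕ} (h : Geo B d) (X : Set V)
    (hX : ∀ x ∈ X, ∀ y ∈ X, B x y) : Nat.card X ≤ 2 := by
  classical
  by_contra hcon
  push Not at hcon
  have h3 : 2 < X.ncard := hcon
  obtain ⟨a, b, c, ha, hb, hc, hab, hac, hbc⟩ := (Set.two_lt_ncard_iff (Set.toFinite X)).1 h3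
  have h2 := h.two a b hab
  have h4 : ({a, b, c} : Set V) ⊆ {u : V | B a u ∧ B u b} := by
    intro u hu
    rcases hu with rfl | rfl | rfl
    · exact ⟨h.refl _, hX _ ha _ hb⟩
    · exact ⟨hX _ ha _ hb, h.refl _⟩
    · exact ⟨hX _ ha _ hc, hX _ hc _ hb⟩
  have h5 : ({a, b, c} : Set V).ncard ≤ ({u : V | B a u ∧ B u b} : Set V).ncard :=
    Set.ncard_le_ncard h4 (Set.toFinite _)
  have h6 : ({a, b, c} : Set V).ncard = 3 := Set.ncard_eq_three.2 ⟨a, b, c, hab, hac, hbc, rfl⟩
  have h7 : ({u : V | B a u ∧ B u b} : Set V).ncard = 2 := h2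
  omega

/-- Orbits of normal subgroups of a vertex-transitive group are short or long.
PROOF. Let `h = |N ⊓ G_x|` (the same for all `x`: `Sit.card_stab_eq`), `l = |N x|`, so `|N| = l h` for
every `x` (orbit-stabiliser), and `δ x = #{y : B x y ∧ y ∈ N x}`; `δ` does not depend on `x`
(`x' = g x`, `y ↦ g y`, `N` normal).  Double count of `{(g, y) : g ∈ N, B y (g y)}`:
`∑_{g ∈ N} NN B g = |V| h δ` (for given `y`, each `z` with `B y z`, `z ∈ N y`, is `g y` for exactly
`h` elements `g ∈ N`).  `orbit_trace` for the group `↥N` (action of the subgroup):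
`|V| h δ = l h (2 + n z)`, so `|V| δ = l (2 + n z)`.
`2 |V| = n^4 + 3 n^2 + 4` (`S.geo.two_mul_card'`), so `2 |V| ≡ 4`; in fact `|V| ≡ 2 (mod n)`: put
`SRT.NN_modEq` with `g = 1` (`NN B 1 = |V|`).  So `2 δ ≡ 2 l (mod n)`: `n ∣ 2 (l - δ)`, `δ ≤ l`.
If `δ = l`: all points of `N x` are in the closed neighbourhood of `x`, and (same for the other
points) any two points of `N x` are in relation `B`.  Three different points `x, y, z` of `N x` would give three
elements `x, y, z` of `{u : B x u ∧ B u y}`, contradiction to `S.geo.two`; so `l ≤ 2`.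
Otherwise `n ≤ 2 (l - δ)` and `δ ≥ 1` (`x` itself), so `n < 2 l`. -/
theorem Sit.orbit_length {G V : Type*} [Group G] [Finite G] [MulAction G V] [Finite V]
    [Nonempty V] {B : V → V → Prop} {n : ℕ} (S : Sit G V B n) (hn : 1 ≤ n) (N : Subgroup G)
    (hN : N.Normal) (x : V) :
    Nat.card (MulAction.orbit N x) ≤ 2 ∨ n < 2 * Nat.card (MulAction.orbit N x) := by
  classical
  have hfN : Fintype N := Fintype.ofFinite N
  set h := Nat.card ↥(N ⊓ MulAction.stabilizer G x) with hh
  have hst : ∀ y : V, Nat.card (MulAction.stabilizer N y) = h := by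
    intro y
    rw [hh, ← S.card_stab_eq N hN y x]
    apply Nat.card_congr
    exact ⟨fun q => ⟨q.1.1, ⟨q.1.2, q.2⟩⟩, fun q => ⟨⟨q.1, q.2.1⟩, q.2.2⟩, fun q => rfl,
      fun q => rfl⟩
  have hhpos : 0 < h := Nat.card_pos
  have horb : ∀ y : V, h * Nat.card (MulAction.orbit N y) = Nat.card N := by
    intro y
    have h2 := Subgroup.card_mul_index (MulAction.stabilizer N y)
    rw [MulAction.index_stabilizer, hst y] at h2
    exact h2
  set l := Nat.card (MulAction.orbit N x) with hl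
  have hl' : ∀ y : V, Nat.card (MulAction.orbit N y) = l := by
    intro y
    apply Nat.eq_of_mul_eq_mul_left hhpos
    rw [horb y, horb x]
  set δ := Nat.card {z : V // B x z ∧ z ∈ MulAction.orbit N x} with hδ
  have hδ' : ∀ y : V, Nat.card {z : V // B y z ∧ z ∈ MulAction.orbit N y} = δ := by
    intro y
    obtain ⟨g, hg⟩ := S.trans x y
    rw [hδ]
    symm
    have hg' : g⁻¹ • y = x := by rw [← hg, inv_smul_smul]
    apply Nat.card_congr
    refine ⟨fun z => ⟨g • z.1, ?_, ?_⟩, fun z => ⟨g⁻¹ • z.1, ?_, ?_⟩, fun z => ?_, fun z => ?_⟩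
    · rw [← hg]
      exact S.aut g _ _ z.2.1
    · obtain ⟨u, hu⟩ := z.2.2
      refine ⟨⟨g * u.1 * g⁻¹, hN.conj_mem _ u.2 g⟩, ?_⟩
      show (g * u.1 * g⁻¹) • y = g • z.1
      rw [← hu, mul_smul, mul_smul, hg']
      rfl
    · rw [← hg']
      exact S.aut g⁻¹ _ _ z.2.1
    · obtain ⟨u, hu⟩ := z.2.2
      refine ⟨⟨g⁻¹ * u.1 * g, ?_⟩, ?_⟩
      · have := hN.conj_mem _ u.2 g⁻¹
        rwa [inv_inv] at this
      show (g⁻¹ * u.1 * g) • x = g⁻¹ • z.1
      rw [← hu, mul_smul, mul_smul, hg]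
      rfl
    · apply Subtype.ext
      exact inv_smul_smul g z.1
    · apply Subtype.ext
      exact smul_inv_smul g z.1
  have hsum := o2_sum (H := N) B h δ hst hδ'
  have hautN : Aut (↥N) B := fun g u v huv => S.aut g.1 u v huv
  obtain ⟨z, hz⟩ := orbit_trace (G := N) S.geo hautN hn
  have hsum' : (∑ g : N, (NN B g : ℤ)) = Nat.card V * (δ * h) := by
    exact_mod_cast hsum
  rw [hsum', ← horb x] at hz
  push_cast at hz
  have hz2 : (Nat.card V : ℤ) * δ = l * (2 + n * z) := by
    have hh0 : (h : ℤ) ≠ 0 := by exact_mod_cast hhpos.ne'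
    apply mul_left_cancel₀ hh0
    rw [← hl] at hz
    linear_combination hz
  have hNN1 : NN B (1 : G) = Nat.card V := by
    apply Nat.card_congr
    exact ⟨fun y => y.1, fun y => ⟨y, by rw [one_smul]; exact S.geo.refl y⟩, fun y => rfl,
      fun y => rfl⟩
  have hVn := NN_modEq S.geo S.aut hn (1 : G)
  rw [hNN1] at hVn
  obtain ⟨w, hw⟩ := hVn.symm.dvd
  have hdvd : (n : ℤ) ∣ 2 * ((l : ℤ) - δ) := by
    refine ⟨w * δ - l * z, ?_⟩
    linear_combination (δ : ℤ) * hw - hz2
  have hδl : δ ≤ l := by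
    rw [hδ, hl]
    exact Nat.card_mono (s := {z : V | B x z ∧ z ∈ MulAction.orbit N x}) (Set.toFinite _)
      (fun z hz => hz.2)
  have hδ1 : 1 ≤ δ := by
    have : Nonempty {z : V // B x z ∧ z ∈ MulAction.orbit N x} :=
      ⟨⟨x, S.geo.refl x, MulAction.mem_orbit_self x⟩⟩
    exact Nat.card_pos
  rcases Nat.eq_or_lt_of_le hδl with heq | hlt
  · left
    apply o2_clique S.geo
    intro a ha b hb
    have h1 : MulAction.orbit N a = MulAction.orbit N x := MulAction.orbit_eq_iff.2 ha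
    have h2 : ({z : V | B a z ∧ z ∈ MulAction.orbit N a} : Set V) = MulAction.orbit N a := by
      apply Set.eq_of_subset_of_ncard_le (fun z hz => hz.2) ?_ (Set.toFinite _)
      have h3 : ({z : V | B a z ∧ z ∈ MulAction.orbit N a} : Set V).ncard = δ := hδ' a
      have h4 : (MulAction.orbit N a).ncard = l := hl' a
      omega
    have h3 : b ∈ ({z : V | B a z ∧ z ∈ MulAction.orbit N a} : Set V) := by
      rw [h2, h1]
      exact hb
    exact h3.1
  · right
    obtain ⟨c, hc⟩ := hdvd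
    have hcpos : 0 < c := by
      by_contra hcon
      push Not at hcon
      have h1 : (n : ℤ) * c ≤ 0 := mul_nonpos_of_nonneg_of_nonpos (by positivity) hcon
      have h2 : (δ : ℤ) < l := by exact_mod_cast hlt
      linarith
    have h1 : (n : ℤ) ≤ n * c := by
      have h2 : (0 : ℤ) ≤ n := by positivity
      nlinarith
    have h2 : (1 : ℤ) ≤ δ := by exact_mod_cast hδ1
    have h3 : (n : ℤ) < 2 * l := by linarith
    exact_mod_cast h3

end SRV
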