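import Pool.Agent.SRV.H13
import Pool.Agent.SRV.O2
import Pool.Agent.SRV.M5
import Pool.Agent.SRT.H3
import Pool.Agent.SRT.A1b

set_option autoImplicit false

namespace SRV

open SRT

/-- a normal `2`-subgroup is semiregular when neither `n^2+n+2` nor `n^2-n+2` is a power of `2`.
PROOF. `n ≥ 5` (`n = 3`: `n^2-n+2 = 8`; `n = 4` excluded by `S.geo.four_not_dvd`).  `SRC.exists_dat`
(Pool/Agent/SRC/N1.lean): `P2 ≠ 1`, otherwise `N2 = 2^j` (`h2`), and `N2` is `n^2+n+2` or `n^2-n+2`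
(`e2`, `s = ± n`).  `Sit.semireg` (H4.lean). -/
theorem Sit.semireg' {G V : Type*} [Group G] [Finite G] [MulAction G V] [Finite V] [Nonempty V]
    {B : V → V → Prop} {n : ℕ} (S : Sit G V B n) (hn : 3 ≤ n)
    (h2 : ∀ k : ℕ, n ^ 2 + n + 2 ≠ 2 ^ k ∧ n ^ 2 + 2 ≠ n + 2 ^ k) (Q : Subgroup G)
    (hQn : Q.Normal) (hQ2 : IsPGroup 2 Q) (g : G) (hg : g ∈ Q) (x : V) (hx : g • x = x) :
    g = 1 := by
  have h4 := S.geo.four_not_dvd (by omega)
  have hn5 : 5 ≤ n := by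
    by_contra hcon
    have h3 : n = 3 ∨ n = 4 := by omega
    rcases h3 with rfl | rfl
    · exact (h2 3).2 (by norm_num)
    · exact h4 (by norm_num)
  obtain ⟨s, N1, N2, i, j, P1, P2, hs, D⟩ :=
    SRC.exists_dat (Nat.card V) n hn5 h4 S.geo.two_mul_card'
  have hP2 : P2 ≠ 1 := by
    intro hP
    have e := D.e2
    rw [D.h2, hP] at e
    push_cast at e
    rcases hs with h | h
    · rw [h] at e
      apply (h2 j).1
      have : ((n ^ 2 + n + 2 : ℕ) : ℤ) = ((2 ^ j : ℕ) : ℤ) := by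
        push_cast
        linarith
      exact_mod_cast this
    · rw [h] at e
      apply (h2 j).2
      have : ((n ^ 2 + 2 : ℕ) : ℤ) = ((n + 2 ^ j : ℕ) : ℤ) := by
        push_cast
        nlinarith
      exact_mod_cast this
  obtain ⟨a, -, -, hst⟩ := S.semireg hs D hP2 Q hQn hQ2
  have h1 := hst x
  rw [Nat.card_eq_one_iff_unique] at h1
  obtain ⟨hss, -⟩ := h1
  have hmem : g ∈ Q ⊓ MulAction.stabilizer G x := ⟨hg, hx⟩
  have h5 : (⟨g, hmem⟩ : ↥(Q ⊓ MulAction.stabilizer G x)) = 1 := Subsingleton.elim _ _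
  exact congrArg Subtype.val h5

end SRV
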