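import Pool.Agent.SRV.Defs

set_option autoImplicit false

namespace SRV

/-- elements of `R` whose image modulo `D` has an order dividing `c * 2 ^ k` -/
private def G1_sg {G : Type*} [Group G] (R D : Subgroup G) [D.Normal]
    (hD : ∀ x ∈ R, ∀ y ∈ R, Commute (QuotientGroup.mk' D x) (QuotientGroup.mk' D y)) (c : ℕ) :
    Subgroup G where
  carrier := {x | x ∈ R ∧ ∃ k : ℕ, (QuotientGroup.mk' D x) ^ (c * 2 ^ k) = 1}
  mul_mem' := by
    rintro x y ⟨hx, k, hk⟩ ⟨hy, l, hl⟩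
    refine ⟨R.mul_mem hx hy, k + l, ?_⟩
    rw [map_mul, (hD x hx y hy).mul_pow]
    have e1 : c * 2 ^ (k + l) = c * 2 ^ k * 2 ^ l := by rw [pow_add, mul_assoc]
    have e2 : c * 2 ^ (k + l) = c * 2 ^ l * 2 ^ k := by rw [e1]; ring
    conv_lhs => rw [e1, pow_mul, hk, one_pow, one_mul, ← e1, e2, pow_mul, hl, one_pow]
  one_mem' := ⟨R.one_mem, 0, by rw [map_one, one_pow]⟩
  inv_mem' := by
    rintro x ⟨hx, k, hk⟩
    exact ⟨R.inv_mem hx, k, by rw [map_inv, inv_pow, hk, inv_one]⟩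

private theorem G1_normal {G : Type*} [Group G] (R D : Subgroup G) [D.Normal] (hR : R.Normal)
    (hD : ∀ x ∈ R, ∀ y ∈ R, Commute (QuotientGroup.mk' D x) (QuotientGroup.mk' D y)) (c : ℕ) :
    (G1_sg R D hD c).Normal := by
  refine ⟨?_⟩
  rintro x ⟨hx, k, hk⟩ g
  refine ⟨hR.conj_mem x hx g, k, ?_⟩
  rw [map_mul, map_mul, map_inv, conj_pow, hk, mul_one, mul_inv_cancel]

/-- A solvable normal subgroup that is not a `2`-group contains a minimal one, which is a `2`-group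
extended by an elementary abelian `p`-group.
PROOF. Let `R'` be minimal (for inclusion, or minimal order) among the subgroups `M ≤ R` with
`M.Normal`, `Group.IsSolvable M`, `¬ IsPGroup 2 M` (finite set, contains `R`).
`D = ⁅R', R'⁆` (as a subgroup of `G`) is normal in `G`, contained in `R'`, and `D ≠ R'` because `R'` is
solvable and `≠ ⊥` (`⊥` is a `2`-group) (derived series: if `⁅R', R'⁆ = R'` the derived series of `R'`
is constant); it is solvable (`D ≤ R'`), so by minimality it is a `2`-group.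
`Q = {x ∈ R' : ∃ k, x ^ (2 ^ k) = 1}`, equivalently `{x ∈ R' : ∃ k, x ^ (2 ^ k) ∈ D}`, is a subgroup:
for `x, y ∈ R'` `(x y)^m ∈ x^m y^m D` (`R' / D` is abelian: work in the quotient by `D`); it is normal
in `G`, a `2`-group, contains `D`.  `R'` is not a `2`-group: an odd prime `p` divides `|R'|`
(as in the proof of `SRT.stab_two_group`, Pool/Agent/SRT/D3b.lean).
`M = {x ∈ R' : x ^ p ∈ Q}` is a subgroup (modulo `D ≤ Q` everything in `R'` commutes), normal in `G`,
contains an element of order `p` (Cauchy), so it is not a `2`-group, so `M = R'` by minimality.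
So `Elem Q R' p`: `normal`, `le`; `ne`: the element of order `p` is not in `Q`; `pow_mem`: `M = R'`;
`comm_mem`: `x y x⁻¹ y⁻¹ ∈ D ≤ Q`. -/
theorem exists_min {G : Type*} [Group G] [Finite G] (R : Subgroup G) (hR : R.Normal)
    (hs : Group.IsSolvable R) (h2 : ¬ IsPGroup 2 R) :
    ∃ (Q R' : Subgroup G) (p : ℕ), p.Prime ∧ p ≠ 2 ∧ Q.Normal ∧ IsPGroup 2 Q ∧
      SRC.Elem Q R' p ∧ R' ≤ R ∧ Group.IsSolvable R' := by
  obtain ⟨R', ⟨hle, hnor, hsol, hno2⟩, hmin⟩ := WellFounded.has_min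
    (wellFounded_lt (α := Subgroup G))
    {M : Subgroup G | M ≤ R ∧ M.Normal ∧ Group.IsSolvable M ∧ ¬ IsPGroup 2 M} ⟨R, le_rfl, hR, hs, h2⟩
  have hmin' : ∀ M : Subgroup G, M ≤ R' → M.Normal → ¬ IsPGroup 2 M → M = R' := by
    intro M hM hMn hM2
    by_contra hne
    refine hmin M ⟨hM.trans hle, hMn, ?_, hM2⟩ (lt_of_le_of_ne hM hne)
    exact Group.isSolvable_of_isSolvable_injective (Subgroup.inclusion_injective hM)
  -- the derived subgroup is a 2-group
  have hDn : (⁅R', R'⁆ : Subgroup G).Normal := Subgroup.commutator_normal R' R'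
  have hDle : ⁅R', R'⁆ ≤ R' := Subgroup.commutator_le_right R' R'
  have hDne : ⁅R', R'⁆ ≠ R' := by
    have hnt : Nontrivial R' := by
      by_contra hcon
      rw [not_nontrivial_iff_subsingleton] at hcon
      exact hno2 (IsPGroup.of_subsingleton 2 R')
    intro h
    have h1 := Group.IsSolvable.commutator_lt_top_of_nontrivial R'
    refine h1.ne ?_
    have h3 : (commutator R').map R'.subtype = ⁅R', R'⁆ := by
      rw [commutator_def, Subgroup.map_commutator, ← MonoidHom.range_eq_map, Subgroup.range_subtype]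
    have h4 : (commutator R').map R'.subtype = (⊤ : Subgroup R').map R'.subtype := by
      rw [h3, h, ← MonoidHom.range_eq_map, Subgroup.range_subtype]
    exact Subgroup.map_injective R'.subtype_injective h4
  have hD2 : IsPGroup 2 (⁅R', R'⁆ : Subgroup G) := by
    by_contra hcon
    exact hDne (hmin' _ hDle hDn hcon)
  have hcm : ∀ x ∈ R', ∀ y ∈ R', x * y * x⁻¹ * y⁻¹ ∈ ⁅R', R'⁆ := by
    intro x hx y hy
    have := Subgroup.commutator_mem_commutator hx hy
    rwa [commutatorElement_def] at this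
  have hD : ∀ x ∈ R', ∀ y ∈ R', Commute (QuotientGroup.mk' ⁅R', R'⁆ x)
      (QuotientGroup.mk' ⁅R', R'⁆ y) := by
    intro x hx y hy
    have h1 : QuotientGroup.mk' ⁅R', R'⁆ (x * y * x⁻¹ * y⁻¹) = 1 :=
      (QuotientGroup.eq_one_iff _).mpr (hcm x hx y hy)
    rw [map_mul, map_mul, map_mul, map_inv, map_inv] at h1
    show QuotientGroup.mk' ⁅R', R'⁆ x * QuotientGroup.mk' ⁅R', R'⁆ y =
      QuotientGroup.mk' ⁅R', R'⁆ y * QuotientGroup.mk' ⁅R', R'⁆ x
    rw [mul_inv_eq_one, mul_inv_eq_iff_eq_mul] at h1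
    exact h1
  have hmk : ∀ x, QuotientGroup.mk' ⁅R', R'⁆ x = 1 ↔ x ∈ ⁅R', R'⁆ := fun x =>
    QuotientGroup.eq_one_iff x
  -- an odd prime
  obtain ⟨p, hp, hpd, hp2⟩ : ∃ p : ℕ, p.Prime ∧ p ∣ Nat.card R' ∧ p ≠ 2 := by
    by_contra hno
    apply hno2
    refine IsPGroup.of_card (n := (Nat.card R').primeFactorsList.length) ?_
    refine Nat.eq_prime_pow_of_unique_prime_dvd Nat.card_pos.ne' ?_
    intro q hq hqd
    by_contra hq2
    exact hno ⟨q, hq, hqd, hq2⟩
  have : Fact p.Prime := ⟨hp⟩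
  obtain ⟨w, hw⟩ := exists_prime_orderOf_dvd_card' (G := R') p hpd
  have hwp : ((w : R') : G) ^ p = 1 := by
    have : w ^ p = 1 := by rw [← hw]; exact pow_orderOf_eq_one w
    have h5 := congrArg (fun z : R' => (z : G)) this
    simpa using h5
  have hw1 : orderOf ((w : R') : G) = p := by rw [← hw]; exact Subgroup.orderOf_coe w
  -- `w` is in no 2-subgroup
  have hw2 : ∀ M : Subgroup G, IsPGroup 2 M → ((w : R') : G) ∉ M := by
    intro M hM hwM
    obtain ⟨k, hk⟩ := hM ⟨(w : G), hwM⟩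
    have hk' : ((w : R') : G) ^ (2 ^ k) = 1 := by
      have h5 := congrArg (fun z : M => (z : G)) hk
      simpa using h5
    have h6 : p ∣ 2 ^ k := by rw [← hw1]; exact orderOf_dvd_of_pow_eq_one hk'
    exact hp2 ((Nat.prime_dvd_prime_iff_eq hp Nat.prime_two).mp (hp.dvd_of_dvd_pow h6))
  have hQ2 : IsPGroup 2 (G1_sg R' ⁅R', R'⁆ hD 1) := by
    rintro ⟨x, hx, k, hk⟩
    rw [one_mul, ← map_pow, hmk] at hk
    obtain ⟨l, hl⟩ := hD2 ⟨x ^ 2 ^ k, hk⟩
    have hl' : (x ^ 2 ^ k) ^ (2 ^ l) = 1 := by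
      have h5 := congrArg (fun z : (⁅R', R'⁆ : Subgroup G) => (z : G)) hl
      simpa using h5
    refine ⟨k + l, Subtype.ext ?_⟩
    show x ^ (2 ^ (k + l)) = 1
    rw [pow_add, pow_mul]
    exact hl'
  have hMeq : G1_sg R' ⁅R', R'⁆ hD p = R' := by
    refine hmin' _ (fun x hx => hx.1) (G1_normal R' _ hnor hD p) (fun h => hw2 _ h ?_)
    refine ⟨w.2, 0, ?_⟩
    rw [pow_zero, mul_one, ← map_pow, hwp, map_one]
  refine ⟨G1_sg R' ⁅R', R'⁆ hD 1, R', p, hp, hp2, G1_normal R' _ hnor hD 1, hQ2,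
    ⟨hnor, fun x hx => hx.1, fun h => hw2 _ hQ2 (h w.2), ?_, ?_⟩, hle, hsol⟩
  · intro x hx
    have hx' := hx
    rw [← hMeq] at hx'
    obtain ⟨-, k, hk⟩ := hx'
    refine ⟨R'.pow_mem hx p, k, ?_⟩
    rw [one_mul, map_pow, ← pow_mul]
    exact hk
  · intro x hx y hy
    refine ⟨hDle (hcm x hx y hy), 0, ?_⟩
    rw [(hmk _).2 (hcm x hx y hy), one_pow]

end SRV
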