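import Pool.Agent.SRV.Defs

set_option autoImplicit false

namespace SRV

/-- PROOF. Pick `w ∈ R \ Q` (`Elem.ne`).  `Y` acts by conjugation on the coset
`X = {g : G // w⁻¹ * g ∈ Q}`: for `y ∈ Y`, `g = w q`:
`w⁻¹ (y w q y⁻¹) = (w⁻¹ (y w y⁻¹ w⁻¹) w) (y q y⁻¹) ∈ Q` (`hYK`, `Q` normal).  `|X| = |Q|` is a power of
`2`, not divisible by `r`, so the `r`-group `Y` has a fixed point `g` in `X`
(`IsPGroup.nonempty_fixed_point_of_prime_not_dvd_card`): `y g y⁻¹ = g` for all `y ∈ Y`.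
`g ∉ Q` (as `w ∉ Q`), `g ∈ R`, `g^p ∈ Q` (`Elem.pow_mem`).  `z = g ^ Nat.card Q` has order `p`
(`SRC.lift_order`, Pool/Agent/SRC/A2.lean) and commutes with `Y`. -/
theorem exists_comm {G : Type*} [Group G] [Finite G] (Q R : Subgroup G) (hQn : Q.Normal)
    (hQ2 : IsPGroup 2 Q) (p : ℕ) (hp : p.Prime) (hp2 : p ≠ 2) (hR : SRC.Elem Q R p) (r : ℕ)
    (hr : r.Prime) (hr2 : r ≠ 2) (Y : Subgroup G) (hY : IsPGroup r Y)
    (hYK : ∀ y ∈ Y, ∀ x ∈ R, y * x * y⁻¹ * x⁻¹ ∈ Q) :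
    ∃ z ∈ R, orderOf z = p ∧ ∀ y ∈ Y, y * z = z * y := by
  classical
  obtain ⟨w, hwR, hwQ⟩ : ∃ w ∈ R, w ∉ Q := by
    by_contra hcon
    push Not at hcon
    exact hR.ne hcon
  have key : ∀ y ∈ Y, ∀ g : G, w⁻¹ * g ∈ Q → w⁻¹ * (y * g * y⁻¹) ∈ Q := by
    intro y hy g hg
    have h1 := hYK y hy w hwR
    have h2 := hQn.conj_mem _ h1 w⁻¹
    have h3 := hQn.conj_mem _ hg y
    have h4 : w⁻¹ * (y * g * y⁻¹) =
        (w⁻¹ * (y * w * y⁻¹ * w⁻¹) * w⁻¹⁻¹) * (y * (w⁻¹ * g) * y⁻¹) := by group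
    rw [h4]
    exact Q.mul_mem h2 h3
  let act : MulAction Y {g : G // w⁻¹ * g ∈ Q} :=
    { smul := fun y g => ⟨y.1 * g.1 * y.1⁻¹, key y.1 y.2 g.1 g.2⟩
      one_smul := fun g => Subtype.ext (by
        change (1 : G) * g.1 * (1 : G)⁻¹ = g.1
        group)
      mul_smul := fun a b g => Subtype.ext (by
        change (a.1 * b.1) * g.1 * (a.1 * b.1)⁻¹ = a.1 * (b.1 * g.1 * b.1⁻¹) * a.1⁻¹
        group) }
  have hcard : Nat.card {g : G // w⁻¹ * g ∈ Q} = Nat.card Q := by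
    apply Nat.card_congr
    refine ⟨fun g => ⟨w⁻¹ * g.1, g.2⟩, fun q => ⟨w * q.1, ?_⟩, fun g => ?_, fun q => ?_⟩
    · rw [inv_mul_cancel_left]
      exact q.2
    · apply Subtype.ext
      exact mul_inv_cancel_left _ _
    · apply Subtype.ext
      exact inv_mul_cancel_left _ _
  have hnd : ¬ r ∣ Nat.card {g : G // w⁻¹ * g ∈ Q} := by
    rw [hcard]
    exact SRC.not_dvd_card_two_group Q hQ2 r hr hr2
  have hfr : Fact r.Prime := ⟨hr⟩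
  obtain ⟨g, hg⟩ := hY.nonempty_fixed_point_of_prime_not_dvd_card
    (α := {g : G // w⁻¹ * g ∈ Q}) hnd
  have hgR : g.1 ∈ R := by
    have h1 := R.mul_mem hwR (hR.le g.2)
    rwa [mul_inv_cancel_left] at h1
  have hgQ : g.1 ∉ Q := by
    intro hcon
    apply hwQ
    have h1 := Q.mul_mem hcon (Q.inv_mem g.2)
    have h2 : g.1 * (w⁻¹ * g.1)⁻¹ = w := by group
    rwa [h2] at h1
  obtain ⟨h1, -⟩ := SRC.lift_order Q hQ2 p hp hp2 g.1 hgQ (hR.pow_mem g.1 hgR)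
  refine ⟨g.1 ^ Nat.card Q, R.pow_mem hgR _, h1, ?_⟩
  intro y hy
  have h2 : y * g.1 * y⁻¹ = g.1 := congrArg Subtype.val (hg ⟨y, hy⟩)
  have h3 : Commute y g.1 := by
    change y * g.1 = g.1 * y
    exact mul_inv_eq_iff_eq_mul.1 h2
  exact (h3.pow_right _).eq

end SRV
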