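import Pool.Agent.SRV.Defs

set_option autoImplicit false

namespace SRV

/-- PROOF. Suppose `z` commutes with all elements of `Q`.  Let
`D = R ⊓ Subgroup.centralizer (Q : Set G)` (normal in `G`) and `E = {d ∈ D : d ^ p = 1}`.
Elements `d, e ∈ E` commute: `c = d e d⁻¹ e⁻¹ ∈ Q` (`Elem.comm_mem`), and `c ∈ D`, so `c` commutes with
every element of `D` (they centralise `Q`).  So `(d e d⁻¹)= c e` and `1 = d e^p d⁻¹ = (c e)^p = c^p e^p = c^p`
(`Commute.mul_pow`); `c ∈ Q` has `2`-power order, `p` is odd, so `c = 1`.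
So `E` is a subgroup, normal in `G` (`R`, `Q` normal), `IsPGroup p E`, and `z ∈ E`, `z ≠ 1`:
contradiction to `hel`. -/
theorem exists_not_comm {G : Type*} [Group G] [Finite G] (Q R : Subgroup G) (hQn : Q.Normal)
    (hQ2 : IsPGroup 2 Q) (p : ℕ) (hp : p.Prime) (hp2 : p ≠ 2) (hR : SRC.Elem Q R p)
    (hel : ∀ E : Subgroup G, E.Normal → IsPGroup p E → E = ⊥) (z : G) (hzR : z ∈ R)
    (hz : orderOf z = p) : ∃ q ∈ Q, z * q ≠ q * z := by
  classical
  by_contra hcon
  push Not at hcon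
  have hcomm : ∀ d e : G, d ∈ R → e ∈ R → (∀ q ∈ Q, e * q = q * e) → e ^ p = 1 →
      d * e = e * d := by
    intro d e hd he heq hep
    set c := d * e * d⁻¹ * e⁻¹ with hc
    have hcQ : c ∈ Q := hR.comm_mem d hd e he
    have h1 : d * e * d⁻¹ = c * e := by rw [hc]; group
    have h2 : Commute c e := (heq c hcQ).symm
    have h3 : c ^ p = 1 := by
      have h4 : (d * e * d⁻¹) ^ p = 1 := by rw [conj_pow, hep]; group
      rw [h1, h2.mul_pow, hep, mul_one] at h4
      exact h4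
    have h5 : orderOf c ∣ p := orderOf_dvd_of_pow_eq_one h3
    have h6 : orderOf c ∣ Nat.card Q := Subgroup.orderOf_dvd_natCard Q hcQ
    have h7 : orderOf c = 1 := by
      rcases (Nat.dvd_prime hp).1 h5 with h8 | h8
      · exact h8
      · rw [h8] at h6
        exact absurd h6 (SRC.not_dvd_card_two_group Q hQ2 p hp hp2)
    rw [orderOf_eq_one_iff] at h7
    rw [h7, one_mul] at h1
    exact mul_inv_eq_iff_eq_mul.1 h1
  let E : Subgroup G :=
    { carrier := {d | d ∈ R ∧ (∀ q ∈ Q, d * q = q * d) ∧ d ^ p = 1}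
      one_mem' := ⟨R.one_mem, fun q _ => by rw [one_mul, mul_one], one_pow _⟩
      mul_mem' := by
        rintro d e ⟨hd1, hd2, hd3⟩ ⟨he1, he2, he3⟩
        refine ⟨R.mul_mem hd1 he1, fun q hq => ?_, ?_⟩
        · rw [mul_assoc, he2 q hq, ← mul_assoc, hd2 q hq, mul_assoc]
        · have h1 : Commute d e := hcomm d e hd1 he1 he2 he3
          rw [h1.mul_pow, hd3, he3, one_mul]
      inv_mem' := by
        rintro d ⟨hd1, hd2, hd3⟩
        refine ⟨R.inv_mem hd1, fun q hq => ?_, ?_⟩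
        · have h1 : Commute d q := hd2 q hq
          exact h1.inv_left.eq
        · rw [inv_pow, hd3, inv_one] }
  have hEn : E.Normal := by
    constructor
    rintro d ⟨hd1, hd2, hd3⟩ g
    refine ⟨hR.normal.conj_mem _ hd1 g, fun q hq => ?_, ?_⟩
    · have h1 := hQn.conj_mem q hq g⁻¹
      rw [inv_inv] at h1
      have h2 := hd2 _ h1
      calc g * d * g⁻¹ * q = g * (d * (g⁻¹ * q * g)) * g⁻¹ := by group
        _ = g * ((g⁻¹ * q * g) * d) * g⁻¹ := by rw [h2]
        _ = q * (g * d * g⁻¹) := by group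
    · rw [conj_pow, hd3]; group
  have hEp : IsPGroup p E := by
    intro x
    refine ⟨1, ?_⟩
    apply Subtype.ext
    have h1 : (x : G) ^ p = 1 := x.2.2.2
    simpa using h1
  have hz1 : z ∈ E := by
    refine ⟨hzR, hcon, ?_⟩
    rw [← hz]
    exact pow_orderOf_eq_one z
  rw [hel E hEn hEp, Subgroup.mem_bot] at hz1
  rw [hz1, orderOf_one] at hz
  exact hp.one_lt.ne hz

end SRV
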