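import Pool.Agent.SRC.B4
import Pool.Agent.SRV.Defs

set_option autoImplicit false

namespace SRV

private theorem G4_card {G : Type*} [Group G] (Q R : Subgroup G) (hle : Q ≤ R) (z : R) :
    Nat.card ↥(Q.subgroupOf R ⊓ Subgroup.centralizer ({z} : Set R)) =
      Nat.card ↥(Q ⊓ Subgroup.centralizer ({(z : G)} : Set G)) := by
  refine Nat.card_congr ⟨fun w => ⟨((w : R) : G), ?_⟩, fun w => ⟨⟨(w : G), hle w.2.1⟩, ?_⟩, ?_, ?_⟩
  · obtain ⟨w, hw1, hw2⟩ := w
    refine Subgroup.mem_inf.2 ⟨Subgroup.mem_subgroupOf.1 hw1, ?_⟩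
    have h1 := Subgroup.mem_centralizer_iff.1 hw2 z (Set.mem_singleton z)
    refine Subgroup.mem_centralizer_iff.2 (fun h hh => ?_)
    rw [Set.mem_singleton_iff.1 hh]
    exact congrArg Subtype.val h1
  · obtain ⟨w, hw1, hw2⟩ := w
    refine Subgroup.mem_inf.2 ⟨Subgroup.mem_subgroupOf.2 hw1, ?_⟩
    have h1 := Subgroup.mem_centralizer_iff.1 hw2 (z : G) (Set.mem_singleton _)
    refine Subgroup.mem_centralizer_iff.2 (fun h hh => ?_)
    rw [Set.mem_singleton_iff.1 hh]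
    exact Subtype.ext h1
  · intro w
    rfl
  · intro w
    rfl

private theorem G4_no_rank_two {G : Type*} [Group G] [Finite G] (Q R : Subgroup G)
    (hQn : Q.Normal) (hQ2 : IsPGroup 2 Q) (hle : Q ≤ R) (p : ℕ) (hp : p.Prime) (hp5 : 5 ≤ p)
    (hfix : ∀ z ∈ R, orderOf z = p →
      Nat.card ↥(Q ⊓ Subgroup.centralizer ({z} : Set G)) ∣ 4)
    (hnc : ∀ z ∈ R, orderOf z = p → ∃ q ∈ Q, z * q ≠ q * z)
    (x y : G) (hxR : x ∈ R) (hyR : y ∈ R) (hx : orderOf x = p) (hy : orderOf y = p)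
    (hxy : x * y = y * x) (hne : y ∉ Subgroup.zpowers x) : False := by
  have hn : (Q.subgroupOf R).Normal := hQn.subgroupOf R
  have h2 : IsPGroup 2 (Q.subgroupOf R) := hQ2.comap_subtype
  have ho : ∀ z : R, orderOf z = orderOf (z : G) := fun z => (Subgroup.orderOf_coe z).symm
  have h1 := SRC.commute_all (Q.subgroupOf R) hn h2 p hp hp5
    (fun z hz => by
      rw [G4_card Q R hle z]
      exact hfix z z.2 (by rw [← ho z, hz]))
    (⟨x, hxR⟩ : R) ⟨y, hyR⟩ (by rw [ho]; exact hx) (by rw [ho]; exact hy)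
    (Subtype.ext hxy) (by
      intro hmem
      obtain ⟨k, hk⟩ := Subgroup.mem_zpowers_iff.1 hmem
      apply hne
      refine Subgroup.mem_zpowers_iff.2 ⟨k, ?_⟩
      have h3 := congrArg Subtype.val hk
      simpa using h3)
  obtain ⟨q, hq, hxq⟩ := hnc x hxR hx
  exact hxq (congrArg Subtype.val (h1 ⟨q, hle hq⟩ (Subgroup.mem_subgroupOf.2 hq)).1)

/-- PROOF. Copy the proof of `SRC.card_R` (Pool/Agent/SRC/B4.lean).  The only change: instead of
`no_rank_two` use the following.  `x, y ∈ R` of order `p`, commuting, `y ∉ zpowers x`.  Apply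
`SRC.commute_all` (Pool/Agent/SRC/B3.lean) in the group `↥R` to `Q.subgroupOf R` (normal, a
`2`-group), `⟨x, _⟩`, `⟨y, _⟩` (`hfix` for `z : ↥R`: the subgroup
`Q.subgroupOf R ⊓ centralizer {z}` of `↥R` corresponds to `Q ⊓ centralizer {(z : G)}`, because `Q ≤ R`;
`Nat.card_congr`).  So `x` commutes with all elements of `Q`, contradiction to `hnc`. -/
theorem card_R {G : Type*} [Group G] [Finite G] (Q R : Subgroup G) (hQn : Q.Normal)
    (hQ2 : IsPGroup 2 Q) (p : ℕ) (hp : p.Prime) (hp5 : 5 ≤ p) (hR : SRC.Elem Q R p)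
    (hfix : ∀ z ∈ R, orderOf z = p →
      Nat.card ↥(Q ⊓ Subgroup.centralizer ({z} : Set G)) ∣ 4)
    (hnc : ∀ z ∈ R, orderOf z = p → ∃ q ∈ Q, z * q ≠ q * z) :
    Nat.card R = p * Nat.card Q := by
  have hp2 : p ≠ 2 := by omega
  obtain ⟨x₀, hx₀R, hx₀Q⟩ := SetLike.not_le_iff_exists.1 hR.ne
  obtain ⟨hx, hxQ⟩ := SRC.lift_order Q hQ2 p hp hp2 x₀ hx₀Q (hR.pow_mem x₀ hx₀R)
  set x := x₀ ^ Nat.card Q with hxdef
  have hxR : x ∈ R := R.pow_mem hx₀R _
  have hxp : x ^ p = 1 := by rw [← hx, pow_orderOf_eq_one]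
  have hpQ := SRC.not_dvd_card_two_group Q hQ2 p hp hp2
  have hnQ : ∀ h ∈ Q, x * h * x⁻¹ ∈ Q := fun h hh => hQn.conj_mem h hh x
  have key : ∀ a b : ℕ, a < p → b < p → a ≤ b → ∀ q ∈ Q, ∀ q' ∈ Q, x ^ a * q = x ^ b * q' →
      a = b := by
    intro a b ha hb hab q hq q' hq' h
    by_contra hne
    apply hxQ
    refine SRC.mem_of_pow_mem_coprime Q x (b - a) p ?_ ?_ (by rw [hxp]; exact Q.one_mem)
    · refine ((Nat.Prime.coprime_iff_not_dvd hp).2 (fun hd => ?_)).symm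
      have := Nat.le_of_dvd (by omega) hd
      omega
    · have h1 : x ^ (b - a) = q * q'⁻¹ := by
        have h2 : x ^ b = x ^ a * x ^ (b - a) := by rw [← pow_add, Nat.add_sub_cancel' hab]
        rw [h2, mul_assoc] at h
        have h3 := mul_left_cancel h
        rw [h3, mul_inv_cancel_right]
      rw [h1]
      exact Q.mul_mem hq (Q.inv_mem hq')
  by_cases hall : ∀ r ∈ R, ∃ m : ℕ, ∃ q ∈ Q, r = x ^ m * q
  · let f : Fin p × Q → R := fun mq => ⟨x ^ (mq.1 : ℕ) * mq.2,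
      R.mul_mem (R.pow_mem hxR _) (hR.le mq.2.2)⟩
    have hf : Function.Bijective f := by
      constructor
      · rintro ⟨a, q⟩ ⟨b, q'⟩ h
        have h1 : x ^ (a : ℕ) * (q : G) = x ^ (b : ℕ) * q' := congrArg Subtype.val h
        have hab : (a : ℕ) = b := by
          rcases le_total (a : ℕ) b with h2 | h2
          · exact key a b a.2 b.2 h2 q q.2 q' q'.2 h1
          · exact (key b a b.2 a.2 h2 q' q'.2 q q.2 h1.symm).symm
        rw [hab] at h1
        exact Prod.ext (Fin.ext hab) (Subtype.ext (mul_left_cancel h1))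
      · rintro ⟨r, hr⟩
        obtain ⟨m, q, hq, hrm⟩ := hall r hr
        refine ⟨(⟨m % p, Nat.mod_lt _ hp.pos⟩, ⟨q, hq⟩), Subtype.ext ?_⟩
        show x ^ (m % p) * q = r
        rw [hrm, ← hx, pow_mod_orderOf]
    rw [← Nat.card_congr (Equiv.ofBijective f hf), Nat.card_prod, Nat.card_eq_fintype_card,
      Fintype.card_fin]
  · exfalso
    push Not at hall
    obtain ⟨y, hyR, hy⟩ := hall
    have hc : y⁻¹ * (x * y * x⁻¹) ∈ Q := by
      have h1 := hR.comm_mem y⁻¹ (R.inv_mem hyR) x hxR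
      rw [inv_inv] at h1
      have h2 : y⁻¹ * (x * y * x⁻¹) = y⁻¹ * x * y * x⁻¹ := by group
      rw [h2]
      exact h1
    obtain ⟨q, hq, hcomm⟩ := SRC.coset_fixed Q x y p hp hxp hnQ hpQ hc
    have hy1Q : y * q ∉ Q := by
      intro h1
      have h2 : y ∈ Q := by
        have := Q.mul_mem h1 (Q.inv_mem hq)
        rwa [mul_inv_cancel_right] at this
      exact hy 0 y h2 (by simp)
    have hy1R : y * q ∈ R := R.mul_mem hyR (hR.le hq)
    have hy1p := hR.pow_mem _ hy1R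
    obtain ⟨hy2, hy2Q⟩ := SRC.lift_order Q hQ2 p hp hp2 (y * q) hy1Q hy1p
    have hcomm2 : x * (y * q) ^ Nat.card Q = (y * q) ^ Nat.card Q * x :=
      (show Commute x (y * q) from hcomm).pow_right _
    refine G4_no_rank_two Q R hQn hQ2 hR.le p hp hp5 hfix hnc x _ hxR (R.pow_mem hy1R _) hx hy2 hcomm2 ?_
    intro hmem
    have hnorm : Q.Normal := hQn
    have h1 : y * q ∈ Subgroup.zpowers x ⊔ Q := by
      refine SRC.mem_of_pow_mem_coprime _ (y * q) (Nat.card Q) p ?_ ?_ ?_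
      · exact ((Nat.Prime.coprime_iff_not_dvd hp).2 hpQ).symm
      · exact (le_sup_left : Subgroup.zpowers x ≤ Subgroup.zpowers x ⊔ Q) hmem
      · exact (le_sup_right : Q ≤ Subgroup.zpowers x ⊔ Q) hy1p
    have h2 : y * q ∈ ((Subgroup.zpowers x ⊔ Q : Subgroup G) : Set G) := h1
    rw [Subgroup.mul_normal] at h2
    obtain ⟨u, hu, v, hv, huv⟩ := h2
    have hu' : u ∈ Submonoid.powers x := mem_powers_iff_mem_zpowers.2 hu
    obtain ⟨m, hm⟩ := hu'
    refine hy m (v * q⁻¹) (Q.mul_mem hv (Q.inv_mem hq)) ?_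
    have h3 : u * v = y * q := huv
    have h4 : x ^ m = u := hm
    rw [h4, ← mul_assoc, h3, mul_inv_cancel_right]

end SRV
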