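import Pool.Agent.SRV.Defs

set_option autoImplicit false

namespace SRV

open scoped Pointwise

/-- All elements of order `p` of `R` have centralisers in `Q` of the same order.
PROOF. `|R| = p |Q|`, `p ∤ |Q|`, so `zpowers z`, `zpowers z'` (order `p`), as subgroups of `↥R`
(`Subgroup.subgroupOf`), are Sylow `p`-subgroups of `↥R` (`Sylow.ofCard` or as in
`SRT.D2b_syl`, Pool/Agent/SRT/D2b.lean); so `zpowers z' = g (zpowers z) g⁻¹` for some `g ∈ R`
(`MulAction.exists_smul_eq`).  `Q ⊓ centralizer {z}` is the set of `q ∈ Q` commuting with all of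
`zpowers z`, similarly for `z'`; so conjugation by `g` is a bijection between the two
(`Q` normal). -/
theorem card_cent_eq {G : Type*} [Group G] [Finite G] (Q R : Subgroup G) (hQn : Q.Normal) (p : ℕ)
    (hp : p.Prime) (hpQ : ¬ p ∣ Nat.card Q) (hcard : Nat.card R = p * Nat.card Q) (z z' : G)
    (hz : z ∈ R) (hz' : z' ∈ R) (ho : orderOf z = p) (ho' : orderOf z' = p) :
    Nat.card ↥(Q ⊓ Subgroup.centralizer ({z} : Set G)) =
      Nat.card ↥(Q ⊓ Subgroup.centralizer ({z'} : Set G)) := by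
  have : Fact p.Prime := ⟨hp⟩
  have hpg : ∀ u : G, orderOf u = p → IsPGroup p (Subgroup.zpowers u) := fun u hu => by
    refine IsPGroup.of_card (n := 1) ?_
    rw [Nat.card_zpowers, hu, pow_one]
  have hle : ∀ u ∈ R, Subgroup.zpowers u ≤ R := fun u hu => Subgroup.zpowers_le.2 hu
  have hmax : ∀ u : G, orderOf u = p → ∀ R' : Subgroup G, R' ≤ R → IsPGroup p R' →
      Nat.card R' ≤ Nat.card (Subgroup.zpowers u) := by
    intro u hu R' hR' hp'
    rw [Nat.card_zpowers, hu]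
    obtain ⟨n, hn⟩ := IsPGroup.iff_card.1 hp'
    have h1 : Nat.card R' ∣ p * Nat.card Q := hcard ▸ Subgroup.card_dvd_of_le hR'
    rw [hn] at h1 ⊢
    have hn1 : n ≤ 1 := by
      by_contra hcon
      have h2 : p ^ 2 ∣ p * Nat.card Q := (pow_dvd_pow p (by omega)).trans h1
      rw [pow_two] at h2
      exact hpQ (Nat.dvd_of_mul_dvd_mul_left hp.pos h2)
    calc p ^ n ≤ p ^ 1 := Nat.pow_le_pow_right hp.pos hn1
      _ = p := pow_one p
  obtain ⟨S, hS⟩ := SRT.D2b_syl p R (Subgroup.zpowers z) (hle z hz) (hpg z ho) (hmax z ho)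
  obtain ⟨T, hT⟩ := SRT.D2b_syl p R (Subgroup.zpowers z') (hle z' hz') (hpg z' ho') (hmax z' ho')
  obtain ⟨h, hh⟩ := MulAction.exists_smul_eq R S T
  have key : ∀ w : R, (w : G) ∈ Subgroup.zpowers z ↔
      ((h * w * h⁻¹ : R) : G) ∈ Subgroup.zpowers z' := by
    intro w
    have h1 : w ∈ (S : Subgroup R) ↔ MulAut.conj h • w ∈ MulAut.conj h • (S : Subgroup R) :=
      Subgroup.smul_mem_pointwise_smul_iff.symm
    rw [← Sylow.coe_subgroup_smul, hh, hS, hT, Subgroup.mem_subgroupOf,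
      Subgroup.mem_subgroupOf] at h1
    exact h1
  set g : G := (h : G) with hg
  have hgz : g * z * g⁻¹ ∈ Subgroup.zpowers z' :=
    (key ⟨z, hz⟩).1 (Subgroup.mem_zpowers z)
  have hgz' : g⁻¹ * z' * g ∈ Subgroup.zpowers z := by
    have hm : g⁻¹ * z' * g ∈ R := R.mul_mem (R.mul_mem (R.inv_mem h.2) hz') h.2
    refine (key ⟨_, hm⟩).2 ?_
    have e : ((h * ⟨g⁻¹ * z' * g, hm⟩ * h⁻¹ : R) : G) = z' := by
      push_cast
      rw [← hg]
      group
    rw [e]
    exact Subgroup.mem_zpowers z'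
  have hcz : ∀ u q : G, q * u = u * q → ∀ v ∈ Subgroup.zpowers u, q * v = v * q := by
    intro u q huq v hv
    obtain ⟨k, rfl⟩ := Subgroup.mem_zpowers_iff.1 hv
    exact (show Commute q u from huq).zpow_right k
  refine Nat.card_congr ⟨fun q => ⟨g * (q : G) * g⁻¹, ?_⟩, fun q => ⟨g⁻¹ * (q : G) * g, ?_⟩,
    fun q => ?_, fun q => ?_⟩
  · obtain ⟨q, hq1, hq2⟩ := q
    refine Subgroup.mem_inf.2 ⟨hQn.conj_mem q hq1 g, ?_⟩
    refine Subgroup.mem_centralizer_iff.2 (fun u hu => ?_)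
    rw [Set.mem_singleton_iff.1 hu]
    have h1 : z * q = q * z := Subgroup.mem_centralizer_iff.1 hq2 z (Set.mem_singleton z)
    have h2 := hcz z q h1.symm _ hgz'
    calc z' * (g * q * g⁻¹) = g * (g⁻¹ * z' * g * q) * g⁻¹ := by group
      _ = g * (q * (g⁻¹ * z' * g)) * g⁻¹ := by rw [h2]
      _ = g * q * g⁻¹ * z' := by group
  · obtain ⟨q, hq1, hq2⟩ := q
    refine Subgroup.mem_inf.2 ⟨?_, ?_⟩
    · have := hQn.conj_mem q hq1 g⁻¹
      rwa [inv_inv] at this
    refine Subgroup.mem_centralizer_iff.2 (fun u hu => ?_)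
    rw [Set.mem_singleton_iff.1 hu]
    have h1 : z' * q = q * z' := Subgroup.mem_centralizer_iff.1 hq2 z' (Set.mem_singleton z')
    have h2 := hcz z' q h1.symm _ hgz
    calc z * (g⁻¹ * q * g) = g⁻¹ * (g * z * g⁻¹ * q) * g := by group
      _ = g⁻¹ * (q * (g * z * g⁻¹)) * g := by rw [h2]
      _ = g⁻¹ * q * g * z := by group
  · apply Subtype.ext
    show g⁻¹ * (g * (q : G) * g⁻¹) * g = q
    group
  · apply Subtype.ext
    show g * (g⁻¹ * (q : G) * g) * g⁻¹ = q
    group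

end SRV
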