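import Pool.Agent.SRV.B4

set_option autoImplicit false

namespace SRV

open SRT

/-- the index of the centraliser is the size of the conjugacy class -/
theorem h1_index_eq {G : Type*} [Group G] [Finite G] (z : G) :
    (Subgroup.centralizer ({z} : Set G)).index = Nat.card {g : G // ∃ u : G, u * z * u⁻¹ = g} := by
  classical
  let _ : MulAction G {g : G // ∃ u : G, u * z * u⁻¹ = g} :=
    { smul := fun g s => ⟨g * s.1 * g⁻¹, by
        obtain ⟨u, hu⟩ := s.2
        refine ⟨g * u, ?_⟩
        rw [← hu]
        group⟩
      one_smul := by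
        intro s
        apply Subtype.ext
        change (1 : G) * s.1 * (1 : G)⁻¹ = s.1
        simp
      mul_smul := by
        intro a b s
        apply Subtype.ext
        change (a * b) * s.1 * (a * b)⁻¹ = a * (b * s.1 * b⁻¹) * a⁻¹
        group }
  let z' : {g : G // ∃ u : G, u * z * u⁻¹ = g} := ⟨z, 1, by group⟩
  have hst : MulAction.stabilizer G z' = Subgroup.centralizer ({z} : Set G) := by
    ext g
    rw [MulAction.mem_stabilizer_iff, Subgroup.mem_centralizer_singleton_iff]
    constructor
    · intro hg
      have h1 : g * z * g⁻¹ = z := congrArg Subtype.val hg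
      calc g * z = g * z * g⁻¹ * g := by group
        _ = z * g := by rw [h1]
    · intro hg
      apply Subtype.ext
      change g * z * g⁻¹ = z
      rw [hg]; group
  have horb : MulAction.orbit G z' = Set.univ := by
    ext s
    simp only [Set.mem_univ, iff_true]
    obtain ⟨u, hu⟩ := s.2
    exact ⟨u, Subtype.ext hu⟩
  have h1 := MulAction.index_stabilizer G z'
  rw [hst, horb, Set.ncard_univ] at h1
  exact h1

/-- PROOF. Let `C` be the conjugacy class of `z` in `G` (as a finite set; `|C|` is the index of the
centraliser, e.g. `Nat.card (ConjClasses...)`, `MulAction.index_stabilizer` for `ConjAct G` acting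
on `G`, compare `SRC.class_count`, Pool/Agent/SRC/A1.lean).  `NN B` is constant on `C`
(`NN B (u z u⁻¹) = NN B z` via `y ↦ u y`).  The number `c` of `g ∈ C` with `B y (g • y)` does not
depend on `y` (`S.trans`, `g ↦ u g u⁻¹`; compare `Sit.sum_NN_normal` in B3.lean, whose proof can be
copied with `E` replaced by `C` as a finset).  Double count of the pairs `(g, y)`, `g ∈ C`,
`B y (g • y)`. -/
theorem Sit.index_mul {G V : Type*} [Group G] [Finite G] [MulAction G V] [Finite V] [Nonempty V]
    {B : V → V → Prop} {n : ℕ} (S : Sit G V B n) (z : G) :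
    ∃ c : ℕ, (Subgroup.centralizer ({z} : Set G)).index * NN B z = Nat.card V * c := by
  classical
  let _ : Fintype V := Fintype.ofFinite V
  let _ : Fintype G := Fintype.ofFinite G
  obtain ⟨x₀⟩ := (inferInstance : Nonempty V)
  set F : Finset G := Finset.univ.filter fun g => ∃ u : G, u * z * u⁻¹ = g with hF
  have hFcard : F.card = (Subgroup.centralizer ({z} : Set G)).index := by
    rw [h1_index_eq, Nat.card_eq_fintype_card, ← Fintype.card_subtype]
  have hconj : ∀ u g : G, g ∈ F → u * g * u⁻¹ ∈ F := by
    intro u g hg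
    rw [hF, Finset.mem_filter] at hg ⊢
    obtain ⟨-, w, hw⟩ := hg
    refine ⟨Finset.mem_univ _, u * w, ?_⟩
    rw [← hw]
    group
  have hNN : ∀ g : G, NN B g = (Finset.univ.filter fun y : V => B y (g • y)).card := by
    intro g
    rw [NN, Nat.card_eq_fintype_card, Fintype.card_subtype]
  have h1 : ∀ y : V, (F.filter fun g => B y (g • y)).card
      = (F.filter fun g => B x₀ (g • x₀)).card := by
    intro y
    obtain ⟨u, hu⟩ := S.trans x₀ y
    symm
    refine Finset.card_bij' (fun g _ => u * g * u⁻¹) (fun g _ => u⁻¹ * g * u) ?_ ?_ ?_ ?_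
    · intro g hg
      rw [Finset.mem_filter] at hg ⊢
      refine ⟨hconj u g hg.1, ?_⟩
      have h2 := S.aut u _ _ hg.2
      have h3 : (u * g * u⁻¹) • y = u • (g • x₀) := by
        rw [← hu, smul_smul, smul_smul]
        congr 1
        group
      rw [h3, ← hu]
      exact h2
    · intro g hg
      rw [Finset.mem_filter] at hg ⊢
      have h4 : u⁻¹ * g * u ∈ F := by
        have := hconj u⁻¹ g hg.1
        rwa [inv_inv] at this
      refine ⟨h4, ?_⟩
      have h2 := S.aut u⁻¹ _ _ hg.2
      have h3 : (u⁻¹ * g * u) • x₀ = u⁻¹ • (g • y) := by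
        rw [← hu, smul_smul, smul_smul]
      have h5 : u⁻¹ • y = x₀ := by rw [← hu, inv_smul_smul]
      rw [h3]
      rwa [h5] at h2
    · intro g _
      group
    · intro g _
      group
  have hconst : ∀ g ∈ F, NN B g = NN B z := by
    intro g hg
    rw [hF, Finset.mem_filter] at hg
    obtain ⟨-, u, rfl⟩ := hg
    rw [NN, NN]
    apply Nat.card_congr
    refine ⟨fun y => ⟨u⁻¹ • y.1, ?_⟩, fun y => ⟨u • y.1, ?_⟩, fun y => ?_, fun y => ?_⟩
    · have h2 := S.aut u⁻¹ _ _ y.2
      have h3 : u⁻¹ • ((u * z * u⁻¹) • y.1) = z • (u⁻¹ • y.1) := by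
        rw [smul_smul, smul_smul]
        congr 1
        group
      rwa [h3] at h2
    · have h2 := S.aut u _ _ y.2
      have h3 : (u * z * u⁻¹) • (u • y.1) = u • (z • y.1) := by
        rw [smul_smul, smul_smul]
        congr 1
        group
      rw [h3]
      exact h2
    · apply Subtype.ext
      exact smul_inv_smul u y.1
    · apply Subtype.ext
      exact inv_smul_smul u y.1
  refine ⟨(F.filter fun g => B x₀ (g • x₀)).card, ?_⟩
  have h2 : ∑ g ∈ F, NN B g = Nat.card V * (F.filter fun g => B x₀ (g • x₀)).card := by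
    have e1 : ∑ g ∈ F, NN B g = ∑ g ∈ F, ∑ y : V, if B y (g • y) then 1 else 0 := by
      apply Finset.sum_congr rfl
      intro g _
      rw [hNN, Finset.card_filter]
    rw [e1, Finset.sum_comm]
    have e2 : ∀ y ∈ (Finset.univ : Finset V), (∑ g ∈ F, if B y (g • y) then 1 else 0)
        = (F.filter fun g => B x₀ (g • x₀)).card := by
      intro y _
      rw [← h1 y, Finset.card_filter]
    rw [Finset.sum_congr rfl e2, Finset.sum_const, Finset.card_univ, smul_eq_mul,
      Nat.card_eq_fintype_card]
  rw [← h2, Finset.sum_congr rfl hconst, Finset.sum_const, hFcard, smul_eq_mul]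

end SRV
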