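import Pool.Agent.SRV.Defs2
import Pool.Agent.SRV.G2
import Pool.Agent.SRV.I2

set_option autoImplicit false

namespace SRV

open SRT

universe u

/-- Let `K` be normal and centralise `R / Q`.  Then the point stabilisers in `K` are `2`-groups.
PROOF. Otherwise an odd prime `r` divides the order of `K ⊓ G_x` (as in the proof of
`SRT.stab_two_group`, Pool/Agent/SRT/D3b.lean), so there is `u ∈ K`, `u • x = x`, `orderOf u = r`
(Cauchy).  `exists_max` (I2.lean) gives `Y`.  `exists_comm` (G2.lean) for `Y` (`Y ≤ K`, `hK`) gives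
`z ∈ R` of order `p` commuting with `Y`; so `u ∈ Y ↔ z u z⁻¹ ∈ Y`.  `z` has no fixed point at all
(`hr.free`).  `fixed_step` (I2.lean) with this `K`, `R`, `r`, `Y`, `p`, `z`. -/
theorem Rad.stab_two {G : Type*} {V : Type u} [Group G] [Finite G] [MulAction G V] [Finite V]
    [Nonempty V] {B : V → V → Prop} {n : ℕ} (S : Sit G V B n)
    (IH : ∀ N < Nat.card V, TwoRad.{u} N) {Q R : Subgroup G} {p : ℕ} (hr : Rad V Q R p)
    (K : Subgroup G) (hKn : K.Normal) (hK : ∀ g ∈ K, ∀ r ∈ R, g * r * g⁻¹ * r⁻¹ ∈ Q) (x : V) :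
    IsPGroup 2 ↥(K ⊓ MulAction.stabilizer G x) := by
  by_contra hcon
  obtain ⟨r, hr', hrd, hr2⟩ : ∃ r : ℕ, r.Prime ∧
      r ∣ Nat.card ↥(K ⊓ MulAction.stabilizer G x) ∧ r ≠ 2 := by
    by_contra hno
    apply hcon
    refine IsPGroup.of_card
      (n := (Nat.card ↥(K ⊓ MulAction.stabilizer G x)).primeFactorsList.length) ?_
    refine Nat.eq_prime_pow_of_unique_prime_dvd Nat.card_pos.ne' ?_
    intro q hq hqd
    by_contra hq2
    exact hno ⟨q, hq, hqd, hq2⟩
  have : Fact r.Prime := ⟨hr'⟩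
  obtain ⟨w, hw⟩ := exists_prime_orderOf_dvd_card' (G := ↥(K ⊓ MulAction.stabilizer G x)) r hrd
  obtain ⟨Y, hYK, hYx, hYr, hY1, hmax⟩ := exists_max K r hr' x (w : G) w.2.1 w.2.2
    (by rw [Subgroup.orderOf_coe]; exact hw)
  obtain ⟨z, hzR, hz, hzY⟩ := exists_comm Q R hr.normal hr.two p hr.prime hr.ne_two hr.elem r hr'
    hr2 Y hYr (fun y hy => hK y (hYK hy))
  have hzp : z ^ p = 1 := by rw [← hz]; exact pow_orderOf_eq_one z
  have hz1 : z ≠ 1 := by
    intro h2
    rw [h2, orderOf_one] at hz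
    exact hr.prime.one_lt.ne hz
  refine fixed_step S IH K R hKn hr.elem.normal hr.solv r hr' hr2 x Y hYK hYx hYr hY1 hmax p
    hr.prime hr.ne_two z hzR ?_ hzp ?_
  · intro u
    constructor
    · intro hu
      rw [← hzY u hu, mul_inv_cancel_right]
      exact hu
    · intro hu
      have h1 := hzY _ hu
      have h2 : u = z⁻¹ * (z * (z * u * z⁻¹)) * z⁻¹ * z := by
        rw [← h1]
        group
      have h3 : u = z * u * z⁻¹ := by
        rw [mul_assoc, inv_mul_cancel, mul_one, inv_mul_cancel_left] at h2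
        exact h2
      rw [h3]
      exact hu
  · intro w _
    exact hr.free z hzR hzp hz1 w

/-- elements of odd order of `K` have no fixed points.
PROOF. `g` lies in `K ⊓ G_x`, a `2`-group, and has odd order. -/
theorem free_of_stab_two {G V : Type*} [Group G] [MulAction G V] (K : Subgroup G)
    (hKst : ∀ x : V, IsPGroup 2 ↥(K ⊓ MulAction.stabilizer G x)) (g : G) (hg : g ∈ K)
    (ho : Odd (orderOf g)) (hg1 : g ≠ 1) (x : V) : g • x ≠ x := by
  intro hx
  obtain ⟨k, hk⟩ := hKst x ⟨g, hg, hx⟩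
  have h1 : g ^ 2 ^ k = 1 := congrArg Subtype.val hk
  have h2 : orderOf g ∣ 2 ^ k := orderOf_dvd_of_pow_eq_one h1
  have h3 : Nat.Coprime (orderOf g) (2 ^ k) := Nat.Coprime.pow_right _ (Nat.coprime_two_right.2 ho)
  exact hg1 (orderOf_eq_one_iff.1 (h3.eq_one_of_dvd h2))

end SRV
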