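import Pool.Agent.SRV.H3
import Pool.Agent.SRV.H5

set_option autoImplicit false

namespace SRV

open SRT SRC

/-- PROOF. Suppose `r ∣ |K|`: there is `y ∈ K` of order `r`, free (`free_of_stab_two`).
`exists_comm` (G2.lean) for `Y = zpowers y` gives `z ∈ R` of order `p` with `y z = z y`.
`p ∣ P1` (`Rad.dvd_P1`), so `NN B z = N1` (`NN_N1`, `e = 1`, `hr.free`).  `dvd_NN_of_comm`
(H2.lean, `w = z`, `u = y`, `e = 1`) gives `r ∣ N1 = 2^i P1`; `r` is odd, so `r ∣ P1`; with `r ∣ P2` a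
contradiction to `Dat.coprime`. -/
theorem Rad.not_dvd_K {G V : Type*} [Group G] [Finite G] [MulAction G V] [Finite V] [Nonempty V]
    {B : V → V → Prop} {n : ℕ} (S : Sit G V B n) {Q R : Subgroup G} {p : ℕ} (hr : Rad V Q R p)
    {s : ℤ} {N1 N2 i j P1 P2 : ℕ} (hs : s = n ∨ s = -n)
    (d : Dat (Nat.card V) s N1 N2 i j P1 P2) (K : Subgroup G)
    (hK : ∀ g ∈ K, ∀ r ∈ R, g * r * g⁻¹ * r⁻¹ ∈ Q)
    (hKst : ∀ x : V, IsPGroup 2 ↥(K ⊓ MulAction.stabilizer G x)) (r : ℕ) (hr' : r.Prime)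
    (hr2 : r ≠ 2) (hrP : r ∣ P2) : ¬ r ∣ Nat.card K := by
  intro hrK
  have : Fact r.Prime := ⟨hr'⟩
  obtain ⟨w, hw⟩ := exists_prime_orderOf_dvd_card' (G := K) r hrK
  have ho : orderOf (w : G) = r := by rw [Subgroup.orderOf_coe]; exact hw
  have hwr : (w : G) ^ r = 1 := by rw [← ho]; exact pow_orderOf_eq_one _
  have hw1 : (w : G) ≠ 1 := by
    intro h2
    rw [h2, orderOf_one] at ho
    exact hr'.one_lt.ne ho
  have hwfree : ∀ x : V, (w : G) • x ≠ x :=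
    free_of_stab_two K hKst (w : G) w.2 (by rw [ho]; exact hr'.odd_of_ne_two hr2) hw1
  have hY : IsPGroup r (Subgroup.zpowers (w : G)) :=
    IsPGroup.of_card (n := 1) (by rw [Nat.card_zpowers, ho, pow_one])
  obtain ⟨z, hzR, hz, hzY⟩ := exists_comm Q R hr.normal hr.two p hr.prime hr.ne_two hr.elem r hr'
    hr2 (Subgroup.zpowers (w : G)) hY (fun y hy => by
      refine hK y ?_
      have h1 : Subgroup.zpowers (w : G) ≤ K := by
        rw [Subgroup.zpowers_le]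
        exact w.2
      exact h1 hy)
  have hzp : z ^ p = 1 := by rw [← hz]; exact pow_orderOf_eq_one z
  have hz1 : z ≠ 1 := by
    intro h2
    rw [h2, orderOf_one] at hz
    exact hr.prime.one_lt.ne hz
  have hNz : NN B z = N1 := NN_N1 S.geo S.aut hs d p hr.prime hr.ne_two (hr.dvd_P1 S hs d) 1 z
    (by rw [pow_one]; exact hzp) (hr.free z hzR hzp hz1)
  have hdv := dvd_NN_of_comm S.aut z (w : G)
    (hzY (w : G) (Subgroup.mem_zpowers _)).symm r hr' 1 (by rw [pow_one]; exact hwr) hwfree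
  rw [hNz, d.h1] at hdv
  have hrP1 : r ∣ P1 := by
    rcases (Nat.Prime.dvd_mul hr').1 hdv with h | h
    · exact absurd ((Nat.prime_dvd_prime_iff_eq hr' Nat.prime_two).1 (hr'.dvd_of_dvd_pow h)) hr2
    · exact h
  have h3 : r ∣ Nat.gcd P1 P2 := Nat.dvd_gcd hrP1 hrP
  rw [Nat.coprime_iff_gcd_eq_one.1 d.coprime] at h3
  exact hr'.one_lt.ne' (Nat.dvd_one.1 h3)

end SRV
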