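import Pool.Agent.SRV.H2
import Pool.Agent.SRV.B4

set_option autoImplicit false

namespace SRV

open SRT SRC

/-- An automorphism cannot have a fixed-point-free `q`-part and a fixed-point-free `r`-part with
`q ∣ P1`, `r ∣ P2`.
PROOF. `NN B a = N1` (`NN_N1`), and `dvd_NN_of_comm` (`w = a`, `u = b`) gives `r ∣ N1 = 2^i P1`, `r` odd,
so `r ∣ P1`, contradiction to `Dat.coprime`. -/
theorem false_of_commuting {G V : Type*} [Group G] [Finite G] [MulAction G V] [Finite V]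
    [Nonempty V] {B : V → V → Prop} {n : ℕ} (h : Geo B (n ^ 2 + 2)) (haut : Aut G B) {v : ℕ}
    {s : ℤ} {N1 N2 i j P1 P2 : ℕ} (hs : s = n ∨ s = -n) (d : Dat v s N1 N2 i j P1 P2)
    (q r : ℕ) (hq : q.Prime) (hr : r.Prime) (hq2 : q ≠ 2) (hr2 : r ≠ 2) (hqP : q ∣ P1)
    (hrP : r ∣ P2) (a b : G) (hab : a * b = b * a) (e f : ℕ) (ha : a ^ (q ^ e) = 1)
    (hb : b ^ (r ^ f) = 1) (hafree : ∀ x : V, a • x ≠ x) (hbfree : ∀ x : V, b • x ≠ x) :
    False := by
  have h1 := NN_N1 h haut hs d q hq hq2 hqP e a ha hafree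
  have h2 := dvd_NN_of_comm haut a b hab r hr f hb hbfree
  rw [h1, d.h1] at h2
  rcases (Nat.Prime.dvd_mul hr).1 h2 with h3 | h3
  · exact hr2 ((Nat.prime_dvd_prime_iff_eq hr Nat.prime_two).1 (hr.dvd_of_dvd_pow h3))
  · have h4 := Nat.dvd_gcd h3 hrP
    rw [Nat.coprime_iff_gcd_eq_one.1 d.coprime] at h4
    exact hr.one_lt.ne' (Nat.dvd_one.1 h4)

/-- Let `K` be normal with abelian factor group `G / K`, with point stabilisers `2`-groups, and of
order prime to `P2 ≠ 1`.  Then `P1 ∣ |K|`.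
PROOF. Suppose not.  There are a prime `q` and `b ≥ 1` with `q^b ∣ P1`, `¬ q^b ∣ |K|`
(`Nat.dvd_iff_prime_pow_dvd_dvd`), and a prime `r ∣ P2`; `q`, `r` are odd and `q ≠ r`
(`Dat.coprime`).  Let `L = K ⊔ MulAction.stabilizer G x₀`.  `L ⊇ K` contains all commutators, so `L`
is normal, and contains `MulAction.stabilizer G y` for all `y` (`y = g • x₀`:
`stabilizer y = g (stabilizer x₀) g⁻¹`).  Orders: `|L| |K ⊓ G_{x₀}| = |K| |G_{x₀}|`
(`Subgroup.card_mul_card...`; `K` normal: `Subgroup.relIndex_sup_left/right`,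
`Subgroup.relIndex_inf..`, or `SRC.card_K`'s proof), `|G| = |G_{x₀}| |V|` (`Sit.card_group`), so
`|K| * L.index = |V| * |K ⊓ G_{x₀}|`, where `|K ⊓ G_{x₀}|` is a power of `2` (`hKst`).
`q^b ∣ P1 ∣ |V|` and `¬ q^b ∣ |K|`, `q` prime: `q ∣ L.index`.  `r ∣ P2 ∣ |V|`, `¬ r ∣ |K|`, so
`r ∣ L.index`.  The quotient `G ⧸ L` is commutative of order `L.index`: it has elements of order `q`
and `r` (Cauchy), whose product has order `q r` (`Commute.orderOf_mul_eq_mul_orderOf_of_coprime`); let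
`g : G` be a preimage.  Then `g ^ k ∈ L ↔ q r ∣ k`.  Write `orderOf g = q^α M`, `¬ q ∣ M`,
`orderOf g = r^β M'`, `¬ r ∣ M'` (`Nat.exists_eq_pow_mul_and_not_dvd`).  `a = g^M ∉ L`,
`a^(q^α) = 1`; `b = g^M' ∉ L`, `b^(r^β) = 1`; `a`, `b` commute; not in `L`, so they fix no point.
`false_of_commuting`. -/
theorem Sit.P1_dvd_K {G V : Type*} [Group G] [Finite G] [MulAction G V] [Finite V] [Nonempty V]
    {B : V → V → Prop} {n : ℕ} (S : Sit G V B n) {s : ℤ} {N1 N2 i j P1 P2 : ℕ}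
    (hs : s = n ∨ s = -n) (d : Dat (Nat.card V) s N1 N2 i j P1 P2) (hP2 : P2 ≠ 1)
    (K : Subgroup G) (hKn : K.Normal) (hab : ∀ a b : G, a * b * a⁻¹ * b⁻¹ ∈ K)
    (hKst : ∀ x : V, IsPGroup 2 ↥(K ⊓ MulAction.stabilizer G x))
    (hrK : ∀ r : ℕ, r.Prime → r ≠ 2 → r ∣ P2 → ¬ r ∣ Nat.card K) : P1 ∣ Nat.card K := by
  classical
  by_contra hcon
  rw [Nat.dvd_iff_prime_pow_dvd_dvd] at hcon
  push Not at hcon
  obtain ⟨q, b, hq, hqb, hqK⟩ := hcon
  obtain ⟨r, hr, hrP⟩ := Nat.exists_prime_and_dvd hP2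
  have hb0 : b ≠ 0 := by
    rintro rfl
    exact hqK (by simp)
  have hqP : q ∣ P1 := (dvd_pow_self q hb0).trans hqb
  have hodd : ∀ {t P : ℕ}, Odd P → t ∣ P → t ≠ 2 := by
    rintro t P hP ht rfl
    exact (Nat.not_even_iff_odd.2 hP) (even_iff_two_dvd.2 ht)
  have hq2 : q ≠ 2 := hodd d.odd1 hqP
  have hr2 : r ≠ 2 := hodd d.odd2 hrP
  have hqr : q ≠ r := by
    rintro rfl
    have h4 := Nat.dvd_gcd hqP hrP
    rw [Nat.coprime_iff_gcd_eq_one.1 d.coprime] at h4
    exact hq.one_lt.ne' (Nat.dvd_one.1 h4)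
  have hrK' : ¬ r ∣ Nat.card K := hrK r hr hr2 hrP
  obtain ⟨x₀⟩ := (inferInstance : Nonempty V)
  set St := MulAction.stabilizer G x₀ with hSt
  set L : Subgroup G := St ⊔ K with hL
  have hKL : K ≤ L := le_sup_right
  have hLn : L.Normal := by
    refine ⟨fun u hu g => ?_⟩
    have h1 := hKL (hab g u)
    have h2 := L.mul_mem h1 hu
    rwa [inv_mul_cancel_right] at h2
  have hstab : ∀ g : G, g ∉ L → ∀ x : V, g • x ≠ x := by
    intro g hg x hx
    apply hg
    obtain ⟨u, hu⟩ := S.trans x₀ x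
    have h1 : u⁻¹ * g * u ∈ L := by
      apply le_sup_left (a := St) (b := K)
      show (u⁻¹ * g * u) • x₀ = x₀
      rw [mul_smul, hu, mul_smul, hx, ← hu, inv_smul_smul]
    have h2 := hLn.conj_mem _ h1 u
    have h3 : u * (u⁻¹ * g * u) * u⁻¹ = g := by group
    rwa [h3] at h2
  -- orders
  have hcard : Nat.card K * L.index = Nat.card V * Nat.card ↥(K ⊓ St) := by
    have e1 := Subgroup.card_mul_index K
    have e2 := Subgroup.relIndex_mul_index hKL
    have e3 : K.relIndex L = K.relIndex St := Subgroup.relIndex_sup_right St K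
    have e4 := Subgroup.relIndex_mul_relIndex (⊥ : Subgroup G) (K ⊓ St) St bot_le inf_le_right
    rw [Subgroup.relIndex_bot_left, Subgroup.relIndex_bot_left, Subgroup.inf_relIndex_right] at e4
    have e5 := S.card_group x₀
    have e6 : 0 < K.relIndex St := by
      rcases Nat.eq_zero_or_pos (K.relIndex St) with h | h
      · rw [h, mul_zero] at e4
        exact absurd e4.symm (Nat.card_pos (α := St)).ne'
      · exact h
    apply Nat.eq_of_mul_eq_mul_left e6
    calc K.relIndex St * (Nat.card K * L.index) = Nat.card K * (K.relIndex St * L.index) := by ring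
      _ = Nat.card G := by rw [← e3, e2, e1]
      _ = Nat.card St * Nat.card V := e5
      _ = Nat.card ↥(K ⊓ St) * K.relIndex St * Nat.card V := by rw [e4]
      _ = K.relIndex St * (Nat.card V * Nat.card ↥(K ⊓ St)) := by ring
  have hV := d.card_eq
  have hP1V : P1 ∣ Nat.card V := by
    rw [hV]
    exact Dvd.dvd.mul_left (dvd_mul_right _ _) _
  have hP2V : P2 ∣ Nat.card V := by
    rw [hV]
    exact Dvd.dvd.mul_left (dvd_mul_left _ _) _
  have hqL : q ∣ L.index := by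
    by_contra hne
    apply hqK
    have h1 : q ^ b ∣ Nat.card K * L.index := by
      rw [hcard]
      exact (hqb.trans hP1V).mul_right _
    exact (Nat.Coprime.pow_left b ((Nat.Prime.coprime_iff_not_dvd hq).2 hne)).dvd_of_dvd_mul_right h1
  have hrL : r ∣ L.index := by
    have h1 : r ∣ Nat.card K * L.index := by
      rw [hcard]
      exact (hrP.trans hP2V).mul_right _
    exact ((Nat.Prime.dvd_mul hr).1 h1).resolve_left hrK'
  rw [Subgroup.index_eq_card] at hqL hrL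
  have hfq : Fact q.Prime := ⟨hq⟩
  have hfr : Fact r.Prime := ⟨hr⟩
  obtain ⟨u, hu⟩ := exists_prime_orderOf_dvd_card' q hqL
  obtain ⟨w, hw⟩ := exists_prime_orderOf_dvd_card' r hrL
  have huw : Commute u w := by
    obtain ⟨u', rfl⟩ := QuotientGroup.mk_surjective u
    obtain ⟨w', rfl⟩ := QuotientGroup.mk_surjective w
    show (u' : G ⧸ L) * (w' : G ⧸ L) = (w' : G ⧸ L) * (u' : G ⧸ L)
    rw [← QuotientGroup.mk_mul, ← QuotientGroup.mk_mul]
    apply Eq.symm
    rw [QuotientGroup.eq]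
    have h1 := hKL (hab u'⁻¹ w'⁻¹)
    have h3 : (w' * u')⁻¹ * (u' * w') = u'⁻¹ * w'⁻¹ * u'⁻¹⁻¹ * w'⁻¹⁻¹ := by group
    rw [h3]
    exact h1
  have hcop : Nat.Coprime (orderOf u) (orderOf w) := by
    rw [hu, hw]
    exact (Nat.coprime_primes hq hr).2 hqr
  have hord := huw.orderOf_mul_eq_mul_orderOf_of_coprime hcop
  rw [hu, hw] at hord
  obtain ⟨g, hg⟩ := QuotientGroup.mk_surjective (u * w)
  have hgL : ∀ k : ℕ, g ^ k ∈ L → q * r ∣ k := by
    intro k hk
    rw [← hord, orderOf_dvd_iff_pow_eq_one, ← hg, ← QuotientGroup.mk_pow]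
    exact (QuotientGroup.eq_one_iff _).2 hk
  have hog : orderOf g ≠ 0 := (orderOf_pos g).ne'
  obtain ⟨α, M, hM, hαM⟩ := Nat.exists_eq_pow_mul_and_not_dvd hog q hq.one_lt.ne'
  obtain ⟨β, M', hM', hβM⟩ := Nat.exists_eq_pow_mul_and_not_dvd hog r hr.one_lt.ne'
  refine false_of_commuting S.geo S.aut hs d q r hq hr hq2 hr2 hqP hrP (g ^ M) (g ^ M')
    (pow_mul_comm g M M') α β ?_ ?_ (hstab _ fun h => hM ?_) (hstab _ fun h => hM' ?_)
  · rw [← pow_mul, mul_comm, ← hαM, pow_orderOf_eq_one]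
  · rw [← pow_mul, mul_comm, ← hβM, pow_orderOf_eq_one]
  · exact (dvd_mul_right q r).trans (hgL M h)
  · exact (dvd_mul_left r q).trans (hgL M' h)

end SRV
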