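import Pool.Agent.SRV.Defs2

set_option autoImplicit false

namespace SRV

open SRT SRC

variable {G V : Type*} [Group G] [Finite G] [MulAction G V] [Finite V] [Nonempty V]
  {B : V → V → Prop} {n : ℕ}

/-- `2 ^ a ∣ 2 ^ b * P`, `P` odd -/
private theorem h4_le_of_two_pow_dvd {a b P : ℕ} (hP : Odd P) (h : 2 ^ a ∣ 2 ^ b * P) : a ≤ b := by
  have h1 : Nat.Coprime (2 ^ a) P := Nat.Coprime.pow_left _ (Nat.coprime_two_left.2 hP)
  exact (Nat.pow_dvd_pow_iff_le_right (by norm_num)).1 (h1.dvd_of_dvd_mul_right h)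

/-- Basic data of a normal `2`-subgroup.
PROOF. `h = |Q ⊓ G_{x₀}|`, `Sit.card_stab_eq`, `Sit.exists_a` (B4.lean); `2^a ∣ |V|` and `|V| = 2^(i+j-1) (P1 P2)`
(`Dat.card_eq`), `SRT.le_of_two_pow_dvd` is in Pool/Agent/SRT/H1.lean (copy it): `a ≤ i + j - 1`. -/
theorem Sit.exists_a_eta (S : Sit G V B n) {s : ℤ} {N1 N2 i j P1 P2 : ℕ}
    (d : Dat (Nat.card V) s N1 N2 i j P1 P2) (Q : Subgroup G) (hQn : Q.Normal)
    (hQ2 : IsPGroup 2 Q) :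
    ∃ a η : ℕ, (∀ x : V, Nat.card ↥(Q ⊓ MulAction.stabilizer G x) = 2 ^ η) ∧
      Nat.card Q = 2 ^ a * 2 ^ η ∧ a ≤ i + j - 1 := by
  obtain ⟨x₀⟩ := (inferInstance : Nonempty V)
  obtain ⟨a, η, h1, h2, h3⟩ := S.exists_a Q hQn hQ2
    (Nat.card ↥(Q ⊓ MulAction.stabilizer G x₀)) (fun x => S.card_stab_eq Q hQn x x₀)
  refine ⟨a, η, fun x => ?_, ?_, ?_⟩
  · rw [S.card_stab_eq Q hQn x x₀, h2]
  · rw [h1, h2]
  · apply h4_le_of_two_pow_dvd (d.odd1.mul d.odd2)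
    rw [← d.card_eq]
    exact h3

/-- A normal `2`-subgroup is semiregular if `P2 ≠ 1`.
PROOF. `exists_a_eta`; if `η ≥ 1`: `SRT.h_eq_one` (Pool/Agent/SRT/F2a.lean) with `Sit.ineq1` (C3.lean)
and `Sit.ineq2` (C4c.lean) for `h = 2 ^ η` (compare `Sit.ineq2'` in Pool/Agent/SRT/H1.lean). -/
theorem Sit.semireg (S : Sit G V B n) {s : ℤ} {N1 N2 i j P1 P2 : ℕ} (hs : s = n ∨ s = -n)
    (d : Dat (Nat.card V) s N1 N2 i j P1 P2) (hP2 : P2 ≠ 1) (Q : Subgroup G) (hQn : Q.Normal)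
    (hQ2 : IsPGroup 2 Q) :
    ∃ a : ℕ, Nat.card Q = 2 ^ a ∧ a ≤ i + j - 1 ∧
      ∀ x : V, Nat.card ↥(Q ⊓ MulAction.stabilizer G x) = 1 := by
  obtain ⟨a, η, hh, hcQ, ha⟩ := S.exists_a_eta d Q hQn hQ2
  have hn5 : 5 ≤ n := by
    have h3 := d.hs
    have h4 : |s| = (n : ℤ) := by
      rcases hs with h | h
      · rw [h, Nat.abs_cast]
      · rw [h, abs_neg, Nat.abs_cast]
    rw [h4] at h3
    exact_mod_cast h3
  have hη : η = 0 := by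
    by_contra hne
    refine h_eq_one d n hs a η ha hP2 (by omega) ?_ ?_
    · have := S.ineq1 (by omega) Q a (2 ^ η) hh hcQ
      push_cast at this
      exact this
    · exact S.ineq2 Q hQ2 a (2 ^ η) hh hcQ
  subst hη
  refine ⟨a, ?_, ha, fun x => ?_⟩
  · rw [hcQ, pow_zero, mul_one]
  · rw [hh x, pow_zero]

/-- PROOF. `Sit.card_fix_le` (B2.lean) with `h = 1` gives `≤ 2 ^ i`, and the order is a power
of `2` (`hQ2`), so it divides `2 ^ i`. -/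
theorem Sit.card_cent_dvd (S : Sit G V B n) {v : ℕ} {s : ℤ} {N1 N2 i j P1 P2 : ℕ}
    (d : Dat v s N1 N2 i j P1 P2) (Q : Subgroup G) (hQ2 : IsPGroup 2 Q)
    (hst : ∀ x : V, Nat.card ↥(Q ⊓ MulAction.stabilizer G x) = 1) (w : G) (hw : NN B w = N1) :
    Nat.card ↥(Q ⊓ Subgroup.centralizer ({w} : Set G)) ∣ 2 ^ i := by
  have h1 := S.card_fix_le Q hQ2 1 (fun x => (hst x).le) w i P1 d.odd1 (by rw [hw, d.h1])
  rw [mul_one] at h1
  have h2 : IsPGroup 2 ↥(Q ⊓ Subgroup.centralizer ({w} : Set G)) := hQ2.to_le inf_le_left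
  obtain ⟨c, hc⟩ := (IsPGroup.iff_card (p := 2)).1 h2
  rw [hc] at h1 ⊢
  exact pow_dvd_pow 2 ((Nat.pow_le_pow_iff_right (by norm_num)).1 h1)

end SRV
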