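import Pool.Agent.SRV.H3
import Pool.Agent.SRV.H4
import Pool.Agent.SRV.H5

set_option autoImplicit false

namespace SRV

open SRT SRC

/-- the number of elements of `Q` outside a subgroup `F ≤ Q` -/
private theorem h8_card {G : Type*} [Group G] [Finite G] (Q F : Subgroup G) (hFQ : F ≤ Q) :
    Nat.card Q = Nat.card F + Nat.card {u : G // u ∈ Q ∧ u ∉ F} := by
  classical
  have e1 : Nat.card Q = Nat.card {u : G // u ∈ Q} := rfl
  have e2 : Nat.card F = Nat.card {u : G // u ∈ Q ∧ u ∈ F} := by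
    apply Nat.card_congr
    exact Equiv.subtypeEquivRight (fun u => ⟨fun h => ⟨hFQ h, h⟩, fun h => h.2⟩)
  rw [e1, e2]
  rw [← Nat.card_sum]
  apply Nat.card_congr
  refine
    { toFun := fun u => if h : u.1 ∈ F then Sum.inl ⟨u.1, u.2, h⟩ else Sum.inr ⟨u.1, u.2, h⟩
      invFun := fun w => Sum.elim (fun a => ⟨a.1, a.2.1⟩) (fun a => ⟨a.1, a.2.1⟩) w
      left_inv := ?_
      right_inv := ?_ }
  · intro u
    by_cases h : u.1 ∈ F <;> simp [h]
  · rintro (w | w)
    · simp [w.2.2]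
    · simp [w.2.2]

/-- two divisors of `4` that agree modulo a number `≥ 7` are equal -/
private theorem h8_eq {a b p : ℕ} (ha : a ∣ 4) (hb : b ∣ 4) (hp : 7 ≤ p) (h : a ≡ b [MOD p]) :
    a = b := by
  have ha' := Nat.le_of_dvd (by norm_num) ha
  have hb' := Nat.le_of_dvd (by norm_num) hb
  rw [Nat.ModEq, Nat.mod_eq_of_lt (by omega), Nat.mod_eq_of_lt (by omega)] at h
  exact h

/-- PROOF. Let `Y ≤ K` be a subgroup of order `q^b` (`Sylow.exists_subgroup_card_pow_prime` in
`↥K`, mapped to `G`).  `q ∣ P1`, so `q` is odd and `q ≥ 7` (`Dat.seven_le`), also `p ∣ P1`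
(`Rad.dvd_P1`) and `p ≥ 7`.  `exists_comm` (G2.lean) gives `z ∈ R` of order `p` commuting with `Y`.
`C₀ = Q ⊓ centralizer {z}`.  `NN B z = N1` (`NN_N1`), so `|C₀| ∣ 2^i ∣ 4` (`Sit.card_cent_dvd`,
`d.hi`).
Let `s ∈ Y`, `s ≠ 1`.  `s` has odd order (`q`-power), lies in `K`, so it is free
(`free_of_stab_two`), `NN B s = N1` (`NN_N1`), so `C_s = Q ⊓ centralizer {s}` has order dividing `4`.
`z` normalises `C_s` (`z s = s z`, `Q` normal): by `SRC.card_inf_centralizer_modEq`
(Pool/Agent/SRC/A2.lean) `|C_s ⊓ centralizer {z}| ≡ |C_s| (mod p)`, both in `{1, 2, 4}`, `p ≥ 7`, so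
they are equal, so `C_s ≤ C₀`.  `s` normalises `C₀`, `Y` has `s ^ (q ^ b) = 1`: likewise (apply
`card_inf_centralizer_modEq` to the element `s' ` ... or use that the `q`-group `zpowers s` acts on the
set `C₀`, `IsPGroup.card_modEq_card_fixedPoints`) `C₀ ≤ C_s`.  So `C_s = C₀`.
`Y` acts by conjugation on the set `{g : G // g ∈ Q ∧ g ∉ C₀}` (`Y` commutes with `z`), with trivial
stabilisers: if `s ∈ Y`, `s ≠ 1` fixes `g` then `g ∈ C_s = C₀`.  So `q^b = |Y|` divides
`|Q| - |C₀|` (`SRC.free_dvd`, Pool/Agent/SRC/C3.lean). -/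
theorem Rad.pow_dvd {G V : Type*} [Group G] [Finite G] [MulAction G V] [Finite V] [Nonempty V]
    {B : V → V → Prop} {n : ℕ} (S : Sit G V B n) {Q R : Subgroup G} {p : ℕ} (hr : Rad V Q R p)
    {s : ℤ} {N1 N2 i j P1 P2 : ℕ} (hs : s = n ∨ s = -n)
    (d : Dat (Nat.card V) s N1 N2 i j P1 P2)
    (hQst : ∀ x : V, Nat.card ↥(Q ⊓ MulAction.stabilizer G x) = 1) (K : Subgroup G)
    (hK : ∀ g ∈ K, ∀ r ∈ R, g * r * g⁻¹ * r⁻¹ ∈ Q)
    (hKst : ∀ x : V, IsPGroup 2 ↥(K ⊓ MulAction.stabilizer G x)) (q b : ℕ) (hq : q.Prime)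
    (hqP : q ∣ P1) (hqb : q ^ b ∣ Nat.card K) :
    ∃ z ∈ R, orderOf z = p ∧
      q ^ b ∣ Nat.card Q - Nat.card ↥(Q ⊓ Subgroup.centralizer ({z} : Set G)) := by
  classical
  have hQn := hr.normal
  have hpP := hr.dvd_P1 S hs d
  have hp7 : 7 ≤ p := d.seven_le hr.prime hr.ne_two (Or.inl hpP)
  have hq2 : q ≠ 2 := SRC.n2_not_two_dvd d.odd1 hqP
  have hi4 : (2 : ℕ) ^ i ∣ 4 := by
    rcases d.hi with h | h <;> rw [h] <;> norm_num
  have hfq : Fact q.Prime := ⟨hq⟩
  obtain ⟨Y0, hY0⟩ := Sylow.exists_subgroup_card_pow_prime (G := K) q hqb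
  set Y : Subgroup G := Y0.map K.subtype with hYdef
  have hYcard : Nat.card Y = q ^ b := by
    rw [← hY0]
    exact (Nat.card_congr (Y0.equivMapOfInjective _ K.subtype_injective).toEquiv).symm
  have hYK : Y ≤ K := Subgroup.map_subtype_le Y0
  have hqY : IsPGroup q Y := IsPGroup.of_card hYcard
  obtain ⟨z, hzR, hz, hzc⟩ := exists_comm Q R hQn hr.two p hr.prime hr.ne_two hr.elem q hq hq2 Y hqY
    (fun y hy x hx => hK y (hYK hy) x hx)
  refine ⟨z, hzR, hz, ?_⟩
  have hz1 : z ≠ 1 := by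
    rintro rfl
    rw [orderOf_one] at hz
    exact hr.prime.one_lt.ne hz
  have hzp : z ^ p = 1 := by rw [← hz]; exact pow_orderOf_eq_one z
  set F := Q ⊓ Subgroup.centralizer ({z} : Set G) with hF
  have hFmem : ∀ u : G, u ∈ F ↔ u ∈ Q ∧ u * z = z * u := by
    intro u
    rw [hF, Subgroup.mem_inf, Subgroup.mem_centralizer_singleton_iff]
  let X := {u : G // u ∈ Q ∧ u ∉ F}
  have hinv : ∀ y ∈ (Y : Subgroup G), ∀ u : G, (u ∈ Q ∧ u ∉ F) →
      (y * u * y⁻¹ ∈ Q ∧ y * u * y⁻¹ ∉ F) := by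
    intro y hy u hu
    refine ⟨hQn.conj_mem u hu.1 y, ?_⟩
    intro hcon
    apply hu.2
    rw [hFmem] at hcon ⊢
    refine ⟨hu.1, ?_⟩
    have h1 := hcon.2
    have h2 := hzc y hy
    have h3 : y⁻¹ * z = z * y⁻¹ := by
      have := congrArg (fun t => y⁻¹ * t * y⁻¹) h2
      simp only [mul_assoc] at this
      simpa [mul_assoc] using this.symm
    calc u * z = y⁻¹ * (y * u * y⁻¹) * (y * z) := by group
      _ = y⁻¹ * (y * u * y⁻¹) * (z * y) := by rw [h2]
      _ = y⁻¹ * ((y * u * y⁻¹) * z) * y := by group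
      _ = y⁻¹ * (z * (y * u * y⁻¹)) * y := by rw [h1]
      _ = (y⁻¹ * z) * y * u := by group
      _ = (z * y⁻¹) * y * u := by rw [h3]
      _ = z * u := by group
  letI : MulAction (Y : Subgroup G) X :=
    { smul := fun y u => ⟨(y : G) * u.1 * (y : G)⁻¹, hinv y y.2 u.1 u.2⟩
      one_smul := by
        intro u
        apply Subtype.ext
        change (1 : G) * u.1 * (1 : G)⁻¹ = u.1
        simp
      mul_smul := by
        intro y y' u
        apply Subtype.ext
        change ((y * y' : (Y : Subgroup G)) : G) * u.1 * ((y * y' : (Y : Subgroup G)) : G)⁻¹ =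
          (y : G) * ((y' : G) * u.1 * (y' : G)⁻¹) * (y : G)⁻¹
        push_cast
        group }
  have hfree : ∀ u : X, MulAction.stabilizer (Y : Subgroup G) u = ⊥ := by
    intro u
    rw [Subgroup.eq_bot_iff_forall]
    intro y hy
    rw [MulAction.mem_stabilizer_iff] at hy
    have hyu : (y : G) * u.1 * (y : G)⁻¹ = u.1 := congrArg Subtype.val hy
    by_contra hy1
    -- a power of order `q`
    obtain ⟨k, hk⟩ := (IsPGroup.iff_orderOf (p := q)).1 hqY y
    have hk0 : k ≠ 0 := by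
      rintro rfl
      rw [pow_zero, orderOf_eq_one_iff] at hk
      exact hy1 hk
    have hyk : orderOf (y : G) = q ^ k := by rw [Subgroup.orderOf_coe, hk]
    set y' : G := (y : G) ^ (q ^ (k - 1)) with hy'
    have hoy' : orderOf y' = q := by
      have h1 : q ^ k = q ^ (k - 1) * q := by
        rw [← pow_succ, Nat.sub_add_cancel (Nat.one_le_iff_ne_zero.2 hk0)]
      rw [hy', orderOf_pow_of_dvd (pow_pos hq.pos _).ne' (by rw [hyk, h1]; exact dvd_mul_right _ _),
        hyk, h1, Nat.mul_div_cancel_left _ (pow_pos hq.pos _)]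
    have hy'c : y' * z = z * y' := by
      have h1 : Commute z (y : G) := (hzc y y.2).symm
      exact (h1.pow_right _).symm
    have hy'u : y' * u.1 = u.1 * y' := by
      have h1 : Commute (y : G) u.1 := by
        have h2 := congrArg (fun t => t * (y : G)) hyu
        simpa [Commute, SemiconjBy, mul_assoc] using h2
      exact h1.pow_left _
    have hy'K : y' ∈ K := hYK (Y.pow_mem y.2 _)
    have hy'1 : y' ≠ 1 := by
      intro h
      rw [h, orderOf_one] at hoy'
      exact hq.one_lt.ne hoy'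
    have hfr : ∀ x : V, y' • x ≠ x := fun x =>
      free_of_stab_two K hKst y' hy'K (by rw [hoy']; exact hq.odd_of_ne_two hq2) hy'1 x
    have hNN : NN B y' = N1 := NN_N1 S.geo S.aut hs d q hq hq2 hqP 1 y'
      (by rw [pow_one, ← hoy']; exact pow_orderOf_eq_one y') hfr
    set C := Q ⊓ Subgroup.centralizer ({y'} : Set G) with hC
    have hCmem : ∀ u : G, u ∈ C ↔ u ∈ Q ∧ u * y' = y' * u := by
      intro u
      rw [hC, Subgroup.mem_inf, Subgroup.mem_centralizer_singleton_iff]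
    have hC4 : Nat.card C ∣ 4 := (S.card_cent_dvd d Q hr.two hQst y' hNN).trans hi4
    have hCz : Nat.card ↥(C ⊓ Subgroup.centralizer ({z} : Set G)) ∣ 4 :=
      (Subgroup.card_dvd_of_le inf_le_left).trans hC4
    have hmod := SRC.card_inf_centralizer_modEq C z p hr.prime hzp (by
      intro h hh
      rw [hCmem] at hh ⊢
      refine ⟨hQn.conj_mem h hh.1 z, ?_⟩
      have h1 : Commute y' z := hy'c
      have h2 : Commute h y' := hh.2
      have h3 : Commute (z * h * z⁻¹) y' := by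
        apply Commute.mul_left
        · exact h1.symm.mul_left h2
        · exact h1.symm.inv_left
      exact h3)
    have heq := h8_eq hCz hC4 hp7 hmod
    have hle : C ⊓ Subgroup.centralizer ({z} : Set G) = C :=
      Subgroup.eq_of_le_of_card_ge inf_le_left heq.ge
    have huC : u.1 ∈ C := by
      rw [hCmem]
      exact ⟨u.2.1, hy'u.symm⟩
    rw [← hle] at huC
    apply u.2.2
    rw [hFmem]
    exact ⟨u.2.1, Subgroup.mem_centralizer_singleton_iff.1 huC.2⟩
  have hdvd := free_dvd hfree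
  have h1 := h8_card Q F inf_le_left
  rw [h1, Nat.add_sub_cancel_left, ← hYcard]
  exact hdvd


end SRV
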