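import Pool.Agent.SRV.Defs

set_option autoImplicit false

namespace SRV

open SRC

private theorem h9_P2 {v : ℕ} {s : ℤ} {N1 N2 i j P1 P2 : ℕ} (d : SRC.Dat v s N1 N2 i j P1 P2)
    (hP2 : P2 ≠ 1) : P2 = 7 ∨ 11 ≤ P2 := by
  have hpr : ∀ p : ℕ, p.Prime → p ∣ P2 → 7 ≤ p := by
    intro p hp hd
    exact d.seven_le hp (SRC.n2_not_two_dvd d.odd2 hd) (Or.inr hd)
  have h7 : 7 ≤ P2 := by
    obtain ⟨p, hp, hd⟩ := Nat.exists_prime_and_dvd hP2
    have h0 : 0 < P2 := Nat.pos_of_ne_zero (by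
      intro h
      have := d.odd2
      rw [h] at this
      exact absurd this (by decide))
    exact (hpr p hp hd).trans (Nat.le_of_dvd h0 hd)
  by_contra hcon
  push Not at hcon
  obtain ⟨h1, h2⟩ := hcon
  have hodd := d.odd2
  interval_cases P2
  · exact h1 rfl
  · exact absurd hodd (by decide)
  · exact absurd (hpr 3 (by norm_num) (by norm_num)) (by norm_num)
  · exact absurd hodd (by decide)

/-- Pure arithmetic.
PROOF. `P2 ≥ 7` and `P2 = 7` or `P2 ≥ 11` (`P2` odd, `Dat.seven_le`; see `f2a_P2` in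
Pool/Agent/SRT/F2a.lean, copy it).  Let `n = |s| ≥ 5`; `N1, N2` lie between `n^2 - n + 2` and
`n^2 + n + 2`, so `11 N2 ≤ 16 N1` (`11 (n^2+n+2) ≤ 16 (n^2-n+2)`, i.e. `5 n^2 - 27 n + 10 ≥ 0`, true for
`n ≥ 5`: `125 - 135 + 10 = 0`).  `2^t - 1 = w P1`, `w ≥ 1` (`t ≥ 1`).
`2^t ≤ 2^(i+j-1)`, so `2 P2 2^t ≤ 2^i 2^j P2 = 2^i N2`, and `2^i w P1 < 2^i 2^t`, i.e.
`w N1 < 2^i 2^t`.  So `2 P2 w N1 < 2^i 2^i N2 ≤ 2^(2i) (16/11) N1`, `22 P2 w < 16 · 4^i`.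
`i = 1`: `154 < 64`, contradiction.  `i = 2`: `22 P2 w < 256`, so `P2 w ≤ 11`: `w = 1`
(and `P2 = 7` or `P2 = 11`).  So `P1 = 2^t - 1`, `N1 = 4 (2^t - 1)`.
`t ≤ i + j - 1 = j + 1`.  Let `j = t - 1 + k` (`t ≥ 1`), `X = 2^(t-1)`:
`N1 = 8 X - 4`, `N2 = P2 2^k X`.  `2 s = N2 - N1` (`e1`, `e2`).
If `k = 0`, `P2 = 7`: `2 s = 4 - X`; so `4 N1 = (2 s)^2 - 2 (2 s) + 8` gives
`32 X - 16 = (4-X)^2 - 2 (4-X) + 8 = X^2 - 6 X + 16`, i.e. `X^2 - 38 X + 32 = 0`, impossible for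
integers (`X ∣ 32` and check, or `(X-19)^2 = 329`, `18^2 < 329 < 19^2`).
Otherwise `P2 2^k ≥ 11`, `N2 ≥ 11 X`, so `2 s ≥ 3 X + 4`, and
`32 X - 16 = 4 N1 = (2 s)^2 - 2 (2 s) + 8 ≥ (3X+4)^2 - 2 (3X+4) + 8 = 9 X^2 + 18 X + 16`
(`u^2 - 2 u` is increasing for `u ≥ 1`), i.e. `9 X^2 - 14 X + 32 ≤ 0`: impossible
(`196 - 1152 < 0`). -/
theorem false_of_arith {v : ℕ} {s : ℤ} {N1 N2 i j P1 P2 : ℕ} (d : Dat v s N1 N2 i j P1 P2)
    (hP2 : P2 ≠ 1) (t : ℕ) (ht : 1 ≤ t) (hti : t ≤ i + j - 1) (hP : P1 ∣ 2 ^ t - 1) : False := by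
  have hcase := h9_P2 d hP2
  have hP7 : 7 ≤ P2 := by omega
  obtain ⟨w, hw⟩ := hP
  have h2t : 1 ≤ 2 ^ t := Nat.one_le_two_pow
  have h2t2 : 2 ≤ 2 ^ t := by
    calc 2 = 2 ^ 1 := rfl
      _ ≤ 2 ^ t := Nat.pow_le_pow_right (by norm_num) ht
  have hw' : P1 * w + 1 = 2 ^ t := by omega
  have hwpos : 1 ≤ w := by
    rcases Nat.eq_zero_or_pos w with h | h
    · subst h
      simp at hw'
      omega
    · exact h
  have hs5 : s ≤ -5 ∨ 5 ≤ s := by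
    have := d.hs
    rcases abs_cases s with ⟨h, _⟩ | ⟨h, _⟩ <;> rw [h] at this <;> omega
  have hN12 : 11 * (N2 : ℤ) ≤ 16 * N1 := by
    rw [d.e1, d.e2]
    rcases hs5 with h | h <;> nlinarith
  have hN12' : 11 * N2 ≤ 16 * N1 := by exact_mod_cast hN12
  have hN1pos : 0 < N1 := by
    have : (0 : ℤ) < N1 := by
      rw [d.e1]
      nlinarith [sq_nonneg (2 * s - 1)]
    exact_mod_cast this
  have hpow : 2 * 2 ^ t ≤ 2 ^ i * 2 ^ j := by
    rw [← pow_add, ← pow_succ']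
    apply Nat.pow_le_pow_right (by norm_num)
    have := d.hij
    omega
  have hA : 2 * P2 * 2 ^ t ≤ 2 ^ i * N2 := by
    rw [d.h2]
    calc 2 * P2 * 2 ^ t = P2 * (2 * 2 ^ t) := by ring
      _ ≤ P2 * (2 ^ i * 2 ^ j) := Nat.mul_le_mul_left _ hpow
      _ = 2 ^ i * (2 ^ j * P2) := by ring
  have hi2 : 0 < 2 ^ i := by positivity
  have hB : w * N1 < 2 ^ i * 2 ^ t := by
    rw [d.h1, ← hw']
    calc w * (2 ^ i * P1) = 2 ^ i * (P1 * w) := by ring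
      _ < 2 ^ i * (P1 * w + 1) := Nat.mul_lt_mul_of_pos_left (by omega) hi2
  have hC : 2 * P2 * (w * N1) < 2 ^ i * (2 ^ i * N2) := by
    calc 2 * P2 * (w * N1) < 2 * P2 * (2 ^ i * 2 ^ t) := Nat.mul_lt_mul_of_pos_left hB (by omega)
      _ = 2 ^ i * (2 * P2 * 2 ^ t) := by ring
      _ ≤ 2 ^ i * (2 ^ i * N2) := Nat.mul_le_mul_left _ hA
  have hD : (22 * P2 * w) * N1 < (16 * (2 ^ i * 2 ^ i)) * N1 := by
    calc (22 * P2 * w) * N1 = 11 * (2 * P2 * (w * N1)) := by ring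
      _ < 11 * (2 ^ i * (2 ^ i * N2)) := Nat.mul_lt_mul_of_pos_left hC (by norm_num)
      _ = (2 ^ i * 2 ^ i) * (11 * N2) := by ring
      _ ≤ (2 ^ i * 2 ^ i) * (16 * N1) := Nat.mul_le_mul_left _ hN12'
      _ = (16 * (2 ^ i * 2 ^ i)) * N1 := by ring
  have hE : 22 * P2 * w < 16 * (2 ^ i * 2 ^ i) := lt_of_mul_lt_mul_right hD (Nat.zero_le _)
  have hPw : 22 * 7 * w ≤ 22 * P2 * w := Nat.mul_le_mul_right _ (by omega)
  rcases d.hi with hi | hi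
  · rw [hi] at hE
    norm_num at hE
    omega
  · rw [hi] at hE
    norm_num at hE
    have hw1 : w = 1 := by omega
    subst hw1
    obtain ⟨t', rfl⟩ : ∃ t', t = t' + 1 := ⟨t - 1, by omega⟩
    obtain ⟨k, hk⟩ : ∃ k, j = t' + k := ⟨j - t', by omega⟩
    obtain ⟨X, hX⟩ : ∃ X : ℕ, X = 2 ^ t' := ⟨_, rfl⟩
    have hXpos : 1 ≤ X := by rw [hX]; exact Nat.one_le_two_pow
    have hN1 : (N1 : ℤ) = 8 * X - 4 := by
      have h1 : N1 = 4 * P1 := by rw [d.h1, hi]; norm_num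
      have h2 : P1 + 1 = 2 * X := by rw [hX]; rw [pow_succ] at hw'; omega
      rw [h1]
      push_cast
      have : (P1 : ℤ) + 1 = 2 * X := by exact_mod_cast h2
      linarith
    have hN2 : N2 = X * 2 ^ k * P2 := by rw [d.h2, hk, pow_add, hX]
    have e1 := d.e1
    have e2 := d.e2
    by_cases hcc : k = 0 ∧ P2 = 7
    · obtain ⟨hk0, hP⟩ := hcc
      have hN2' : (N2 : ℤ) = 7 * X := by
        rw [hN2, hk0, hP]
        push_cast
        ring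
      have h2s : 2 * s = 4 - X := by linarith
      have hq : ((X : ℤ) - 19) ^ 2 = 329 := by
        have h5 : 4 * (N1 : ℤ) = (2 * s) ^ 2 - 2 * (2 * s) + 8 := by rw [e1]; ring
        rw [h2s, hN1] at h5
        linarith [h5]
      rcases le_or_gt 0 ((X : ℤ) - 19) with h | h
      · have h6 : (X : ℤ) - 19 ≤ 18 ∨ 19 ≤ (X : ℤ) - 19 := by omega
        rcases h6 with h6 | h6 <;> nlinarith
      · have h6 : -18 ≤ (X : ℤ) - 19 ∨ (X : ℤ) - 19 ≤ -19 := by omega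
        rcases h6 with h6 | h6 <;> nlinarith
    · have h11 : 11 ≤ 2 ^ k * P2 := by
        rcases Nat.eq_zero_or_pos k with h | h
        · subst h
          simp at hcc ⊢
          omega
        · have : 2 ≤ 2 ^ k := by
            calc 2 = 2 ^ 1 := rfl
              _ ≤ 2 ^ k := Nat.pow_le_pow_right (by norm_num) h
          nlinarith
      have hN2' : 11 * (X : ℤ) ≤ N2 := by
        have : 11 * X ≤ N2 := by
          rw [hN2, mul_assoc, mul_comm]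
          exact Nat.mul_le_mul_left _ h11
        exact_mod_cast this
      have h2s : 3 * (X : ℤ) + 4 ≤ 2 * s := by linarith
      have hX1 : (1 : ℤ) ≤ X := by exact_mod_cast hXpos
      have h5 : 4 * (N1 : ℤ) = (2 * s) ^ 2 - 2 * (2 * s) + 8 := by rw [e1]; ring
      rw [hN1] at h5
      nlinarith [h5, h2s, hX1]


end SRV
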