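import Pool.Agent.SRV.G4
import Pool.Agent.SRV.G5
import Pool.Agent.SRV.H6
import Pool.Agent.SRV.H7
import Pool.Agent.SRV.H8
import Pool.Agent.SRV.H9
import Pool.Agent.SRC.C1a

set_option autoImplicit false

namespace SRV

open SRT SRC

universe u

/-- The case `P2 ≠ 1` (assembly).
PROOF. `Q` semiregular, `|Q| = 2^a`, `a ≤ i+j-1` (`Sit.semireg`).  `p ∣ P1` (`Rad.dvd_P1`), `p ≥ 7`
(`Dat.seven_le`).  For `z ∈ R` of order `p`: `NN B z = N1` (`NN_N1`, `hr.free`), so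
`|Q ⊓ C(z)| ∣ 2^i ∣ 4` (`Sit.card_cent_dvd`, `d.hi`).  `card_R` (G4.lean, `hr.nc`): `|R| = p |Q|`.
`SRC.exists_K` (Pool/Agent/SRC/C1a.lean) gives `K`.  `Rad.stab_two`, `Rad.not_dvd_K`,
`Sit.P1_dvd_K`: `P1 ∣ |K|`.  `R` has an element `z₀` of order `p` (`SRC.lift_order`); let
`c = |Q ⊓ C(z₀)|`.  For every prime power `q^b ∣ P1` (`b ≥ 1`): `Rad.pow_dvd` and `card_cent_eq`
(G5.lean, `p ∤ |Q|`) give `q^b ∣ |Q| - c`.  So `P1 ∣ |Q| - c` (`Nat.dvd_iff_prime_pow_dvd_dvd`).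
`exists_t_nc` (G0.lean, `hr.nc`): `2^t c = |Q|`, `t ≥ 1`; `|Q| - c = (2^t - 1) c`, `c` a power of `2`
(divides `|Q|`), `P1` odd: `P1 ∣ 2^t - 1`; `t ≤ a`.  `false_of_arith`. -/
theorem Rad.false_of_P2 {G : Type*} {V : Type u} [Group G] [Finite G] [MulAction G V] [Finite V]
    [Nonempty V] {B : V → V → Prop} {n : ℕ} (S : Sit G V B n)
    (IH : ∀ N < Nat.card V, TwoRad.{u} N) {Q R : Subgroup G} {p : ℕ} (hr : Rad V Q R p)
    {s : ℤ} {N1 N2 i j P1 P2 : ℕ} (hs : s = n ∨ s = -n)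
    (d : Dat (Nat.card V) s N1 N2 i j P1 P2) (hP2 : P2 ≠ 1) : False := by
  classical
  have hQn := hr.normal
  have hpP := hr.dvd_P1 S hs d
  have hp7 : 7 ≤ p := d.seven_le hr.prime hr.ne_two (Or.inl hpP)
  obtain ⟨a, ha, haij, hQst⟩ := S.semireg hs d hP2 Q hQn hr.two
  have hi4 : (2 : ℕ) ^ i ∣ 4 := by
    rcases d.hi with h | h <;> rw [h] <;> norm_num
  have hne1 : ∀ z : G, orderOf z = p → z ≠ 1 := by
    rintro z hz rfl
    rw [orderOf_one] at hz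
    exact hr.prime.one_lt.ne hz
  have hzp : ∀ z : G, orderOf z = p → z ^ p = 1 := by
    intro z hz
    rw [← hz]; exact pow_orderOf_eq_one z
  have hfix : ∀ z ∈ R, orderOf z = p →
      Nat.card ↥(Q ⊓ Subgroup.centralizer ({z} : Set G)) ∣ 4 := by
    intro z hzR hz
    refine (S.card_cent_dvd d Q hr.two hQst z ?_).trans hi4
    exact NN_N1 S.geo S.aut hs d p hr.prime hr.ne_two hpP 1 z
      (by rw [pow_one]; exact hzp z hz) (hr.free z hzR (hzp z hz) (hne1 z hz))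
  have hcard := card_R Q R hQn hr.two p hr.prime (by omega) hr.elem hfix hr.nc
  obtain ⟨K, hKn, hKmem, hKab, hKi⟩ := SRC.exists_K Q R hQn p hr.prime hr.elem hcard
  have hK : ∀ g ∈ K, ∀ r ∈ R, g * r * g⁻¹ * r⁻¹ ∈ Q := fun g hg => (hKmem g).1 hg
  have hKst : ∀ x : V, IsPGroup 2 ↥(K ⊓ MulAction.stabilizer G x) := fun x =>
    hr.stab_two S IH K hKn hK x
  have hKP2 : ∀ r : ℕ, r.Prime → r ≠ 2 → r ∣ P2 → ¬ r ∣ Nat.card K := fun r h1 h2 h3 =>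
    hr.not_dvd_K S hs d K hK hKst r h1 h2 h3
  have hP1K : P1 ∣ Nat.card K := S.P1_dvd_K hs d hP2 K hKn hKab hKst hKP2
  have hpQ : ¬ p ∣ Nat.card Q := SRC.not_dvd_card_two_group Q hr.two p hr.prime hr.ne_two
  -- an element of order `p`
  obtain ⟨w, hwR, hwQ⟩ := Set.not_subset.1 hr.elem.ne
  obtain ⟨hz0, hz0Q⟩ := SRC.lift_order Q hr.two p hr.prime hr.ne_two w hwQ (hr.elem.pow_mem w hwR)
  set z₀ : G := w ^ Nat.card Q with hz₀
  have hz0R : z₀ ∈ R := R.pow_mem hwR _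
  have hP1pos : P1 ≠ 0 := by
    have := d.one_lt
    omega
  have hdvd : P1 ∣ Nat.card Q - Nat.card ↥(Q ⊓ Subgroup.centralizer ({z₀} : Set G)) := by
    rw [Nat.dvd_iff_prime_pow_dvd_dvd]
    intro q b hq hqb
    rcases Nat.eq_zero_or_pos b with hb | hb
    · rw [hb, pow_zero]; exact one_dvd _
    · have hqP : q ∣ P1 := (dvd_pow_self q (by omega)).trans hqb
      obtain ⟨z, hzR, hz, h1⟩ := hr.pow_dvd S hs d hQst K hK hKst q b hq hqP (hqb.trans hP1K)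
      rwa [card_cent_eq Q R hQn p hr.prime hpQ hcard z z₀ hzR hz0R hz hz0] at h1
  obtain ⟨t, ht, hteq, -⟩ := exists_t_nc Q hQn hr.two p hr.prime hr.ne_two z₀ hz0
    (hr.nc z₀ hz0R hz0)
  obtain ⟨c, hc⟩ : ∃ c, c = Nat.card ↥(Q ⊓ Subgroup.centralizer ({z₀} : Set G)) := ⟨_, rfl⟩
  rw [← hc] at hteq hdvd
  have hsub : Nat.card Q - c = (2 ^ t - 1) * c := by
    rw [← hteq, Nat.sub_mul, one_mul]
  rw [hsub] at hdvd
  have hc2 : c ∣ 2 ^ a := by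
    rw [← ha, ← hteq]; exact dvd_mul_left _ _
  have hcop : Nat.Coprime P1 c := by
    apply Nat.Coprime.coprime_dvd_right hc2
    apply Nat.Coprime.pow_right
    exact (Nat.coprime_two_right).2 d.odd1
  have hPt : P1 ∣ 2 ^ t - 1 := hcop.dvd_of_dvd_mul_right hdvd
  have hta : t ≤ a := by
    have h1 : 2 ^ t ∣ 2 ^ a := by rw [← ha, ← hteq]; exact dvd_mul_right _ _
    exact (Nat.pow_dvd_pow_iff_le_right (by norm_num)).1 h1
  exact false_of_arith d hP2 t ht (hta.trans haij) hPt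


end SRV
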