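import Pool.Agent.SRV.H2
import Pool.Agent.SRV.Defs2
import Pool.Agent.SRC.A5
import Pool.Agent.SRC.C3
import Pool.Agent.SRT.G2b

set_option autoImplicit false

namespace SRV

open SRT SRC

/-- an element of `R` outside `Q` has a power of order `p`, and this power acts freely -/
theorem Rad.h12_free {G V : Type*} [Group G] [Finite G] [MulAction G V] {Q R : Subgroup G}
    {p : ℕ} (hr : Rad V Q R p) {g : G} (hg : g ∈ R) (hgQ : g ∉ Q) :
    ∃ m : ℕ, g ^ m ∈ R ∧ orderOf (g ^ m) = p ∧ ∀ x : V, g ^ m • x ≠ x := by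
  have h1 : p ∣ orderOf g := dvd_orderOf_of_notMem Q p hr.prime g hgQ (hr.elem.pow_mem g hg)
  have h2 : orderOf (g ^ (orderOf g / p)) = p :=
    orderOf_pow_orderOf_div (orderOf_pos g).ne' h1
  have h3 : g ^ (orderOf g / p) ∈ R := R.pow_mem hg _
  refine ⟨_, h3, h2, hr.free _ h3 ?_ ?_⟩
  · have h4 := pow_orderOf_eq_one (g ^ (orderOf g / p))
    rwa [h2] at h4
  · intro h
    rw [h, orderOf_one] at h2
    exact hr.prime.one_lt.ne h2

/-- an element of `R` with a fixed point lies in `Q` -/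
theorem Rad.h12_mem {G V : Type*} [Group G] [Finite G] [MulAction G V] {Q R : Subgroup G}
    {p : ℕ} (hr : Rad V Q R p) {g : G} (hg : g ∈ R) {x : V} (hx : g • x = x) : g ∈ Q := by
  by_contra hgQ
  obtain ⟨m, -, -, h⟩ := hr.h12_free hg hgQ
  exact h x ((MulAction.stabilizer G x).pow_mem hx m)

/-- a power of `p` that divides the order of `R` divides the number of points -/
theorem Rad.h12_pow_dvd {G V : Type*} [Group G] [Finite G] [MulAction G V] [Finite V]
    {Q R : Subgroup G} {p : ℕ} (hr : Rad V Q R p) {k : ℕ} (hk : p ^ k ∣ Nat.card R) :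
    p ^ k ∣ Nat.card V := by
  have hfp : Fact p.Prime := ⟨hr.prime⟩
  obtain ⟨P, hP⟩ := Sylow.exists_subgroup_card_pow_prime p hk
  rw [← hP]
  apply free_dvd
  intro x
  rw [Subgroup.eq_bot_iff_forall]
  intro g hg
  have h1 : ((g : R) : G) ∈ Q := hr.h12_mem (g : R).2 (x := x) hg
  obtain ⟨b, hb⟩ := hr.two ⟨_, h1⟩
  have h2 : ((g : R) : G) ^ 2 ^ b = 1 := by
    have := congrArg Subtype.val hb
    simpa using this
  have h3 : g ^ 2 ^ b = 1 := by
    apply Subtype.ext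
    apply Subtype.ext
    simpa using h2
  have h4 : g ^ p ^ k = 1 := by
    rw [← hP]
    exact pow_card_eq_one'
  have h5 : Nat.Coprime (2 ^ b) (p ^ k) :=
    Nat.Coprime.pow _ _ ((Nat.coprime_primes Nat.prime_two hr.prime).2 hr.ne_two.symm)
  have h6 : orderOf g ∣ 1 := by
    rw [← h5]
    exact Nat.dvd_gcd (orderOf_dvd_of_pow_eq_one h3) (orderOf_dvd_of_pow_eq_one h4)
  exact orderOf_eq_one_iff.1 (Nat.dvd_one.1 h6)

theorem Rad.h12_card {G V : Type*} [Group G] [Finite G] [MulAction G V] [Finite V]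
    {Q R : Subgroup G} {p : ℕ} (hr : Rad V Q R p) (hV : ¬ p ^ 2 ∣ Nat.card V) :
    Nat.card R = p * Nat.card Q := by
  obtain ⟨k, hk, hcard⟩ := relIndex_eq_pow Q R p hr.prime hr.normal hr.elem
  have hk1 : k = 1 := by
    by_contra hne
    have hk2 : 2 ≤ k := by omega
    apply hV
    apply hr.h12_pow_dvd
    rw [hcard]
    exact Dvd.dvd.mul_right (pow_dvd_pow p hk2) _
  rw [hcard, hk1, pow_one]

theorem Rad.h12_dvd_V {G V : Type*} [Group G] [Finite G] [MulAction G V] [Finite V]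
    {Q R : Subgroup G} {p : ℕ} (hr : Rad V Q R p) : p ∣ Nat.card V := by
  obtain ⟨k, hk, hcard⟩ := relIndex_eq_pow Q R p hr.prime hr.normal hr.elem
  have h1 : p ^ 1 ∣ Nat.card R := by
    rw [hcard]
    exact Dvd.dvd.mul_right (pow_dvd_pow p hk) _
  have h2 := hr.h12_pow_dvd h1
  rwa [pow_one] at h2

/-- an element of order `p` of `R` -/
theorem Rad.h12_exists {G V : Type*} [Group G] [Finite G] [MulAction G V]
    {Q R : Subgroup G} {p : ℕ} (hr : Rad V Q R p) : ∃ z ∈ R, orderOf z = p := by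
  obtain ⟨x₀, hx₀R, hx₀Q⟩ := SetLike.not_le_iff_exists.1 hr.elem.ne
  obtain ⟨m, h1, h2, -⟩ := hr.h12_free hx₀R hx₀Q
  exact ⟨_, h1, h2⟩

/-- `R` is transitive if `|V| = 2 ^ a p` -/
theorem Rad.h12_trans {G V : Type*} [Group G] [Finite G] [MulAction G V] [Finite V]
    {Q R : Subgroup G} {p : ℕ} (hr : Rad V Q R p) (a η : ℕ)
    (hh : ∀ x : V, Nat.card ↥(Q ⊓ MulAction.stabilizer G x) = 2 ^ η)
    (hQ : Nat.card Q = 2 ^ a * 2 ^ η) (hcard : Nat.card R = p * Nat.card Q)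
    (hV : Nat.card V = 2 ^ a * p) (x y : V) : ∃ g ∈ R, g • x = y := by
  have h1 : Nat.card (MulAction.stabilizer R x) = 2 ^ η := by
    rw [← hh x]
    apply Nat.card_congr
    exact ⟨fun q => ⟨q.1.1, ⟨hr.h12_mem q.1.2 (x := x) q.2, q.2⟩⟩,
      fun q => ⟨⟨q.1, hr.elem.le q.2.1⟩, q.2.2⟩, fun q => rfl, fun q => rfl⟩
  have h2 := Subgroup.card_mul_index (MulAction.stabilizer R x)
  rw [MulAction.index_stabilizer, h1, hcard, hQ] at h2
  have h3 : (MulAction.orbit R x).ncard = Nat.card V := by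
    rw [hV]
    apply Nat.eq_of_mul_eq_mul_left (show 0 < 2 ^ η by positivity)
    rw [h2]
    ring
  have h4 : MulAction.orbit R x = Set.univ := by
    apply Set.eq_of_subset_of_ncard_le (Set.subset_univ _)
    rw [h3, Set.ncard_univ]
  have h5 : y ∈ MulAction.orbit R x := by rw [h4]; exact Set.mem_univ y
  obtain ⟨g, hg⟩ := h5
  exact ⟨g.1, g.2, hg⟩

/-- For a transitive subgroup `R`: sum of `NN B g` over `R`.
PROOF. Copy of `SRT.Sit.sum_NN` (Pool/Agent/SRT/G2b.lean; `SRT.g2b_fiber` is general). -/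
theorem Sit.sum_NN {G V : Type*} [Group G] [Finite G] [MulAction G V] [Finite V] [Nonempty V]
    {B : V → V → Prop} {n : ℕ} (S : Sit G V B n) (R : Subgroup G)
    (htr : ∀ x y : V, ∃ g ∈ R, g • x = y) [Fintype R] :
    ∑ g : R, NN B (g : G) = Nat.card R * (n ^ 2 + 2) := by
  classical
  let _ : Fintype V := Fintype.ofFinite V
  have e : (Σ g : R, {y : V // B y ((g : G) • y)}) ≃
      (Σ y : V, Σ z : {z : V // B y z}, {g : R // (g : G) • y = z}) :=
    { toFun := fun p => ⟨p.2.1, ⟨(p.1 : G) • p.2.1, p.2.2⟩, ⟨p.1, rfl⟩⟩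
      invFun := fun p => ⟨p.2.2.1, ⟨p.1, by rw [p.2.2.2]; exact p.2.1.2⟩⟩
      left_inv := fun p => rfl
      right_inv := by
        rintro ⟨y, ⟨z, hz⟩, ⟨g, hg⟩⟩
        dsimp only at hg
        subst hg
        rfl }
  have h1 := Nat.card_congr e
  rw [Nat.card_sigma, Nat.card_sigma] at h1
  have h2 : ∑ g : R, NN B (g : G) = ∑ g : R, Nat.card {y : V // B y ((g : G) • y)} := rfl
  rw [h2, h1]
  have hVpos : 0 < Nat.card V := Nat.card_pos
  apply Nat.eq_of_mul_eq_mul_left hVpos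
  rw [Finset.mul_sum]
  have h3 : ∀ y ∈ (Finset.univ : Finset V),
      Nat.card V * Nat.card (Σ z : {z : V // B y z}, {g : R // (g : G) • y = z})
        = (n ^ 2 + 2) * Nat.card R := by
    intro y _
    rw [Nat.card_sigma, Finset.mul_sum]
    have h4 : ∀ z ∈ (Finset.univ : Finset {z : V // B y z}),
        Nat.card V * Nat.card {g : R // (g : G) • y = (z : V)} = Nat.card R :=
      fun z _ => g2b_fiber R htr y (z : V)
    rw [Finset.sum_congr rfl h4, Finset.sum_const,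
      Finset.card_univ, smul_eq_mul, ← Nat.card_eq_fintype_card, S.geo.card y]
  rw [Finset.sum_congr rfl h3, Finset.sum_const, Finset.card_univ, smul_eq_mul,
    ← Nat.card_eq_fintype_card]
  ring

/-- the inequality from the double count for a transitive `R` -/
theorem Rad.h12_ineq {G V : Type*} [Group G] [Finite G] [MulAction G V] [Finite V] [Nonempty V]
    {B : V → V → Prop} {n : ℕ} (S : Sit G V B n) (hn : 1 ≤ n) {Q R : Subgroup G} {p : ℕ}
    (hr : Rad V Q R p) (N : ℕ)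
    (hcard : Nat.card R = p * Nat.card Q) (htr : ∀ x y : V, ∃ g ∈ R, g • x = y)
    (hN : ∀ m : ℕ, p ∣ m → (m : ℤ) ≡ 2 [ZMOD n] → N ≤ m) :
    (p - 1) * N ≤ p * (n ^ 2 + 2) := by
  classical
  let _ : Fintype R := Fintype.ofFinite R
  have h1 := S.sum_NN R htr
  have hge : ∀ g ∈ (Finset.univ.filter fun g : R => (g : G) ∉ Q), N ≤ NN B (g : G) := by
    intro g hg
    rw [Finset.mem_filter] at hg
    apply hN
    · obtain ⟨m, -, hm2, hm3⟩ := hr.h12_free g.2 hg.2
      refine dvd_NN_of_comm S.aut (g : G) ((g : G) ^ m) ?_ p hr.prime 1 ?_ hm3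
      · rw [← pow_succ', ← pow_succ]
      · rw [pow_one]
        have h4 := pow_orderOf_eq_one ((g : G) ^ m)
        rwa [hm2] at h4
    · exact NN_modEq S.geo S.aut hn _
  have h2 : (Finset.univ.filter fun g : R => (g : G) ∉ Q).card * N ≤ ∑ g : R, NN B (g : G) := by
    calc (Finset.univ.filter fun g : R => (g : G) ∉ Q).card * N
        = ∑ g ∈ (Finset.univ.filter fun g : R => (g : G) ∉ Q), N := by
          rw [Finset.sum_const, smul_eq_mul]
      _ ≤ ∑ g ∈ (Finset.univ.filter fun g : R => (g : G) ∉ Q), NN B (g : G) :=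
          Finset.sum_le_sum hge
      _ ≤ ∑ g : R, NN B (g : G) :=
          Finset.sum_le_sum_of_subset (Finset.filter_subset _ _)
  have h3 : (Finset.univ.filter fun g : R => (g : G) ∈ Q).card = Nat.card Q := by
    rw [← Fintype.card_subtype, ← Nat.card_eq_fintype_card]
    apply Nat.card_congr
    exact ⟨fun g => ⟨g.1.1, g.2⟩, fun q => ⟨⟨q.1, hr.elem.le q.2⟩, q.2⟩, fun g => rfl,
      fun q => rfl⟩
  have h4 : (Finset.univ.filter fun g : R => (g : G) ∈ Q).card
      + (Finset.univ.filter fun g : R => (g : G) ∉ Q).card = Nat.card R := by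
    rw [Finset.card_filter_add_card_filter_not, Finset.card_univ, Nat.card_eq_fintype_card]
  have h5 : (Finset.univ.filter fun g : R => (g : G) ∉ Q).card = (p - 1) * Nat.card Q := by
    have h6 : (p - 1) * Nat.card Q = p * Nat.card Q - Nat.card Q := by
      rw [Nat.sub_mul, one_mul]
    rw [h6, ← hcard]
    omega
  rw [h5, h1, hcard] at h2
  have hQpos : 0 < Nat.card Q := Nat.card_pos
  apply Nat.le_of_mul_le_mul_left _ hQpos
  calc Nat.card Q * ((p - 1) * N) = (p - 1) * Nat.card Q * N := by ring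
    _ ≤ p * Nat.card Q * (n ^ 2 + 2) := h2
    _ = Nat.card Q * (p * (n ^ 2 + 2)) := by ring

theorem h12_le_of_two_pow_dvd {a b P : ℕ} (hP : Odd P) (h : 2 ^ a ∣ 2 ^ b * P) : a ≤ b := by
  have h1 : Nat.Coprime (2 ^ a) P := Nat.Coprime.pow_left _ (Nat.coprime_two_left.2 hP)
  exact (Nat.pow_dvd_pow_iff_le_right (by norm_num)).1 (h1.dvd_of_dvd_mul_right h)

theorem h12_t_le {t c N b : ℕ} (hc : 0 < c) (h : 2 ^ t * c = N) (hN : N ≤ 2 ^ b) : t ≤ b := by
  have h1 : 2 ^ t ≤ 2 ^ b := by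
    calc 2 ^ t ≤ 2 ^ t * c := Nat.le_mul_of_pos_right _ hc
      _ ≤ 2 ^ b := by rw [h]; exact hN
  exact (Nat.pow_le_pow_iff_right (by norm_num)).1 h1

theorem h12_dvd_odd_part {p m P : ℕ} (hp : p.Prime) (hp2 : p ≠ 2) (h : p ∣ 2 ^ m * P) :
    p ∣ P := by
  rcases (Nat.Prime.dvd_mul hp).1 h with h | h
  · exact absurd ((Nat.prime_dvd_prime_iff_eq hp Nat.prime_two).1 (hp.dvd_of_dvd_pow h)) hp2
  · exact h

/-- the inequality in the form with `h = 2 ^ η` -/
theorem Sit.h12_ineq2 {G V : Type*} [Group G] [Finite G] [MulAction G V] [Finite V] [Nonempty V]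
    {B : V → V → Prop} {n : ℕ} (S : Sit G V B n) (Q : Subgroup G) (hQ2 : IsPGroup 2 Q) (a η : ℕ)
    (hh : ∀ x : V, Nat.card ↥(Q ⊓ MulAction.stabilizer G x) = 2 ^ η)
    (hQ : Nat.card Q = 2 ^ a * 2 ^ η) :
    2 ^ η * (n ^ 2 + 2) ^ 2 ≤ (n ^ 2 + 2 ^ (a + 1)) * (n ^ 2 + 2 + (2 ^ η - 1) * (n + 2)) :=
  S.ineq2 Q hQ2 a (2 ^ η) hh hQ

/-- The case `n = 3`.
PROOF. `|V| = 56` (`S.geo.two_mul_card'`).  `R` contains `z` of order `p` (`SRC.lift_order`), which
acts freely, so `p ∣ 56`, `p = 7`.  `|R| = 7^k |Q|`, `k ≥ 1` (`relIndex_eq_pow`,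
Pool/Agent/SRC/A5.lean); a subgroup of order `7^k` of `R` acts freely (its elements satisfy
`g^7 ∈ Q`, so `g^7 = 1`; `hr.free`), so `7^k ∣ 56`, `k = 1`, `|R| = 7 |Q|`.
`h = |Q ⊓ G_{x₀}|`, `Sit.card_stab_eq`, `Sit.exists_a`: `|Q| = 2^a 2^η`, `2^a ∣ 56`, `a ≤ 3`.
`exists_t_nc` (G0.lean, `hr.nc`): `2^t |Q ⊓ C(z)| = |Q|`, `t ≥ 1`, `7 ∣ 2^t - 1`.
Follow `Sit.case_three` in Pool/Agent/SRT/H1.lean.  `a ≤ 2`: `num3` with `Sit.ineq2` (C4c.lean;
`ineq2'` as in H1.lean): `|Q| ≤ 4`, so `t ≤ 2`, contradiction (`ord_facts`), or `a = 2`, `η = 1`: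
`|Q| = 8`, `t = 3`, `|Q ⊓ C(z)| = 1`, `Sit.three_special` (G3b.lean).
`a = 3`: an element of `R` fixing `x` lies in `Q`: if `g ∈ R`, `g ∉ Q`, then `7 ∣ orderOf g`
(`SRC.dvd_orderOf_of_notMem`) and the power `g^(orderOf g / 7)` of order `7` is free; so
`R ⊓ G_x = Q ⊓ G_x` and the orbit `R x` has `7 · 8 = 56` elements, `R` is transitive (compare
`SRT.Sit.R_trans`, G2a.lean).  For `g ∈ R`, `g ∉ Q`: `7 ∣ NN B g` (`dvd_NN_of_comm` of H2.lean with
`w = g`, `u = g^(orderOf g / 7)`) and `NN B g ≡ 2 (mod 3)` (`SRT.NN_modEq`), so `NN B g ≥ 14`.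
`Sit.sum_NN`: `6 |Q| · 14 ≤ 7 |Q| · 11`, contradiction (compare `SRT.Sit.R_ineq`, G2b.lean). -/
theorem Rad.false_three {G V : Type*} [Group G] [Finite G] [MulAction G V] [Finite V]
    [Nonempty V] {B : V → V → Prop} (S : Sit G V B 3) {Q R : Subgroup G} {p : ℕ}
    (hr : Rad V Q R p) : False := by
  have hV : Nat.card V = 56 := by
    have := S.geo.two_mul_card'
    norm_num at this
    omega
  obtain ⟨x₀⟩ := (inferInstance : Nonempty V)
  obtain ⟨a, η, hcQ, hhη, haV⟩ := S.exists_a Q hr.normal hr.two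
    (Nat.card ↥(Q ⊓ MulAction.stabilizer G x₀)) (fun x => S.card_stab_eq Q hr.normal x x₀)
  have hh : ∀ x : V, Nat.card ↥(Q ⊓ MulAction.stabilizer G x) = 2 ^ η := fun x => by
    rw [← hhη]
    exact S.card_stab_eq Q hr.normal x x₀
  rw [hhη] at hcQ
  obtain ⟨z, hzR, hz⟩ := hr.h12_exists
  obtain ⟨t, ht1, htc, htp⟩ := exists_t_nc Q hr.normal hr.two p hr.prime hr.ne_two z hz
    (hr.nc z hzR hz)
  have hp7 : p = 7 := by
    have hpV := hr.h12_dvd_V
    rw [hV, show (56 : ℕ) = 2 ^ 3 * 7 by norm_num] at hpV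
    exact (Nat.prime_dvd_prime_iff_eq hr.prime (by norm_num)).1
      (h12_dvd_odd_part hr.prime hr.ne_two hpV)
  subst hp7
  have ha : a ≤ 3 := by
    apply h12_le_of_two_pow_dvd (P := 7) (by decide)
    rw [hV] at haV
    norm_num
    exact haV
  have hRc : Nat.card R = 7 * Nat.card Q := hr.h12_card (by rw [hV]; norm_num)
  rcases Nat.lt_or_ge a 3 with ha2 | ha3
  · have hn := num3 a η (by omega) (S.h12_ineq2 Q hr.two a η hh hcQ)
    have hcpos : 0 < Nat.card ↥(Q ⊓ Subgroup.centralizer ({z} : Set G)) := Nat.card_pos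
    rcases hn with hn | ⟨rfl, rfl⟩
    · have ht2 : t ≤ 2 := h12_t_le hcpos htc (by rw [hcQ]; exact hn)
      have := (ord_facts t ht1).2.2.2.2 (by omega) htp
      omega
    · have hQ8 : Nat.card Q = 8 := by rw [hcQ]; norm_num
      have ht3 : t ≤ 3 := h12_t_le hcpos htc (by rw [hQ8]; norm_num)
      have h3 := (ord_facts t ht1).2.2.2.2 ht3 htp
      subst h3
      refine S.three_special Q hr.normal hQ8 (fun x => by rw [hh x]; norm_num) z hz ?_
      rw [hQ8] at htc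
      omega
  · have ha' : a = 3 := by omega
    subst ha'
    have htr := hr.h12_trans 3 η hh hcQ hRc (by rw [hV]; norm_num)
    have := hr.h12_ineq S (by norm_num) 14 hRc htr ?_
    · norm_num at this
    · intro m hm hm2
      obtain ⟨c, rfl⟩ := hm
      have h2 := hm2.dvd
      rcases Nat.lt_or_ge c 2 with h | h
      · exfalso
        interval_cases c
        · norm_num at h2
        · norm_num at h2
      · omega

end SRV
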