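import Pool.Agent.SRV.H3
import Pool.Agent.SRV.H4
import Pool.Agent.SRV.H12

set_option autoImplicit false

namespace SRV

open SRT SRC

/-- `n = 5` -/
theorem Rad.h11_five {G V : Type*} [Group G] [Finite G] [MulAction G V] [Finite V]
    [Nonempty V] {B : V → V → Prop} (S : Sit G V B 5) {Q R : Subgroup G}
    (hr : Rad V Q R 11) (a η : ℕ) (ha : a ≤ 5)
    (hh : ∀ x : V, Nat.card ↥(Q ⊓ MulAction.stabilizer G x) = 2 ^ η)
    (hcQ : Nat.card Q = 2 ^ a * 2 ^ η) : False := by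
  obtain ⟨z, hzR, hz⟩ := hr.h12_exists
  obtain ⟨t, ht1, htc, htp⟩ := exists_t_nc Q hr.normal hr.two 11 hr.prime hr.ne_two z hz
    (hr.nc z hzR hz)
  have hcpos : 0 < Nat.card ↥(Q ⊓ Subgroup.centralizer ({z} : Set G)) := Nat.card_pos
  have hn := num5 a η ha (S.h12_ineq2 Q hr.two a η hh hcQ)
  have ht9 : t ≤ 9 := h12_t_le hcpos htc (by rw [hcQ]; exact hn)
  exact (ord_facts t ht1).1 ht9 htp

/-- `n = 90` -/
theorem Rad.h11_ninety {G V : Type*} [Group G] [Finite G] [MulAction G V] [Finite V]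
    [Nonempty V] {B : V → V → Prop} (S : Sit G V B 90) {Q R : Subgroup G}
    (hr : Rad V Q R 2003) (a η : ℕ) (ha : a ≤ 14)
    (hh : ∀ x : V, Nat.card ↥(Q ⊓ MulAction.stabilizer G x) = 2 ^ η)
    (hcQ : Nat.card Q = 2 ^ a * 2 ^ η) : False := by
  obtain ⟨z, hzR, hz⟩ := hr.h12_exists
  obtain ⟨t, ht1, htc, htp⟩ := exists_t_nc Q hr.normal hr.two 2003 hr.prime hr.ne_two z hz
    (hr.nc z hzR hz)
  have hcpos : 0 < Nat.card ↥(Q ⊓ Subgroup.centralizer ({z} : Set G)) := Nat.card_pos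
  have hn := num90 a η ha (S.h12_ineq2 Q hr.two a η hh hcQ)
  have ht9 : t ≤ 16 := h12_t_le hcpos htc (by rw [hcQ]; exact hn)
  exact (ord_facts t ht1).2.1 ht9 htp

/-- `n = 91` -/
theorem Rad.h11_ninetyone {G V : Type*} [Group G] [Finite G] [MulAction G V] [Finite V]
    [Nonempty V] {B : V → V → Prop} (S : Sit G V B 91) {Q R : Subgroup G} {p : ℕ}
    (hr : Rad V Q R p) (hp' : p = 53 ∨ p = 79) (a η : ℕ) (ha : a ≤ 13)
    (hh : ∀ x : V, Nat.card ↥(Q ⊓ MulAction.stabilizer G x) = 2 ^ η)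
    (hcQ : Nat.card Q = 2 ^ a * 2 ^ η) : False := by
  obtain ⟨z, hzR, hz⟩ := hr.h12_exists
  obtain ⟨t, ht1, htc, htp⟩ := exists_t_nc Q hr.normal hr.two p hr.prime hr.ne_two z hz
    (hr.nc z hzR hz)
  have hcpos : 0 < Nat.card ↥(Q ⊓ Subgroup.centralizer ({z} : Set G)) := Nat.card_pos
  have hn := num91 a η ha (S.h12_ineq2 Q hr.two a η hh hcQ)
  have ht9 : t ≤ 14 := h12_t_le hcpos htc (by rw [hcQ]; exact hn)
  rcases hp' with rfl | rfl
  · exact (ord_facts t ht1).2.2.1 ht9 htp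
  · exact (ord_facts t ht1).2.2.2.1 ht9 htp

/-- `n = 6` -/
theorem Rad.h11_six {G V : Type*} [Group G] [Finite G] [MulAction G V] [Finite V]
    [Nonempty V] {B : V → V → Prop} (S : Sit G V B 6) {Q R : Subgroup G}
    (hr : Rad V Q R 11) (a η : ℕ) (ha : a ≤ 6)
    (hh : ∀ x : V, Nat.card ↥(Q ⊓ MulAction.stabilizer G x) = 2 ^ η)
    (hcQ : Nat.card Q = 2 ^ a * 2 ^ η) : False := by
  have hV : Nat.card V = 704 := by
    have := S.geo.two_mul_card'
    norm_num at this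
    omega
  obtain ⟨z, hzR, hz⟩ := hr.h12_exists
  obtain ⟨t, ht1, htc, htp⟩ := exists_t_nc Q hr.normal hr.two 11 hr.prime hr.ne_two z hz
    (hr.nc z hzR hz)
  have hRc : Nat.card R = 11 * Nat.card Q := hr.h12_card (by rw [hV]; norm_num)
  rcases Nat.lt_or_ge a 6 with ha2 | ha3
  · have hn := num6 a η (by omega) (S.h12_ineq2 Q hr.two a η hh hcQ)
    have hcpos : 0 < Nat.card ↥(Q ⊓ Subgroup.centralizer ({z} : Set G)) := Nat.card_pos
    have ht2 : t ≤ 7 := h12_t_le hcpos htc (by rw [hcQ]; exact hn)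
    exact (ord_facts t ht1).1 (by omega) htp
  · have ha' : a = 6 := by omega
    subst ha'
    have htr := hr.h12_trans 6 η hh hcQ hRc (by rw [hV]; norm_num)
    have := hr.h12_ineq S (by norm_num) 44 hRc htr ?_
    · norm_num at this
    · intro m hm hm2
      obtain ⟨c, rfl⟩ := hm
      have h2 := hm2.dvd
      rcases Nat.lt_or_ge c 4 with h | h
      · exfalso
        interval_cases c
        · norm_num at h2
        · norm_num at h2
        · norm_num at h2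
        · norm_num at h2
      · omega

/-- The case `P2 = 1`.
PROOF. `SRT.cases_of_P2_eq_one` (Pool/Agent/SRT/F1d.lean): `n = 5`, `P1 = 11`; `n = 6`, `P1 = 11`;
`n = 90`, `P1 = 2003`; `n = 91`, `P1 = 4187 = 53 · 79`, with the given `i`, `j`.  `p ∣ P1`
(`Rad.dvd_P1`).  `Sit.exists_a_eta` (H4.lean): `|Q| = 2^a 2^η`, `a ≤ i + j - 1`.
`R` has an element `z` of order `p` (`SRC.lift_order`), `exists_t_nc` (G0.lean, `hr.nc`):
`2^t |Q ⊓ C(z)| = |Q|`, `t ≥ 1`, `p ∣ 2^t - 1`.  The inequality `Sit.ineq2` (C4c.lean) in the form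
`Sit.ineq2'` of Pool/Agent/SRT/H1.lean and `num5`, `num6`, `num90`, `num91`
(Pool/Agent/SRT/F2b.lean) bound `|Q|`, so `t ≤ 9, 7, 16, 14`, contradiction to `ord_facts`
(F2b.lean).  Copy `Sit.case_five`, `case_six`, `case_ninety`, `case_ninetyone`
from Pool/Agent/SRT/H1.lean. -/
theorem Rad.false_of_P2_one {G V : Type*} [Group G] [Finite G] [MulAction G V] [Finite V]
    [Nonempty V] {B : V → V → Prop} {n : ℕ} (S : Sit G V B n) {Q R : Subgroup G} {p : ℕ}
    (hr : Rad V Q R p) {s : ℤ} {N1 N2 i j P1 P2 : ℕ} (hs : s = n ∨ s = -n)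
    (d : Dat (Nat.card V) s N1 N2 i j P1 P2) (hP2 : P2 = 1) : False := by
  obtain ⟨a, η, hh, hcQ, ha⟩ := S.exists_a_eta d Q hr.normal hr.two
  have hpP := hr.dvd_P1 S hs d
  have hp := hr.prime
  rcases cases_of_P2_eq_one d hP2 with ⟨h, rfl, rfl, rfl⟩ | ⟨h, rfl, rfl, rfl⟩ |
    ⟨h, rfl, rfl, rfl⟩ | ⟨h, rfl, rfl, rfl⟩
  · have hn : n = 5 := by omega
    subst hn
    have hp11 : p = 11 := (Nat.prime_dvd_prime_iff_eq hp (by norm_num)).1 hpP
    subst hp11
    exact hr.h11_five S a η (by omega) hh hcQ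
  · have hn : n = 6 := by omega
    subst hn
    have hp11 : p = 11 := (Nat.prime_dvd_prime_iff_eq hp (by norm_num)).1 hpP
    subst hp11
    exact hr.h11_six S a η (by omega) hh hcQ
  · have hn : n = 90 := by omega
    subst hn
    have hp11 : p = 2003 := (Nat.prime_dvd_prime_iff_eq hp (by norm_num)).1 hpP
    subst hp11
    exact hr.h11_ninety S a η (by omega) hh hcQ
  · have hn : n = 91 := by omega
    subst hn
    have hp' : p = 53 ∨ p = 79 := by
      rw [show (4187 : ℕ) = 53 * 79 by norm_num] at hpP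
      rcases (Nat.Prime.dvd_mul hp).1 hpP with h | h
      · exact Or.inl ((Nat.prime_dvd_prime_iff_eq hp (by norm_num)).1 h)
      · exact Or.inr ((Nat.prime_dvd_prime_iff_eq hp (by norm_num)).1 h)
    exact hr.h11_ninetyone S hp' a η (by omega) hh hcQ

end SRV
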