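import Pool.Agent.SRV.G1
import Pool.Agent.SRV.G3
import Pool.Agent.SRV.E3
import Pool.Agent.SRV.F4
import Pool.Agent.SRV.H10
import Pool.Agent.SRV.H11
import Pool.Agent.SRV.H12
import Pool.Agent.SRT.A1c

set_option autoImplicit false

namespace SRV

open SRT SRC

universe u

/-- One induction step (assembly).
PROOF. By contradiction: `exists_min` (G1.lean) gives `Q`, `R'`, `p`.  `Rad V Q R' p`: `normal`, `two`,
`prime`, `ne_two`, `elem`, `solv` from `exists_min`, `free` = `Sit.p_free` (F4.lean), `nc` =
`exists_not_comm` (G3.lean) with `hel` from `Sit.no_normal_p` (E3.lean).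
`n = 3`: `Rad.false_three`.  `n = 4`: `S.geo.four_not_dvd`.  `n ≥ 5`: `SRC.exists_dat`
(Pool/Agent/SRC/N1.lean; `S.geo.two_mul_card'`) and `Rad.false_of_P2` / `Rad.false_of_P2_one`. -/
theorem Sit.two_of_solvable {G : Type*} {V : Type u} [Group G] [Finite G] [MulAction G V]
    [Finite V] [Nonempty V] {B : V → V → Prop} {n : ℕ} (S : Sit G V B n) (hn : 3 ≤ n)
    (IH : ∀ N < Nat.card V, TwoRad.{u} N) (R : Subgroup G) (hR : R.Normal)
    (hs : Group.IsSolvable R) : IsPGroup 2 R := by
  by_contra hR2
  obtain ⟨Q, R', p, hp, hp2, hQn, hQ2, hE, hle, hs'⟩ := exists_min R hR hs hR2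
  have hr : Rad V Q R' p :=
    { normal := hQn
      two := hQ2
      prime := hp
      ne_two := hp2
      elem := hE
      solv := hs'
      free := fun z hz hzp hz1 x =>
        S.p_free hn IH Q R' hQn hQ2 p hp hp2 hE hs' z hz hzp hz1 x
      nc := fun z hz ho =>
        exists_not_comm Q R' hQn hQ2 p hp hp2 hE
          (fun E hE hEp => S.no_normal_p hn IH p hp hp2 E hE hEp) z hz ho }
  rcases Nat.lt_or_ge n 5 with h5 | h5
  · have : n = 3 ∨ n = 4 := by omega
    rcases this with rfl | rfl
    · exact hr.false_three S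
    · exact S.geo.four_not_dvd (by norm_num) (dvd_refl 4)
  obtain ⟨s, N1, N2, i, j, P1, P2, hsn, d⟩ := exists_dat (Nat.card V) n h5
    (S.geo.four_not_dvd (by omega)) S.geo.two_mul_card'
  by_cases hP2 : P2 = 1
  · exact hr.false_of_P2_one S hsn d hP2
  · exact hr.false_of_P2 S IH hsn d hP2

/-- PROOF. Strong induction; `Sit ↥G V B n` for the subgroup `G` of `Equiv.Perm V` (see
`SRT.noSolv`, Pool/Agent/SRT/H2.lean), `R.subgroupOf G` (isomorphic to `R`, as `R ≤ G`:
`Subgroup.subgroupOfEquivOfLe`), `Sit.two_of_solvable`. -/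
theorem twoRad (N : ℕ) : TwoRad.{u} N := by
  induction N using Nat.strong_induction_on with
  | _ N IH =>
    intro V _ _ B n hN hn hgeo G R haut htr hRG hconj hs
    have S : Sit G V B n :=
      { aut := fun g x y hxy => haut g.1 g.2 x y hxy
        faithful := by
          intro g hg
          ext x
          exact hg x
        trans := by
          intro x y
          obtain ⟨g, hg, hgx⟩ := htr x y
          exact ⟨⟨g, hg⟩, hgx⟩
        geo := hgeo }
    have e : R.subgroupOf G ≃* R := Subgroup.subgroupOfEquivOfLe hRG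
    have hs' : Group.IsSolvable (R.subgroupOf G) :=
      Group.isSolvable_of_surjective (f := (e.symm : R →* R.subgroupOf G)) e.symm.surjective
    have hn' : (R.subgroupOf G).Normal := by
      constructor
      intro r hr g
      rw [Subgroup.mem_subgroupOf] at hr ⊢
      exact hconj g.1 g.2 _ hr
    have h2 := S.two_of_solvable hn (fun M hM => IH M (by omega)) (R.subgroupOf G) hn' hs'
    exact h2.of_surjective (e : R.subgroupOf G →* R) e.surjective

/-- A solvable normal subgroup of a vertex-transitive group is a `2`-group. -/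
theorem Sit.two_of_solvable' {G : Type*} {V : Type u} [Group G] [Finite G] [MulAction G V]
    [Finite V] [Nonempty V] {B : V → V → Prop} {n : ℕ} (S : Sit G V B n) (hn : 3 ≤ n)
    (R : Subgroup G) (hR : R.Normal) (hs : Group.IsSolvable R) : IsPGroup 2 R :=
  S.two_of_solvable hn (fun N _ => twoRad N) R hR hs

end SRV
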