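import Pool.Agent.SRV.W2
import Pool.Agent.SRC.N2
import Pool.Agent.SRT.B1

set_option autoImplicit false

namespace SRV

open SRT SRC

variable {G V : Type*} [Group G] [MulAction G V] [Finite V] [Nonempty V]
  {B : V → V → Prop} {n : ℕ}

/-- PROOF. As `SRT.Sit.NN_N1` (Pool/Agent/SRT/H1.lean), with `NN_eq_pow` (W2.lean) instead of
`Sit.NN_eq`. -/
theorem NN_N1 (h : Geo B (n ^ 2 + 2)) (haut : Aut G B) {v : ℕ} {s : ℤ} {N1 N2 i j P1 P2 : ℕ}
    (hs : s = n ∨ s = -n) (d : Dat v s N1 N2 i j P1 P2) (q : ℕ) (hq : q.Prime) (hq2 : q ≠ 2)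
    (hqP : q ∣ P1) (e : ℕ) (w : G) (hw : w ^ (q ^ e) = 1) (hfree : ∀ x : V, w • x ≠ x) :
    NN B w = N1 := by
  have hd : (q : ℤ) ∣ (N1 : ℤ) := by
    have : q ∣ N1 := by rw [d.h1]; exact Dvd.dvd.mul_left hqP _
    exact_mod_cast this
  have e1 := d.e1
  rcases hs with rfl | rfl
  · have h1 := NN_eq_pow h haut q hq hq2 (-1) (Or.inr rfl)
      (by rw [e1] at hd; convert hd using 1; ring) e w hw hfree
    have : (NN B w : ℤ) = N1 := by rw [h1, e1]; ring
    exact_mod_cast this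
  · have h1 := NN_eq_pow h haut q hq hq2 1 (Or.inl rfl)
      (by rw [e1] at hd; convert hd using 1; ring) e w hw hfree
    have : (NN B w : ℤ) = N1 := by rw [h1, e1]; ring
    exact_mod_cast this

/-- PROOF. As `SRT.Sit.NN_N2` (Pool/Agent/SRT/H1.lean), with `NN_eq_pow` (W2.lean). -/
theorem NN_N2 (h : Geo B (n ^ 2 + 2)) (haut : Aut G B) {v : ℕ} {s : ℤ} {N1 N2 i j P1 P2 : ℕ}
    (hs : s = n ∨ s = -n) (d : Dat v s N1 N2 i j P1 P2) (q : ℕ) (hq : q.Prime) (hq2 : q ≠ 2)
    (hqP : q ∣ P2) (e : ℕ) (w : G) (hw : w ^ (q ^ e) = 1) (hfree : ∀ x : V, w • x ≠ x) :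
    NN B w = N2 := by
  have hd : (q : ℤ) ∣ (N2 : ℤ) := by
    have : q ∣ N2 := by rw [d.h2]; exact Dvd.dvd.mul_left hqP _
    exact_mod_cast this
  have e1 := d.e2
  rcases hs with rfl | rfl
  · have h1 := NN_eq_pow h haut q hq hq2 1 (Or.inl rfl)
      (by rw [e1] at hd; convert hd using 1; ring) e w hw hfree
    have : (NN B w : ℤ) = N2 := by rw [h1, e1]; ring
    exact_mod_cast this
  · have h1 := NN_eq_pow h haut q hq hq2 (-1) (Or.inr rfl)
      (by rw [e1] at hd; convert hd using 1; ring) e w hw hfree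
    have : (NN B w : ℤ) = N2 := by rw [h1, e1]; ring
    exact_mod_cast this

omit [Nonempty V] in
/-- An element `u` of `r`-power order without fixed points that commutes with `w`: `r ∣ NN B w`.
PROOF. `zpowers u` is an `r`-group acting on `{y : V // B y (w • y)}`
(`SRT.b1_act haut w` restricted; `u` lies in the centraliser of `w`), without fixed point (a point
fixed by the group is fixed by `u`); `IsPGroup.card_modEq_card_fixedPoints`. -/
theorem dvd_NN_of_comm (haut : Aut G B) [Finite G] (w u : G) (hwu : w * u = u * w) (r : ℕ)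
    (hr : r.Prime) (e : ℕ) (hu : u ^ (r ^ e) = 1) (hfree : ∀ x : V, u • x ≠ x) : r ∣ NN B w := by
  have hfact : Fact r.Prime := ⟨hr⟩
  let _ := b1_act haut w
  have huC : u ∈ Subgroup.centralizer ({w} : Set G) := by
    rw [Subgroup.mem_centralizer_singleton_iff]
    exact hwu.symm
  let u' : Subgroup.centralizer ({w} : Set G) := ⟨u, huC⟩
  have hu' : u' ^ (r ^ e) = 1 := Subtype.ext hu
  have hpg : IsPGroup r (Subgroup.zpowers u') := by
    rw [IsPGroup.iff_orderOf]
    intro g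
    obtain ⟨m, hm⟩ := Subgroup.mem_zpowers_iff.1 g.2
    have h1 : g ^ (r ^ e) = 1 := by
      apply Subtype.ext
      rw [Subgroup.coe_pow, ← hm, Subgroup.coe_one, ← zpow_natCast, ← zpow_mul, mul_comm, zpow_mul,
        zpow_natCast, hu', one_zpow]
    obtain ⟨k, -, hk⟩ := (Nat.dvd_prime_pow hr).1 (orderOf_dvd_of_pow_eq_one h1)
    exact ⟨k, hk⟩
  have h2 := hpg.card_modEq_card_fixedPoints {y : V // B y (w • y)}
  have h3 : IsEmpty (MulAction.fixedPoints (Subgroup.zpowers u') {y : V // B y (w • y)}) := by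
    refine ⟨fun y => ?_⟩
    have h4 := y.2 ⟨u', Subgroup.mem_zpowers u'⟩
    exact hfree y.1.1 (congrArg Subtype.val h4)
  have h4 : Nat.card (MulAction.fixedPoints (Subgroup.zpowers u') {y : V // B y (w • y)}) = 0 :=
    Nat.card_of_isEmpty
  rw [h4] at h2
  exact (Nat.modEq_zero_iff_dvd).1 h2

end SRV
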