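import Pool.Agent.SRV.H1
import Pool.Agent.SRV.H2
import Pool.Agent.SRV.Defs2
import Pool.Agent.SRC.A5

set_option autoImplicit false

namespace SRV

open SRT SRC

/-- an element of `q`-power order without fixed points: `q ∣ |V|` -/
theorem h3_dvd_card {G V : Type*} [Group G] [MulAction G V] [Finite V] (q : ℕ) (hq : q.Prime)
    (e : ℕ) (w : G) (hw : w ^ (q ^ e) = 1) (hfree : ∀ x : V, w • x ≠ x) : q ∣ Nat.card V := by
  have hfact : Fact q.Prime := ⟨hq⟩
  have hpg : IsPGroup q (Subgroup.zpowers w) := by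
    rw [IsPGroup.iff_orderOf]
    intro g
    obtain ⟨m, hm⟩ := Subgroup.mem_zpowers_iff.1 g.2
    have h1 : g ^ (q ^ e) = 1 := by
      apply Subtype.ext
      rw [Subgroup.coe_pow, ← hm, Subgroup.coe_one, ← zpow_natCast, ← zpow_mul, mul_comm, zpow_mul,
        zpow_natCast, hw, one_zpow]
    obtain ⟨k, -, hk⟩ := (Nat.dvd_prime_pow hq).1 (orderOf_dvd_of_pow_eq_one h1)
    exact ⟨k, hk⟩
  have h2 := hpg.card_modEq_card_fixedPoints V
  have h3 : IsEmpty (MulAction.fixedPoints (Subgroup.zpowers w) V) := by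
    refine ⟨fun y => ?_⟩
    have h4 := y.2 ⟨w, Subgroup.mem_zpowers w⟩
    exact hfree y.1 h4
  have h4 : Nat.card (MulAction.fixedPoints (Subgroup.zpowers w) V) = 0 :=
    Nat.card_of_isEmpty
  rw [h4] at h2
  exact (Nat.modEq_zero_iff_dvd).1 h2

/-- elements of `p`-power order of `R` satisfy `g ^ p = 1`, so they have no fixed point -/
theorem h3_pow_eq_one {G : Type*} [Group G] {Q R : Subgroup G} {p : ℕ} (hQ2 : IsPGroup 2 Q)
    (hp : p.Prime) (hp2 : p ≠ 2) (hR : Elem Q R p) (g : G) (hg : g ∈ R) (k : ℕ)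
    (hgk : g ^ (p ^ k) = 1) : g ^ p = 1 := by
  have h1 : g ^ p ∈ Q := hR.pow_mem g hg
  obtain ⟨m, hm⟩ := hQ2 ⟨g ^ p, h1⟩
  have h2 : (g ^ p) ^ (2 ^ m) = 1 := congrArg Subtype.val hm
  have h3 : orderOf (g ^ p) ∣ 2 ^ m := orderOf_dvd_of_pow_eq_one h2
  have h4 : orderOf (g ^ p) ∣ p ^ k := by
    apply orderOf_dvd_of_pow_eq_one
    rw [← pow_mul, mul_comm, pow_mul, hgk, one_pow]
  have h5 : Nat.Coprime (2 ^ m) (p ^ k) :=
    Nat.Coprime.pow _ _ ((Nat.coprime_primes Nat.prime_two hp).2 (Ne.symm hp2))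
  have h6 : orderOf (g ^ p) ∣ 1 := by
    rw [← Nat.coprime_iff_gcd_eq_one.1 h5]
    exact Nat.dvd_gcd h3 h4
  exact orderOf_eq_one_iff.1 (Nat.dvd_one.1 h6)

theorem h3_not_dvd_P2 {G V : Type*} [Group G] [Finite G] [MulAction G V] [Finite V] [Nonempty V]
    {B : V → V → Prop} {n : ℕ} (S : Sit G V B n) {Q R : Subgroup G} {p : ℕ} (hr : Rad V Q R p)
    {s : ℤ} {N1 N2 i j P1 P2 : ℕ} (hs : s = n ∨ s = -n)
    (d : Dat (Nat.card V) s N1 N2 i j P1 P2) : ¬ p ∣ P2 := by
  intro hpP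
  have hp := hr.prime
  have hp2 := hr.ne_two
  have hR := hr.elem
  have hfact2 : Fact (Nat.Prime 2) := ⟨Nat.prime_two⟩
  have hfactp : Fact (Nat.Prime p) := ⟨hp⟩
  obtain ⟨k, hk1, hk⟩ := relIndex_eq_pow Q R p hp hr.normal hR
  obtain ⟨a, ha⟩ := IsPGroup.iff_card.1 hr.two
  have hP1V : P1 ∣ Nat.card V := by
    rw [d.card_eq]
    exact Dvd.dvd.mul_left (dvd_mul_right _ _) _
  have hP1N2 : Nat.Coprime P1 N2 := by
    rw [d.h2]
    apply Nat.Coprime.mul_right
    · apply Nat.Coprime.pow_right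
      exact Nat.coprime_two_right.2 d.odd1
    · exact d.coprime
  have hidx : ∀ w ∈ R, w ∉ Q → P1 ∣ (Subgroup.centralizer ({w} : Set G)).index := by
    intro w hwR hwQ
    have h1 : p ∣ orderOf w := dvd_orderOf_of_notMem Q p hp w hwQ (hR.pow_mem w hwR)
    have ho : orderOf (w ^ (orderOf w / p)) = p :=
      orderOf_pow_orderOf_div (orderOf_pos w).ne' h1
    set z := w ^ (orderOf w / p) with hz
    have hzR : z ∈ R := R.pow_mem hwR _
    have hzp : z ^ p = 1 := by rw [← ho]; exact pow_orderOf_eq_one z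
    have hz1 : z ≠ 1 := by
      intro h2
      rw [h2, orderOf_one] at ho
      exact hp.one_lt.ne ho
    have h2 : NN B z = N2 := NN_N2 S.geo S.aut hs d p hp hp2 hpP 1 z (by rw [pow_one]; exact hzp)
      (hr.free z hzR hzp hz1)
    obtain ⟨c, hc⟩ := S.index_mul z
    rw [h2] at hc
    have h3 : P1 ∣ (Subgroup.centralizer ({z} : Set G)).index := by
      refine hP1N2.dvd_of_dvd_mul_right ?_
      rw [hc]
      exact Dvd.dvd.mul_right hP1V _
    refine h3.trans (Subgroup.index_dvd_of_le ?_)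
    intro g hg
    rw [Subgroup.mem_centralizer_singleton_iff] at hg ⊢
    have h4 : Commute g w := hg
    exact h4.pow_right _
  have h1 : P1 ∣ Nat.card ((R : Set G) \ (Q : Set G) : Set G) := by
    refine class_count _ ?_ P1 ?_
    · rintro s ⟨hsR, hsQ⟩ g
      refine ⟨hR.normal.conj_mem s hsR g, fun h => hsQ ?_⟩
      have h2 := hr.normal.conj_mem _ h g⁻¹
      have h3 : g⁻¹ * (g * s * g⁻¹) * g⁻¹⁻¹ = s := by group
      rwa [h3] at h2
    · rintro s ⟨hsR, hsQ⟩
      exact hidx s hsR hsQ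
  have h2 : Nat.card ((R : Set G) \ (Q : Set G) : Set G) = (p ^ k - 1) * Nat.card Q := by
    have h3 : ((Q : Set G)) ⊆ (R : Set G) := hR.le
    have h4 : ((R : Set G) \ (Q : Set G)).ncard + (Q : Set G).ncard = (R : Set G).ncard :=
      Set.ncard_sdiff_add_ncard_of_subset h3 (Set.toFinite _)
    have h5 : (R : Set G).ncard = Nat.card R := rfl
    have h6 : (Q : Set G).ncard = Nat.card Q := rfl
    rw [h5, h6, hk] at h4
    show ((R : Set G) \ (Q : Set G)).ncard = _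
    rw [Nat.sub_mul, one_mul]
    omega
  rw [h2, ha] at h1
  have hodd : Nat.Coprime P1 (2 ^ a) := (Nat.Coprime.pow_left a
    ((Nat.coprime_two_left).2 d.odd1)).symm
  have h3 : P1 ∣ p ^ k - 1 := hodd.dvd_of_dvd_mul_right h1
  have hP2pos : 0 < P2 := d.odd2.pos
  have hpk : p ^ k ∣ P2 := by
    have h4 : p ^ k ∣ Nat.card V := by
      obtain ⟨P, hP⟩ := Sylow.exists_subgroup_card_pow_prime (G := R) p (n := k)
        (Dvd.intro _ hk.symm)
      rw [← hP]
      apply SRC.free_dvd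
      intro x
      rw [eq_bot_iff]
      intro g hg
      rw [Subgroup.mem_bot]
      by_contra hg1
      have h5 : ((g : R) : G) • x = x := hg
      have h6 : (((g : R) : G)) ^ (p ^ k) = 1 := by
        have h7 : g ^ Nat.card P = 1 := pow_card_eq_one'
        rw [hP] at h7
        have h8 : ((g ^ (p ^ k) : P) : R) = 1 := by rw [h7]; rfl
        have h9 : (((g ^ (p ^ k) : P) : R) : G) = 1 := by rw [h8]; rfl
        exact h9
      have h7 := h3_pow_eq_one hr.two hp hp2 hR _ (g : R).2 k h6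
      refine hr.free _ (g : R).2 h7 ?_ x h5
      intro h8
      exact hg1 (Subtype.ext (Subtype.ext h8))
    rw [d.card_eq] at h4
    have hc2 : Nat.Coprime (p ^ k) (2 ^ (i + j - 1)) :=
      Nat.Coprime.pow _ _ ((Nat.coprime_primes hp Nat.prime_two).2 hp2)
    have hcP : Nat.Coprime (p ^ k) P1 := by
      refine Nat.Coprime.pow_left k ?_
      exact Nat.Coprime.coprime_dvd_left hpP d.coprime.symm
    exact hcP.dvd_of_dvd_mul_left (hc2.dvd_of_dvd_mul_left h4)
  have h5 : p ^ k ≤ P2 := Nat.le_of_dvd hP2pos hpk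
  have h6 : 2 ≤ p ^ k := hp.two_le.trans (Nat.le_self_pow (by omega) p)
  have h7 : P1 ≤ p ^ k - 1 := Nat.le_of_dvd (by omega) h3
  have h8 := d.lt
  omega

/-- PROOF. (i) `R` contains an element `z` of order `p` (`SRC.lift_order` for an element of `R \ Q`);
it acts freely (`hr.free`), so `p ∣ Nat.card V` (`SRC.free_dvd` for `zpowers z`, or
`IsPGroup.card_modEq_card_fixedPoints`), so `p ∣ P1` or `p ∣ P2` (`Dat.dvd_or`).
(ii) Suppose `p ∣ P2`.  As in `SRT.not_dvd_P2` (Pool/Agent/SRT/E1b.lean): `|R| = p^k |Q|`, `k ≥ 1`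
(`relIndex_eq_pow`).  `SRC.class_count` for the set `R \ Q` and `m = P1`: for `w ∈ R \ Q` we have
`p ∣ orderOf w` (`dvd_orderOf_of_notMem`), `z = w ^ (orderOf w / p) ∈ R` has order `p`, is free
(`hr.free`), so `NN B z = N2` (`NN_N2`, `e = 1`), and `Sit.index_mul`:
`index (centralizer {z}) * N2 = |V| c`; `P1 ∣ |V|` (`Dat.card_eq`) and `P1` is coprime to
`N2 = 2^j P2` (`Dat.coprime`, `odd1`), so `P1 ∣ index (centralizer {z})`, which divides
`index (centralizer {w})` (`centralizer {w} ≤ centralizer {z}`, `Subgroup.index_dvd_of_le`).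
So `P1 ∣ |R \ Q| = (p^k - 1) |Q|`, `|Q|` is a power of `2`, so `P1 ∣ p^k - 1`.
A subgroup `P` of `R` of order `p^k` (`Sylow.exists_subgroup_card_pow_prime`) meets `Q` trivially, so
`g^p = 1` for `g ∈ P` (`Elem.pow_mem`), so `P` acts freely (`hr.free`) and `p^k ∣ |V|`
(`SRC.free_dvd`, Pool/Agent/SRC/C3.lean), so `p^k ∣ P2`.  So `P1 < p^k ≤ P2`, contradiction to
`Dat.lt`. -/
theorem Rad.dvd_P1 {G V : Type*} [Group G] [Finite G] [MulAction G V] [Finite V] [Nonempty V]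
    {B : V → V → Prop} {n : ℕ} (S : Sit G V B n) {Q R : Subgroup G} {p : ℕ} (hr : Rad V Q R p)
    {s : ℤ} {N1 N2 i j P1 P2 : ℕ} (hs : s = n ∨ s = -n)
    (d : Dat (Nat.card V) s N1 N2 i j P1 P2) : p ∣ P1 := by
  obtain ⟨x₀, hx₀R, hx₀Q⟩ := SetLike.not_le_iff_exists.1 hr.elem.ne
  obtain ⟨hx, -⟩ := lift_order Q hr.two p hr.prime hr.ne_two x₀ hx₀Q (hr.elem.pow_mem x₀ hx₀R)
  set z := x₀ ^ Nat.card Q with hz
  have hzR : z ∈ R := R.pow_mem hx₀R _
  have hzp : z ^ p = 1 := by rw [← hx]; exact pow_orderOf_eq_one z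
  have hz1 : z ≠ 1 := by
    intro h2
    rw [h2, orderOf_one] at hx
    exact hr.prime.one_lt.ne hx
  have h1 : p ∣ Nat.card V := h3_dvd_card p hr.prime 1 z (by rw [pow_one]; exact hzp)
    (hr.free z hzR hzp hz1)
  rcases d.dvd_or hr.prime hr.ne_two h1 with h2 | h2
  · exact h2
  · exact absurd h2 (h3_not_dvd_P2 S hr hs d)

end SRV
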