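import Pool.Agent.SRV.Defs

set_option autoImplicit false

namespace SRV

open SRT

open scoped Pointwise

/-- Let `K` be normal in the transitive group `G` and `Y` a Sylow `r`-subgroup of `K ⊓ G_x`.  The
normaliser of `Y` in `G` is transitive on the fixed points of `Y`.
PROOF. Adapt `SRT.exists_normalizing` (Pool/Agent/SRT/D2b.lean; it uses `SRT.D2b_syl`).
`g • x = y` for some `g`.  `H = K ⊓ MulAction.stabilizer G x`.  `Y ≤ H`.
`Y' = {w : g * w * g⁻¹ ∈ Y}` is contained in `H` (`K` normal; `Y` fixes `y = g • x`) and has the same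
order as `Y`; by `hmax` both are Sylow `r`-subgroups of `H`, so `h Y' h⁻¹ = Y` for some `h ∈ H`.
`g * h⁻¹` maps `x` to `y` and normalises `Y`. -/
theorem exists_norm {G V : Type*} [Group G] [Finite G] [MulAction G V]
    (htr : ∀ x y : V, ∃ g : G, g • x = y) (K Y : Subgroup G) (hK : K.Normal) (r : ℕ)
    (hr : r.Prime) (x : V) (hYK : Y ≤ K) (hYx : ∀ u ∈ Y, u • x = x) (hYr : IsPGroup r Y)
    (hmax : ∀ Y' : Subgroup G, Y' ≤ K → (∀ u ∈ Y', u • x = x) → IsPGroup r Y' →
      Nat.card Y' ≤ Nat.card Y) (y : V) (hy : ∀ u ∈ Y, u • y = y) :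
    ∃ g : G, (∀ u : G, u ∈ Y ↔ g * u * g⁻¹ ∈ Y) ∧ g • x = y := by
  have : Fact r.Prime := ⟨hr⟩
  obtain ⟨g, hgx⟩ := htr x y
  set H : Subgroup G := K ⊓ MulAction.stabilizer G x with hH
  have hmemH : ∀ u : G, u ∈ H ↔ u ∈ K ∧ u • x = x := fun u => Iff.rfl
  have hPH : Y ≤ H := fun u hu => (hmemH u).mpr ⟨hYK hu, hYx u hu⟩
  set Q : Subgroup G := Y.comap (MulAut.conj g).toMonoidHom with hQ
  have hmemQ : ∀ w : G, w ∈ Q ↔ g * w * g⁻¹ ∈ Y := fun w => Iff.rfl
  have hQH : Q ≤ H := by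
    intro w hw
    rw [hmemQ] at hw
    refine (hmemH w).mpr ⟨?_, ?_⟩
    · have h1 := hK.conj_mem _ (hYK hw) g⁻¹
      have h2 : g⁻¹ * (g * w * g⁻¹) * g⁻¹⁻¹ = w := by group
      rwa [h2] at h1
    · have h1 := hy _ hw
      rw [← hgx, mul_smul, mul_smul, inv_smul_smul] at h1
      exact MulAction.injective g h1
  have hQp : IsPGroup r Q := hYr.comap_of_injective _ (MulAut.conj g).injective
  have hQc : Nat.card Q = Nat.card Y := by
    have h1 : Q.map (MulAut.conj g).toMonoidHom = Y :=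
      Subgroup.map_comap_eq_self_of_surjective (MulAut.conj g).surjective Y
    have h2 := Nat.card_congr
      (Q.equivMapOfInjective (MulAut.conj g).toMonoidHom (MulAut.conj g).injective).toEquiv
    rw [h1] at h2
    exact h2
  have hmax' : ∀ R : Subgroup G, R ≤ H → IsPGroup r R → Nat.card R ≤ Nat.card Y :=
    fun R hR hRp => hmax R (hR.trans inf_le_left) (fun u hu => (hR hu).2) hRp
  obtain ⟨S, hS⟩ := D2b_syl r H Y hPH hYr hmax'
  obtain ⟨T, hT⟩ := D2b_syl r H Q hQH hQp (by rw [hQc]; exact hmax')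
  obtain ⟨h, hh⟩ := MulAction.exists_smul_eq H T S
  have key : ∀ w : H, (w : G) ∈ Q ↔ ((h * w * h⁻¹ : H) : G) ∈ Y := by
    intro w
    have h1 : w ∈ (T : Subgroup H) ↔ MulAut.conj h • w ∈ MulAut.conj h • (T : Subgroup H) :=
      Subgroup.smul_mem_pointwise_smul_iff.symm
    rw [← Sylow.coe_subgroup_smul, hh, hS, hT, Subgroup.mem_subgroupOf, Subgroup.mem_subgroupOf] at h1
    exact h1
  have hhx : (h : G) • x = x := h.2.2
  refine ⟨g * (h : G)⁻¹, ?_, ?_⟩
  · intro u
    have e : g * (h : G)⁻¹ * u * (g * (h : G)⁻¹)⁻¹ =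
        g * ((h : G)⁻¹ * u * h) * g⁻¹ := by group
    rw [e, ← hmemQ]
    constructor
    · intro hu
      have hw : (h : G)⁻¹ * u * h ∈ H :=
        H.mul_mem (H.mul_mem (H.inv_mem h.2) (hPH hu)) h.2
      refine (key ⟨_, hw⟩).mpr ?_
      have e2 : ((h * ⟨_, hw⟩ * h⁻¹ : H) : G) = u := by
        push_cast
        group
      rw [e2]
      exact hu
    · intro hu
      have hw := hQH hu
      have h1 := (key ⟨_, hw⟩).mp hu
      have e2 : ((h * ⟨_, hw⟩ * h⁻¹ : H) : G) = u := by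
        push_cast
        group
      rwa [e2] at h1
  · have h1 : (h : G)⁻¹ • x = x := by
      rw [inv_smul_eq_iff]; exact hhx.symm
    rw [mul_smul, h1, hgx]

/-- The maximal order of an `r`-subgroup of `K` fixing a point does not depend on the point.
PROOF. `g • x = y`; `Y'' = {w : g * w * g⁻¹ ∈ Y'}` is an `r`-subgroup of `K` fixing `x`, of the same
order as `Y'`. -/
theorem max_transfer {G V : Type*} [Group G] [Finite G] [MulAction G V]
    (htr : ∀ x y : V, ∃ g : G, g • x = y) (K : Subgroup G) (hK : K.Normal) (r : ℕ) (x y : V)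
    (N : ℕ) (hmax : ∀ Y' : Subgroup G, Y' ≤ K → (∀ u ∈ Y', u • x = x) → IsPGroup r Y' →
      Nat.card Y' ≤ N) (Y' : Subgroup G) (hY' : Y' ≤ K) (hy : ∀ u ∈ Y', u • y = y)
    (hYr : IsPGroup r Y') : Nat.card Y' ≤ N := by
  obtain ⟨g, hgx⟩ := htr x y
  set Q : Subgroup G := Y'.comap (MulAut.conj g).toMonoidHom with hQ
  have hmemQ : ∀ w : G, w ∈ Q ↔ g * w * g⁻¹ ∈ Y' := fun w => Iff.rfl
  have hQp : IsPGroup r Q := hYr.comap_of_injective _ (MulAut.conj g).injective
  have hQc : Nat.card Q = Nat.card Y' := by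
    have h1 : Q.map (MulAut.conj g).toMonoidHom = Y' :=
      Subgroup.map_comap_eq_self_of_surjective (MulAut.conj g).surjective Y'
    have h2 := Nat.card_congr
      (Q.equivMapOfInjective (MulAut.conj g).toMonoidHom (MulAut.conj g).injective).toEquiv
    rw [h1] at h2
    exact h2
  rw [← hQc]
  refine hmax Q (fun w hw => ?_) (fun w hw => ?_) hQp
  · have h1 := hK.conj_mem _ (hY' ((hmemQ w).1 hw)) g⁻¹
    have h2 : g⁻¹ * (g * w * g⁻¹) * g⁻¹⁻¹ = w := by group
    rwa [h2] at h1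
  · have h1 := hy _ ((hmemQ w).1 hw)
    rw [← hgx, mul_smul, mul_smul, inv_smul_smul] at h1
    exact MulAction.injective g h1

end SRV
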