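import Pool.Agent.SRV.A1

set_option autoImplicit false

namespace SRV

open SRT

/-- The fixed points of an automorphism of odd prime order.
PROOF. `Y = Subgroup.zpowers z` has odd order `p`; `{x | z • x = x} = {x | ∀ u ∈ Y, u • x = x}`;
`closed_fix`, `closed_card_le` (A1.lean; proper because `z` moves a point). -/
theorem card_fix_odd_le {G V : Type*} [Group G] [Finite G] [MulAction G V] [Finite V]
    {B : V → V → Prop} {n : ℕ} (h : Geo B (n ^ 2 + 2)) (haut : Aut G B) (p : ℕ)
    (hp : p.Prime) (hp2 : p ≠ 2) (z : G) (hz : orderOf z = p) (hmove : ∃ x : V, z • x ≠ x) :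
    2 * Nat.card {x : V // z • x = x} ≤ n ^ 2 + n + 2 := by
  have hodd : Odd (Nat.card (Subgroup.zpowers z)) := by
    rw [Nat.card_zpowers, hz]
    exact hp.odd_of_ne_two hp2
  have hcl := closed_fix h haut (Subgroup.zpowers z) hodd
  have hiff : ∀ x : V, (∀ u ∈ Subgroup.zpowers z, u • x = x) ↔ z • x = x := by
    intro x
    constructor
    · intro hx
      exact hx z (Subgroup.mem_zpowers z)
    · intro hx u hu
      have h1 : Subgroup.zpowers z ≤ MulAction.stabilizer G x := by
        rw [Subgroup.zpowers_le]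
        exact hx
      exact h1 hu
  have h1 := closed_card_le h hcl (by
    obtain ⟨x, hx⟩ := hmove
    exact ⟨x, fun hc => hx ((hiff x).1 hc)⟩)
  have h2 : Nat.card {x : V // ∀ u ∈ Subgroup.zpowers z, u • x = x} = Nat.card {x : V // z • x = x} :=
    Nat.card_congr (Equiv.subtypeEquivRight hiff)
  rw [h2] at h1
  exact h1

end SRV
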