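import Pool.Agent.SRV.M1
import Pool.Agent.SRV.W2
import Pool.Agent.SRC.F2

set_option autoImplicit false

namespace SRV

open SRT

/-- Orbit lengths for commuting subgroups with transitive product.
PROOF. `l x = |T x|`: for `y = t k x` (`t ∈ T`, `k ∈ K`), `y = k t x` and `T y = T k t x = k T t x = k T x`,
so `|T y| = |T x|`. -/
theorem card_orbit_const {G V : Type*} [Group G] [MulAction G V] [Finite V] (T K : Subgroup G)
    (hcomm : ∀ t ∈ T, ∀ k ∈ K, t * k = k * t)
    (htr : ∀ x y : V, ∃ t ∈ T, ∃ k ∈ K, (t * k) • x = y) (x y : V) :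
    Nat.card (MulAction.orbit T x) = Nat.card (MulAction.orbit T y) := by
  classical
  obtain ⟨t, ht, k, hk, rfl⟩ := htr x y
  have h1 : MulAction.orbit T ((t * k) • x) = (fun a => (t * k) • a) '' MulAction.orbit T x := by
    ext a
    constructor
    · rintro ⟨⟨s, hs⟩, rfl⟩
      refine ⟨(t⁻¹ * s * t) • x, ⟨⟨t⁻¹ * s * t, T.mul_mem (T.mul_mem (T.inv_mem ht) hs) ht⟩, rfl⟩, ?_⟩
      change (t * k) • (t⁻¹ * s * t) • x = s • (t * k) • x
      rw [smul_smul, smul_smul]
      congr 1
      have h2 := hcomm _ (T.mul_mem (T.mul_mem (T.inv_mem ht) hs) ht) k hk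
      rw [mul_assoc t k, ← h2]
      group
    · rintro ⟨_, ⟨⟨s, hs⟩, rfl⟩, rfl⟩
      refine ⟨⟨t * s * t⁻¹, T.mul_mem (T.mul_mem ht hs) (T.inv_mem ht)⟩, ?_⟩
      change (t * s * t⁻¹) • (t * k) • x = (t * k) • s • x
      rw [smul_smul, smul_smul]
      congr 1
      have h2 := hcomm s hs k hk
      rw [mul_assoc t k s, ← h2]
      group
  rw [h1, Nat.card_image_of_injective (MulAction.injective (t * k))]

/-- The number of `K`-orbits divides the length of the `T`-orbits.
PROOF. Fix `x`.  All `K`-orbits have the same length `|K x|` (`card_orbit_const` with the roles of `T`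
and `K` exchanged), all `T`-orbits have the length `|T x|`.  The set `{t • x : t ∈ T} ∩ K x` is an orbit of the
subgroup `{t ∈ T : t • x ∈ K x}` of `T` ... simplest: double count pairs.  Every `K`-orbit `K y` meets
`T x` (`y = t k x = k (t x)`), and `m = |T x ∩ K y|` is the same for all `y`: for `y = t x`, `T x ∩ K (t x) =
t (T x ∩ K x)` (`K` commutes with `t`).  Counting the pairs `(a, y)`, `a ∈ T x`, `y : V`, `a ∈ K y`:
for fixed `y` there are `m`, for fixed `a` there are `|K a| = |K x|`.  So `|T x| |K x| = m |V|`, `m ≥ 1`. -/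
theorem card_orbit_mul {G V : Type*} [Group G] [MulAction G V] [Finite V] (T K : Subgroup G)
    (hcomm : ∀ t ∈ T, ∀ k ∈ K, t * k = k * t)
    (htr : ∀ x y : V, ∃ t ∈ T, ∃ k ∈ K, (t * k) • x = y) (x : V) :
    ∃ m : ℕ, 0 < m ∧
      Nat.card (MulAction.orbit T x) * Nat.card (MulAction.orbit K x) = m * Nat.card V := by
  classical
  have := Fintype.ofFinite V
  have hcomm' : ∀ t ∈ K, ∀ k ∈ T, t * k = k * t := fun t ht k hk => (hcomm k hk t ht).symm
  have htr' : ∀ x y : V, ∃ t ∈ K, ∃ k ∈ T, (t * k) • x = y := by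
    intro x y
    obtain ⟨t, ht, k, hk, h⟩ := htr x y
    exact ⟨k, hk, t, ht, by rw [← hcomm t ht k hk, h]⟩
  have hK := card_orbit_const K T hcomm' htr'
  set s : Finset V := Finset.univ.filter fun a => a ∈ MulAction.orbit T x with hs
  have hms : ∀ a, a ∈ s ↔ a ∈ MulAction.orbit T x := fun a => by simp [hs]
  set r : V → V → Prop := fun a y => y ∈ MulAction.orbit K a with hr
  have hdc := Finset.sum_card_bipartiteAbove_eq_sum_card_bipartiteBelow (s := s) (t := Finset.univ) r
  have hL : ∑ a ∈ s, (Finset.bipartiteAbove r Finset.univ a).card =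
      Nat.card (MulAction.orbit T x) * Nat.card (MulAction.orbit K x) := by
    have e1 : ∀ a ∈ s, (Finset.bipartiteAbove r Finset.univ a).card =
        Nat.card (MulAction.orbit K x) := by
      intro a _
      rw [hK x a, Finset.bipartiteAbove, ← Fintype.card_subtype, ← Nat.card_eq_fintype_card]
    rw [Finset.sum_congr rfl e1, Finset.sum_const, smul_eq_mul]
    congr 1
    rw [hs, ← Fintype.card_subtype, ← Nat.card_eq_fintype_card]
  have hR : ∀ y : V, (Finset.bipartiteBelow r s y).card = (Finset.bipartiteBelow r s x).card := by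
    intro y
    obtain ⟨t, ht, k, hk, rfl⟩ := htr x y
    symm
    refine Finset.card_nbij' (fun a => t • a) (fun a => t⁻¹ • a) ?_ ?_ ?_ ?_
    · intro a ha
      rw [Finset.mem_coe, Finset.mem_bipartiteBelow, hms] at ha ⊢
      obtain ⟨⟨⟨t', ht'⟩, rfl⟩, ⟨k', hk'⟩, h2⟩ := ha
      refine ⟨⟨⟨t * t', T.mul_mem ht ht'⟩, ?_⟩, ⟨⟨k * k', K.mul_mem hk hk'⟩, ?_⟩⟩
      · change (t * t') • x = t • t' • x
        rw [smul_smul]
      · change k' • t' • x = x at h2
        change (k * k') • t • t' • x = (t * k) • x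
        have h3 := hcomm t ht (k * k') (K.mul_mem hk hk')
        rw [smul_smul (k * k') t, ← h3, mul_smul t, mul_smul k, h2, smul_smul]
    · intro a ha
      rw [Finset.mem_coe, Finset.mem_bipartiteBelow, hms] at ha ⊢
      obtain ⟨⟨⟨t', ht'⟩, rfl⟩, ⟨k', hk'⟩, h2⟩ := ha
      refine ⟨⟨⟨t⁻¹ * t', T.mul_mem (T.inv_mem ht) ht'⟩, ?_⟩,
        ⟨⟨k⁻¹ * k', K.mul_mem (K.inv_mem hk) hk'⟩, ?_⟩⟩
      · change (t⁻¹ * t') • x = t⁻¹ • t' • x
        rw [smul_smul]
      · change k' • t' • x = (t * k) • x at h2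
        change (k⁻¹ * k') • t⁻¹ • t' • x = x
        have h3 := hcomm t⁻¹ (T.inv_mem ht) (k⁻¹ * k') (K.mul_mem (K.inv_mem hk) hk')
        rw [smul_smul (k⁻¹ * k') t⁻¹, ← h3, mul_smul t⁻¹, mul_smul k⁻¹, h2, smul_smul, smul_smul]
        have h4 := hcomm t ht k hk
        rw [h4]
        have h5 : t⁻¹ * k⁻¹ * (k * t) = 1 := by group
        rw [h5, one_smul]
    · intro a _
      exact inv_smul_smul t a
    · intro a _
      exact smul_inv_smul t a
  refine ⟨(Finset.bipartiteBelow r s x).card, ?_, ?_⟩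
  · rw [Finset.card_pos]
    refine ⟨x, ?_⟩
    rw [Finset.mem_bipartiteBelow, hms]
    exact ⟨MulAction.mem_orbit_self x, MulAction.mem_orbit_self x⟩
  · rw [← hL, hdc, Finset.sum_congr rfl (fun y _ => hR y), Finset.sum_const, Finset.card_univ,
      smul_eq_mul, mul_comm, Nat.card_eq_fintype_card]

/-- A subgroup `K` commuting with `z` leaves invariant the sets `{x | z • x = x}` and
`{x | B x (z • x)}`; if all its orbits have length `l`, `l` divides their sizes.
PROOF. The set is a disjoint union of orbits of `K` (sum over the orbits,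
`MulAction.selfEquivSigmaOrbits`, as in `SRC.free_dvd`, Pool/Agent/SRC/C3.lean; or
`Setoid.card...`). -/
theorem dvd_of_invariant {G V : Type*} [Group G] [Finite G] [MulAction G V] [Finite V]
    (K : Subgroup G) (l : ℕ) (hl : ∀ x : V, Nat.card (MulAction.orbit K x) = l) (q : V → Prop)
    (hq : ∀ k ∈ K, ∀ x : V, q x → q (k • x)) : l ∣ Nat.card {x : V // q x} := by
  classical
  let act : MulAction K {x : V // q x} :=
    { smul := fun k x => ⟨k.1 • x.1, hq k.1 k.2 x.1 x.2⟩
      one_smul := fun x => Subtype.ext (one_smul G x.1)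
      mul_smul := fun a b x => Subtype.ext (mul_smul a.1 b.1 x.1) }
  have := Fintype.ofFinite (Quotient (MulAction.orbitRel K {x : V // q x}))
  rw [Nat.card_congr (MulAction.selfEquivSigmaOrbits K {x : V // q x}), Nat.card_sigma]
  apply Finset.dvd_sum
  intro ω _
  have h1 : ∀ x : {x : V // q x}, Nat.card (MulAction.orbit K x) = l := by
    intro x
    rw [← hl x.1]
    have h2 : MulAction.orbit K x.1 = Subtype.val '' (MulAction.orbit K x) := by
      ext a
      constructor
      · rintro ⟨k, rfl⟩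
        exact ⟨k • x, ⟨k, rfl⟩, rfl⟩
      · rintro ⟨_, ⟨k, rfl⟩, rfl⟩
        exact ⟨k, rfl⟩
    rw [h2, Nat.card_image_of_injective Subtype.val_injective]
  rw [h1]

end SRV
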