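import Pool.Agent.SRV.M2

set_option autoImplicit false

namespace SRV

open SRT

/-- Pure arithmetic.
PROOF. `A = n^2+n+2`, `A' = n^2-n+2` (both even); `{N, N'} = {A, A'}` and `2 v = N N'`.  `N = lK u`;
`m N N' = 2 m v = 2 lT lK`, so `m u N' = 2 lT` (cancel `lK > 0`), so with `N' = 2 M`: `M ∣ lT ∣ N`.
`M ∣ 2 M = N'`, so `M ∣ |N - N'| = 2 n > 0`, `M ≤ 2 n`, `n^2 - n + 2 ≤ N' = 2 M ≤ 4 n`, so `n ≤ 4`;
`n = 3`: `{14, 8}`: `4 ∤ 14`, `7 ∤ 8`; `n = 4`: `{22, 14}`: `7 ∤ 22`, `11 ∤ 14`. -/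
theorem false_of_lengths (n v lT lK m N : ℕ) (ε : ℤ) (hn : 3 ≤ n)
    (hv : 2 * v = n ^ 4 + 3 * n ^ 2 + 4) (hε : ε = 1 ∨ ε = -1)
    (hN : (N : ℤ) = (n : ℤ) ^ 2 + 2 + ε * n) (hm : 0 < m) (hlK : 0 < lK)
    (hmul : lT * lK = m * v) (h1 : lK ∣ N) (h2 : lT ∣ N) : False := by
  obtain ⟨k, rfl⟩ : ∃ k, n = k + 3 := ⟨n - 3, by omega⟩
  have hfac : 2 * v = (k ^ 2 + 5 * k + 8) * (k ^ 2 + 7 * k + 14) := by
    rw [hv]; ring
  have e1 : ∃ M, k ^ 2 + 5 * k + 8 = 2 * M := by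
    rcases Nat.even_or_odd' k with ⟨c, rfl | rfl⟩
    · exact ⟨2 * c ^ 2 + 5 * c + 4, by ring⟩
    · exact ⟨2 * c ^ 2 + 7 * c + 7, by ring⟩
  have e2 : ∃ M, k ^ 2 + 7 * k + 14 = 2 * M := by
    rcases Nat.even_or_odd' k with ⟨c, rfl | rfl⟩
    · exact ⟨2 * c ^ 2 + 7 * c + 7, by ring⟩
    · exact ⟨2 * c ^ 2 + 9 * c + 11, by ring⟩
  obtain ⟨u, hu⟩ := h1
  -- the half of the other factor divides `N`
  have key : ∀ M : ℕ, 2 * v = N * (2 * M) → M ∣ N := by
    intro M hM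
    have h3 : lK * lT = lK * (m * u * M) := by
      have h4 : 2 * (lK * lT) = 2 * (lK * (m * u * M)) := by
        calc 2 * (lK * lT) = 2 * (lT * lK) := by ring
          _ = m * (2 * v) := by rw [hmul]; ring
          _ = m * (lK * u * (2 * M)) := by rw [hM, hu]
          _ = 2 * (lK * (m * u * M)) := by ring
      omega
    have h5 : lT = m * u * M := Nat.eq_of_mul_eq_mul_left hlK h3
    exact (Dvd.intro_left _ h5.symm).trans h2
  rcases hε with rfl | rfl
  · have hN' : N = k ^ 2 + 7 * k + 14 := by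
      zify
      rw [hN]
      push_cast
      ring
    obtain ⟨M, hM⟩ := e1
    have h3 := key M (by rw [hfac, hM, hN']; ring)
    have h4 : M ∣ 2 * k + 6 := by
      have h5 : M ∣ N - 2 * M := Nat.dvd_sub h3 (Dvd.intro_left _ rfl)
      have h6 : N - 2 * M = 2 * k + 6 := by omega
      rwa [h6] at h5
    have h5 := Nat.le_of_dvd (by omega) h4
    have h6 : k ≤ 1 := by
      by_contra hcon
      push Not at hcon
      nlinarith
    interval_cases k
    · have hM4 : M = 4 := by omega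
      rw [hN', hM4] at h3
      norm_num at h3
    · have hM7 : M = 7 := by omega
      rw [hN', hM7] at h3
      norm_num at h3
  · have hN' : N = k ^ 2 + 5 * k + 8 := by
      zify
      rw [hN]
      push_cast
      ring
    obtain ⟨M, hM⟩ := e2
    have h3 := key M (by rw [hfac, hM, hN'])
    have h4 : M ∣ 2 * k + 6 := by
      have h5 : M ∣ 2 * M - N := Nat.dvd_sub (Dvd.intro_left _ rfl) h3
      have h6 : 2 * M - N = 2 * k + 6 := by omega
      rwa [h6] at h5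
    have h5 := Nat.le_of_dvd (by omega) h4
    nlinarith

/-- Two commuting subgroups `T`, `K` with transitive product, `T` conjugate into `K`: impossible if
`T` has an element of odd prime order.
PROOF. Let `lT`, `lK` be the common lengths of the orbits of `T` and of `K` (`card_orbit_const`, for
`K` with the roles exchanged), `lT lK = m |V|`, `m ≥ 1` (`card_orbit_mul`).
(i) `lT ≤ lK`: `g • (T x) ⊆ K (g x)` (`g t x = (g t g⁻¹) g x`), `a ↦ g • a` injective.
(ii) `z` has no fixed point: if `z • x = x`, then `K x ⊆ {y | z • y = y}` (`K` commutes with `z`), so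
`2 lK ≤ n^2+n+2` (`card_fix_odd_le`, M1.lean; `z ≠ 1` moves a point by `hfaith`) and
`|V| ≤ lT lK ≤ lK^2`, so `4 |V| ≤ (n^2+n+2)^2`; with `2 |V| = (n^2+n+2)(n^2-n+2)`
(`h.two_mul_card'`): `2 (n^2-n+2) ≤ n^2+n+2`, impossible for `n ≥ 3`.
(iii) So `z` is free, `p ∣ |V|` (`zpowers z` acts without fixed points), `p ∣ 2 |V|`, choose `ε = ± 1` with
`p ∣ n^2+2+ε n` (compare the proof of `Sit.el_free`, B3.lean) and `N` with
`N = n^2+2+ε n`.  `NN B z = N` (`SRT.NN_eq`).  `lK ∣ N` (`dvd_of_invariant` for `K` and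
`q x = B x (z • x)`).  `z' = g z g⁻¹ ∈ K` also is free, `z' ^ p = 1`, so `NN B z' = N`, and `T` commutes
with `z'`: `lT ∣ N`.  `false_of_lengths`. -/
theorem false_of_comm {G V : Type*} [Group G] [Finite G] [MulAction G V] [Finite V] [Nonempty V]
    {B : V → V → Prop} {n : ℕ} (h : Geo B (n ^ 2 + 2)) (hn : 3 ≤ n) (haut : Aut G B)
    (hfaith : ∀ g : G, (∀ x : V, g • x = x) → g = 1) (T K : Subgroup G)
    (hcomm : ∀ t ∈ T, ∀ k ∈ K, t * k = k * t)
    (htr : ∀ x y : V, ∃ t ∈ T, ∃ k ∈ K, (t * k) • x = y) (g : G)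
    (hg : ∀ t ∈ T, g * t * g⁻¹ ∈ K) (p : ℕ) (hp : p.Prime) (hp2 : p ≠ 2) (z : G) (hz : z ∈ T)
    (hzo : orderOf z = p) : False := by
  classical
  have : Fact p.Prime := ⟨hp⟩
  obtain ⟨x₀⟩ := (inferInstance : Nonempty V)
  have hcomm' : ∀ k ∈ K, ∀ t ∈ T, k * t = t * k := fun k hk t ht => (hcomm t ht k hk).symm
  have htr' : ∀ x y : V, ∃ k ∈ K, ∃ t ∈ T, (k * t) • x = y := by
    intro x y
    obtain ⟨t, ht, k, hk, hxy⟩ := htr x y
    exact ⟨k, hk, t, ht, by rw [← hcomm t ht k hk]; exact hxy⟩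
  obtain ⟨lT, hlT⟩ : ∃ l, ∀ x : V, Nat.card (MulAction.orbit T x) = l :=
    ⟨_, fun x => card_orbit_const T K hcomm htr x x₀⟩
  obtain ⟨lK, hlK⟩ : ∃ l, ∀ x : V, Nat.card (MulAction.orbit K x) = l :=
    ⟨_, fun x => card_orbit_const K T hcomm' htr' x x₀⟩
  obtain ⟨m, hm, hmul⟩ := card_orbit_mul T K hcomm htr x₀
  rw [hlT, hlK] at hmul
  have hlK0 : 0 < lK := by
    rw [← hlK x₀]
    have : Nonempty (MulAction.orbit K x₀) := ⟨⟨x₀, MulAction.mem_orbit_self x₀⟩⟩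
    exact Nat.card_pos
  have hv := h.two_mul_card'
  have hz1 : z ≠ 1 := by
    rintro rfl
    rw [orderOf_one] at hzo
    exact hp.one_lt.ne hzo
  -- (i)
  have hle : lT ≤ lK := by
    rw [← hlT x₀, ← hlK (g • x₀)]
    have hmem : ∀ a ∈ MulAction.orbit T x₀, g • a ∈ MulAction.orbit K (g • x₀) := by
      rintro _ ⟨t, rfl⟩
      refine ⟨⟨g * (t : G) * g⁻¹, hg t t.2⟩, ?_⟩
      show (g * (t : G) * g⁻¹) • g • x₀ = g • (t : G) • x₀
      rw [smul_smul, inv_mul_cancel_right, mul_smul]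
    apply Nat.card_le_card_of_injective
      (fun a : MulAction.orbit T x₀ =>
        (⟨g • (a : V), hmem a a.2⟩ : MulAction.orbit K (g • x₀)))
    intro a b hab
    have h1 : g • (a : V) = g • (b : V) := congrArg Subtype.val hab
    exact Subtype.ext (MulAction.injective g h1)
  -- (ii)
  have hmove : ∃ x : V, z • x ≠ x := by
    by_contra hcon
    push Not at hcon
    exact hz1 (hfaith z hcon)
  have hfree : ∀ x : V, z • x ≠ x := by
    intro x hx
    have h1 := card_fix_odd_le h haut p hp hp2 z hzo hmove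
    have h2 : lK ≤ Nat.card {y : V // z • y = y} := by
      rw [← hlK x]
      have hmem : ∀ a ∈ MulAction.orbit K x, z • a = a := by
        rintro _ ⟨k, rfl⟩
        show z • (k : G) • x = (k : G) • x
        rw [smul_smul, hcomm z hz k k.2, mul_smul, hx]
      apply Nat.card_le_card_of_injective
        (fun a : MulAction.orbit K x => (⟨(a : V), hmem a a.2⟩ : {y : V // z • y = y}))
      intro a b hab
      have h1 : (a : V) = (b : V) := (Subtype.mk.injEq _ _ _ _).mp hab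
      exact Subtype.ext h1
    have h3 : Nat.card V ≤ lK * lK := by
      calc Nat.card V ≤ m * Nat.card V := Nat.le_mul_of_pos_left _ hm
        _ = lT * lK := hmul.symm
        _ ≤ lK * lK := Nat.mul_le_mul_right _ hle
    have h4 : 2 * lK ≤ n ^ 2 + n + 2 := by omega
    have h5 : (2 * lK) * (2 * lK) ≤ (n ^ 2 + n + 2) * (n ^ 2 + n + 2) := Nat.mul_le_mul h4 h4
    obtain ⟨k, rfl⟩ : ∃ k, n = k + 3 := ⟨n - 3, by omega⟩
    have hfac : 2 * Nat.card V = (k ^ 2 + 5 * k + 8) * (k ^ 2 + 7 * k + 14) := by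
      rw [hv]; ring
    have h6 : (k + 3) ^ 2 + (k + 3) + 2 = k ^ 2 + 7 * k + 14 := by ring
    rw [h6] at h5
    have h7 : 2 * (k ^ 2 + 5 * k + 8) * (k ^ 2 + 7 * k + 14)
        ≤ (k ^ 2 + 7 * k + 14) * (k ^ 2 + 7 * k + 14) := by
      calc 2 * (k ^ 2 + 5 * k + 8) * (k ^ 2 + 7 * k + 14) = 2 * (2 * Nat.card V) := by
            rw [hfac]; ring
        _ ≤ 2 * (2 * (lK * lK)) := by omega
        _ = (2 * lK) * (2 * lK) := by ring
        _ ≤ _ := h5
    have h8 := Nat.le_of_mul_le_mul_right h7 (by positivity)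
    nlinarith
  -- (iii)
  have hpV : p ∣ Nat.card V := by
    have hpg : IsPGroup p (Subgroup.zpowers z) := by
      apply IsPGroup.of_card (n := 1)
      rw [Nat.card_zpowers, hzo, pow_one]
    have h1 := hpg.card_modEq_card_fixedPoints V
    have h2 : IsEmpty (MulAction.fixedPoints (Subgroup.zpowers z) V) := by
      refine ⟨fun a => ?_⟩
      have h3 := a.2 ⟨z, Subgroup.mem_zpowers z⟩
      exact hfree a.1 h3
    rw [Nat.card_of_isEmpty (α := MulAction.fixedPoints (Subgroup.zpowers z) V)] at h1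
    exact (Nat.modEq_zero_iff_dvd).1 h1
  have hfac : ((2 * Nat.card V : ℕ) : ℤ) =
      ((n : ℤ) ^ 2 + 2 + 1 * n) * ((n : ℤ) ^ 2 + 2 + (-1) * n) := by
    rw [hv]; push_cast; ring
  obtain ⟨ε, hε, hd⟩ : ∃ ε : ℤ, (ε = 1 ∨ ε = -1) ∧ (p : ℤ) ∣ (n : ℤ) ^ 2 + 2 + ε * n := by
    have hpG : (p : ℤ) ∣ (2 * Nat.card V : ℕ) := by
      exact_mod_cast hpV.mul_left 2
    rw [hfac] at hpG
    have hpp : Prime (p : ℤ) := Nat.prime_iff_prime_int.1 hp
    rcases hpp.dvd_or_dvd hpG with h5 | h5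
    · exact ⟨1, Or.inl rfl, h5⟩
    · exact ⟨-1, Or.inr rfl, h5⟩
  obtain ⟨N, hN⟩ : ∃ N : ℕ, (N : ℤ) = (n : ℤ) ^ 2 + 2 + ε * n := by
    have h1 : (0 : ℤ) ≤ (n : ℤ) ^ 2 + 2 + ε * n := by
      rcases hε with rfl | rfl <;> nlinarith
    exact ⟨((n : ℤ) ^ 2 + 2 + ε * n).toNat, Int.toNat_of_nonneg h1⟩
  have hzp : z ^ p = 1 := by rw [← hzo]; exact pow_orderOf_eq_one z
  have hNz : NN B z = N := by
    have h1 := NN_eq h haut p hp hp2 ε hε hd z hzp hfree
    rw [← hN] at h1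
    exact_mod_cast h1
  have hNz' : NN B (g * z * g⁻¹) = N := by
    have h1 := NN_eq h haut p hp hp2 ε hε hd (g * z * g⁻¹) (by rw [conj_pow, hzp]; group) ?_
    · rw [← hN] at h1
      exact_mod_cast h1
    · intro x hx
      apply hfree (g⁻¹ • x)
      have h2 : g⁻¹ • (g * z * g⁻¹) • x = g⁻¹ • x := by rw [hx]
      rw [smul_smul] at h2
      have h3 : g⁻¹ * (g * z * g⁻¹) = z * g⁻¹ := by group
      rw [h3, mul_smul] at h2
      exact h2
  have h1 : lK ∣ N := by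
    rw [← hNz]
    refine dvd_of_invariant K lK hlK (fun x => B x (z • x)) ?_
    intro k hk x hx
    have h2 := haut k _ _ hx
    rwa [smul_smul, ← hcomm z hz k hk, mul_smul] at h2
  have h2 : lT ∣ N := by
    rw [← hNz']
    refine dvd_of_invariant T lT hlT (fun x => B x ((g * z * g⁻¹) • x)) ?_
    intro t ht x hx
    have h2 := haut t _ _ hx
    rwa [smul_smul, hcomm t ht _ (hg z hz), mul_smul] at h2
  exact false_of_lengths n (Nat.card V) lT lK m N ε hn hv hε hN hm hlK0 hmul h1 h2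

end SRV
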