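import Pool.Agent.SRV.M3
import Pool.Agent.SRV.B4

set_option autoImplicit false

namespace SRV

open SRT

/-- the conjugate subgroup -/
private def cj {G : Type*} [Group G] (u : G) (T : Subgroup G) : Subgroup G :=
  T.map (MulAut.conj u).toMonoidHom

private theorem mem_cj {G : Type*} [Group G] {u : G} {T : Subgroup G} {x : G} :
    x ∈ cj u T ↔ ∃ t ∈ T, u * t * u⁻¹ = x := by
  simp [cj, Subgroup.mem_map, MulAut.conj_apply]

private theorem card_cj {G : Type*} [Group G] (u : G) (T : Subgroup G) :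
    Nat.card (cj u T) = Nat.card T := by
  unfold cj
  exact Subgroup.card_map_of_injective (MulAut.conj u).injective

/-- two conjugates of a minimal invariant subgroup are equal or commute -/
private theorem eq_or_comm {G : Type*} [Group G] [Finite G] (N : Subgroup G) (hN : N.Normal)
    (T : Subgroup G) (hTN : T ≤ N)
    (hT : ∀ g ∈ N, ∀ t ∈ T, g * t * g⁻¹ ∈ T)
    (hmin : ∀ S : Subgroup G, S ≤ T → S ≠ ⊥ → (∀ g ∈ N, ∀ t ∈ S, g * t * g⁻¹ ∈ S) → S = T)
    (u : G) : cj u T = T ∨ ∀ t ∈ T, ∀ s ∈ cj u T, t * s = s * t := by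
  have hN' : cj u T ≤ N := by
    intro x hx
    obtain ⟨t, ht, rfl⟩ := mem_cj.1 hx
    exact hN.conj_mem t (hTN ht) u
  have hinv : ∀ g ∈ N, ∀ t ∈ cj u T, g * t * g⁻¹ ∈ cj u T := by
    intro g hg x hx
    obtain ⟨t, ht, rfl⟩ := mem_cj.1 hx
    have h1 : u⁻¹ * g * u ∈ N := by
      have := hN.conj_mem g hg u⁻¹
      rwa [inv_inv] at this
    refine mem_cj.2 ⟨_, hT _ h1 t ht, ?_⟩
    group
  by_cases hb : T ⊓ cj u T = ⊥
  · right
    intro t ht s hs
    have h1 : t * s * t⁻¹ * s⁻¹ ∈ T ⊓ cj u T := by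
      refine ⟨?_, ?_⟩
      · have h2 : s * t⁻¹ * s⁻¹ ∈ T := hT s (hN' hs) _ (T.inv_mem ht)
        have h3 := T.mul_mem ht h2
        have h4 : t * (s * t⁻¹ * s⁻¹) = t * s * t⁻¹ * s⁻¹ := by group
        rwa [h4] at h3
      · exact (cj u T).mul_mem (hinv t (hTN ht) s hs) ((cj u T).inv_mem hs)
    rw [hb, Subgroup.mem_bot] at h1
    have h2 : t * s * t⁻¹ = s := by
      rwa [mul_inv_eq_one] at h1
    rwa [mul_inv_eq_iff_eq_mul] at h2
  · left
    have h1 : T ⊓ cj u T = T := by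
      apply hmin _ inf_le_left hb
      intro g hg t ht
      exact ⟨hT g hg t ht.1, hinv g hg t ht.2⟩
    have h2 : T ≤ cj u T := inf_eq_left.1 h1
    exact (Subgroup.eq_of_le_of_card_ge h2 (card_cj u T).le).symm

/-- a normal `p`-subgroup is contained in every Sylow subgroup -/
private theorem le_sylow {G : Type*} [Group G] [Finite G] (p : ℕ) [Fact p.Prime] (H : Subgroup G)
    (hH : H.Normal) (hp : IsPGroup p H) (P : Sylow p G) : H ≤ P := by
  obtain ⟨Q, hQ⟩ := hp.exists_le_sylow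
  obtain ⟨g, hg⟩ := MulAction.exists_smul_eq G Q P
  intro x hx
  rw [← hg]
  have h1 : g⁻¹ * x * g ∈ H := by
    have := hH.conj_mem x hx g⁻¹
    rwa [inv_inv] at this
  have h2 : g⁻¹ * x * g ∈ Q := hQ h1
  have h3 : MulAut.conj g (g⁻¹ * x * g) = x := by
    rw [MulAut.conj_apply]; group
  show x ∈ (g • Q : Sylow p G)
  rw [Sylow.smul_def]
  rw [← h3]
  exact Subgroup.smul_mem_pointwise_smul _ (MulAut.conj g) _ h2

/-- In a minimal normal subgroup `N` that is not simple and not a `2`-group there are two commuting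
subgroups whose product is `N`, one of them conjugate into the other. -/
theorem exists_commuting {G : Type*} [Group G] [Finite G] (N : Subgroup G) (hN : N.Normal)
    (hN1 : N ≠ ⊥) (hmin : ∀ M : Subgroup G, M.Normal → M ≤ N → M = ⊥ ∨ M = N)
    (hns : ¬ IsSimpleGroup N) (h2 : ¬ IsPGroup 2 N) :
    ∃ (T K : Subgroup G) (g : G) (p : ℕ) (z : G), (∀ t ∈ T, ∀ k ∈ K, t * k = k * t) ∧
      (∀ u ∈ N, ∃ t ∈ T, ∃ k ∈ K, u = t * k) ∧ (∀ t ∈ T, g * t * g⁻¹ ∈ K) ∧ p.Prime ∧ p ≠ 2 ∧
      z ∈ T ∧ orderOf z = p := by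
  classical
  -- a minimal member of the family
  obtain ⟨T, hTm⟩ := (Set.toFinite {T : Subgroup G | T ≤ N ∧ T ≠ ⊥ ∧
    ∀ g ∈ N, ∀ t ∈ T, g * t * g⁻¹ ∈ T}).exists_minimal
      ⟨N, le_refl _, hN1, fun g hg t ht => N.mul_mem (N.mul_mem hg ht) (N.inv_mem hg)⟩
  obtain ⟨⟨hTN, hT1, hT⟩, hTmin⟩ := hTm
  have hTmin' : ∀ S : Subgroup G, S ≤ T → S ≠ ⊥ → (∀ g ∈ N, ∀ t ∈ S, g * t * g⁻¹ ∈ S) →
      S = T := by
    intro S hS hS1 hS2
    exact le_antisymm hS (hTmin ⟨hS.trans hTN, hS1, hS2⟩ hS)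
  -- `T ≠ N`
  have hTne : T ≠ N := by
    intro hTN'
    apply hns
    have hnt : Nontrivial N := by
      rw [Subgroup.nontrivial_iff_ne_bot]
      exact hN1
    refine ⟨fun M hM => ?_⟩
    by_cases hM1 : M = ⊥
    · exact Or.inl hM1
    · right
      have h3 : M.map N.subtype = T := by
        apply hTmin'
        · rw [hTN']
          intro x hx
          obtain ⟨y, _, rfl⟩ := Subgroup.mem_map.1 hx
          exact y.2
        · intro h
          apply hM1
          exact (Subgroup.map_eq_bot_iff_of_injective M N.subtype_injective).1 h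
        · intro g hg t ht
          obtain ⟨y, hy, rfl⟩ := Subgroup.mem_map.1 ht
          exact Subgroup.mem_map.2 ⟨_, hM.conj_mem y hy ⟨g, hg⟩, rfl⟩
      rw [eq_top_iff]
      intro x _
      have h4 : (x : G) ∈ M.map N.subtype := by
        rw [h3, hTN']
        exact x.2
      obtain ⟨y, hy, hyx⟩ := Subgroup.mem_map.1 h4
      have : y = x := Subtype.ext hyx
      rwa [this] at hy
  have hdich := eq_or_comm N hN T hTN hT hTmin'
  have hcjN : ∀ u : G, ∀ x ∈ cj u T, x ∈ N := by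
    intro u x hx
    obtain ⟨t, ht, rfl⟩ := mem_cj.1 hx
    exact hN.conj_mem t (hTN ht) u
  -- the normal closure of `T` is `N`
  have hnc : Subgroup.normalClosure (T : Set G) = N := by
    have h3 := hmin (Subgroup.normalClosure (T : Set G)) Subgroup.normalClosure_normal
      (Subgroup.normalClosure_le_normal hTN)
    rcases h3 with h3 | h3
    · exfalso
      apply hT1
      rw [eq_bot_iff, ← h3]
      exact Subgroup.subset_normalClosure
    · exact h3
  -- a conjugate different from `T`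
  obtain ⟨g, hg⟩ : ∃ g : G, cj g T ≠ T := by
    by_contra hcon
    push Not at hcon
    have hTn : T.Normal := by
      refine ⟨fun t ht g => ?_⟩
      rw [← hcon g]
      exact mem_cj.2 ⟨t, ht, rfl⟩
    rcases hmin T hTn hTN with h3 | h3
    · exact hT1 h3
    · exact hTne h3
  -- `T` is not a `2`-group
  have hT2 : ¬ IsPGroup 2 T := by
    intro hT2
    have : Fact (Nat.Prime 2) := ⟨Nat.prime_two⟩
    obtain ⟨P⟩ : Nonempty (Sylow 2 N) := inferInstance
    have h3 : ∀ u : G, ∀ x ∈ cj u T, x ∈ (P : Subgroup N).map N.subtype := by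
      intro u x hx
      have h4 : ((cj u T).subgroupOf N).Normal := by
        refine ⟨fun y hy w => ?_⟩
        rw [Subgroup.mem_subgroupOf] at hy ⊢
        obtain ⟨t, ht, hty⟩ := mem_cj.1 hy
        have h1 : u⁻¹ * (w : G) * u ∈ N := by
          have := hN.conj_mem w w.2 u⁻¹
          rwa [inv_inv] at this
        refine mem_cj.2 ⟨_, hT _ h1 t ht, ?_⟩
        push_cast
        rw [← hty]
        group
      have h5 : IsPGroup 2 ((cj u T).subgroupOf N) := by
        have h6 : IsPGroup 2 (cj u T) := hT2.map _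
        exact h6.comap_of_injective _ N.subtype_injective
      have h7 := le_sylow 2 _ h4 h5 P
      refine Subgroup.mem_map.2 ⟨⟨x, hcjN u x hx⟩, h7 ?_, rfl⟩
      rw [Subgroup.mem_subgroupOf]
      exact hx
    have h8 : N ≤ (P : Subgroup N).map N.subtype := by
      refine hnc.symm.le.trans ?_
      unfold Subgroup.normalClosure
      rw [Subgroup.closure_le]
      intro x hx
      obtain ⟨a, ha, hax⟩ := Group.mem_conjugatesOfSet_iff.1 hx
      obtain ⟨c, hc⟩ := isConj_iff.1 hax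
      exact h3 c x (mem_cj.2 ⟨a, ha, hc⟩)
    apply h2
    intro x
    have h9 := h8 x.2
    obtain ⟨y, hy, hyx⟩ := Subgroup.mem_map.1 h9
    obtain ⟨k, hk⟩ := P.isPGroup' ⟨y, hy⟩
    refine ⟨k, ?_⟩
    have h10 : y = x := Subtype.ext hyx
    rw [← h10]
    have := congrArg Subtype.val hk
    simpa using this
  -- an odd prime
  obtain ⟨p, hp, hpd, hp2⟩ : ∃ p : ℕ, p.Prime ∧ p ∣ Nat.card T ∧ p ≠ 2 := by
    by_contra hcon
    push Not at hcon
    apply hT2
    have : Fact (Nat.Prime 2) := ⟨Nat.prime_two⟩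
    rw [IsPGroup.iff_card]
    have h3 := Nat.eq_prime_pow_of_unique_prime_dvd (n := Nat.card T) (p := 2) Nat.card_pos.ne'
      (fun {d} hd hdd => hcon d hd hdd)
    exact ⟨_, h3⟩
  have : Fact p.Prime := ⟨hp⟩
  obtain ⟨z, hz⟩ := exists_prime_orderOf_dvd_card' (G := T) p hpd
  -- the centraliser
  let K : Subgroup G := N ⊓ Subgroup.centralizer (T : Set G)
  have hTK : ∀ t ∈ T, ∀ k ∈ K, t * k = k * t := by
    intro t ht k hk
    exact (Subgroup.mem_centralizer_iff.1 hk.2) t ht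
  let P : Subgroup G :=
    { carrier := {x | ∃ t ∈ T, ∃ k ∈ K, x = t * k}
      one_mem' := ⟨1, T.one_mem, 1, K.one_mem, by simp⟩
      mul_mem' := by
        rintro a b ⟨t, ht, k, hk, rfl⟩ ⟨t', ht', k', hk', rfl⟩
        refine ⟨t * t', T.mul_mem ht ht', k * k', K.mul_mem hk hk', ?_⟩
        have h3 := hTK t' ht' k hk
        calc t * k * (t' * k') = t * (k * t') * k' := by group
          _ = t * (t' * k) * k' := by rw [h3]
          _ = t * t' * (k * k') := by group
      inv_mem' := by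
        rintro a ⟨t, ht, k, hk, rfl⟩
        refine ⟨t⁻¹, T.inv_mem ht, k⁻¹, K.inv_mem hk, ?_⟩
        rw [mul_inv_rev]
        exact (hTK _ (T.inv_mem ht) _ (K.inv_mem hk)).symm }
  have hNP : N ≤ P := by
    rw [← hnc]
    unfold Subgroup.normalClosure
    rw [Subgroup.closure_le]
    intro x hx
    obtain ⟨a, ha, hax⟩ := Group.mem_conjugatesOfSet_iff.1 hx
    obtain ⟨c, hc⟩ := isConj_iff.1 hax
    have hxc : x ∈ cj c T := mem_cj.2 ⟨a, ha, hc⟩
    rcases hdich c with h3 | h3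
    · rw [h3] at hxc
      exact ⟨x, hxc, 1, K.one_mem, by simp⟩
    · refine ⟨1, T.one_mem, x, ⟨hcjN c x hxc, Subgroup.mem_centralizer_iff.2 ?_⟩, by simp⟩
      intro t ht
      exact h3 t ht x hxc
  refine ⟨T, K, g, p, z, hTK, fun u hu => hNP hu, ?_, hp, hp2, z.2, ?_⟩
  · intro t ht
    have h3 : g * t * g⁻¹ ∈ cj g T := mem_cj.2 ⟨t, ht, rfl⟩
    refine ⟨hcjN g _ h3, Subgroup.mem_centralizer_iff.2 ?_⟩
    intro s hs
    rcases hdich g with h4 | h4
    · exact absurd h4 hg
    · exact h4 s hs _ h3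
  · rw [← hz]
    exact Subgroup.orderOf_coe z

end SRV
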