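import Pool.Agent.SRV.Defs
import Pool.Agent.SRC.W6

set_option autoImplicit false

namespace SRV

open SRT

/-- Average of `NN B g` over any finite group of automorphisms: congruent to `2` modulo `n`.
PROOF. Matrices over `ℂ` indexed by `V` (`mM`, `mJ`, `mP` in Pool/Agent/SRT/A0a.lean, A0b.lean).  As in
`SRT.NN_modEq` (Pool/Agent/SRT/A3.lean) let `v = |V|`, `c = (n^2+2+n)/v`, `Q = mM ℂ B - c • mJ ℂ V`,
`Q * Q = n^2 • 1` (`deflated_sq`).  Let `Π = |G|⁻¹ • ∑ g, mP ℂ V g`.  `Π * mP ℂ V g = Π`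
(reindex, `mP_mul`), so `Π * Π = Π`; `Π` commutes with `mM ℂ B` (`mP_comm`), `Π * mJ = mJ = mJ * Π`,
so `Π * Q = Q * Π`.  `X = 1 - Π + n⁻¹ • (Π * Q)` satisfies `X ^ 2 = 1` (`(1-Π)² = 1-Π`,
`(1-Π) Π Q = 0`, `(Π Q)² = n² Π`).  `Y = 1 - 2 • Π` satisfies `Y ^ 2 = 1`.
`SRC.exists_nat_trace` (Pool/Agent/SRC/W6.lean) for both: `trace X = v - 2 b`,
`trace Y = v - 2 b'`, so `trace Π = b'` and `trace (Π Q) = n (b' - 2 b)`.
`trace (Π Q) = |G|⁻¹ ∑ NN B g - c v` (`trace_mP_mul_mM`; `trace (mP * mJ) = trace mJ = v`), so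
`∑ NN B g = |G| (n^2 + 2 + n + n (b' - 2 b))`, all integers; so `z = n + 1 + b' - 2 b`. -/
theorem orbit_trace {G V : Type*} [Group G] [Fintype G] [MulAction G V] [Finite V] [Nonempty V]
    {B : V → V → Prop} {n : ℕ} (h : Geo B (n ^ 2 + 2)) (haut : Aut G B) (hn : 1 ≤ n) :
    ∃ z : ℤ, (∑ g : G, (NN B g : ℤ)) = Nat.card G * (2 + n * z) := by
  classical
  let _ : Fintype V := Fintype.ofFinite V
  have hn0 : (n : ℂ) ≠ 0 := by exact_mod_cast (by omega : n ≠ 0)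
  have hv := h.two_mul_card'
  rw [Nat.card_eq_fintype_card] at hv
  have hv0 : (Fintype.card V : ℂ) ≠ 0 := by exact_mod_cast Fintype.card_ne_zero
  have hvC : 2 * (Fintype.card V : ℂ) = (n : ℂ) ^ 4 + 3 * (n : ℂ) ^ 2 + 4 := by exact_mod_cast hv
  set v : ℂ := (Fintype.card V : ℂ) with hvdef
  set c : ℂ := ((n : ℂ) ^ 2 + 2 + n) / v with hc
  have hcv : c * v = (n : ℂ) ^ 2 + 2 + n := by rw [hc]; field_simp
  have hc2 : c ^ 2 * v - 2 * c * ((n ^ 2 + 2 : ℕ) : ℂ) + 2 = 0 := by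
    have h1 : v * (c ^ 2 * v - 2 * c * ((n ^ 2 + 2 : ℕ) : ℂ) + 2) = 0 := by
      push_cast
      have : v * (c ^ 2 * v - 2 * c * ((n : ℂ) ^ 2 + 2) + 2)
          = (c * v) ^ 2 - 2 * (c * v) * ((n : ℂ) ^ 2 + 2) + 2 * v := by ring
      rw [this, hcv, hvC]
      ring
    exact (mul_eq_zero.1 h1).resolve_left hv0
  have hQ := deflated_sq h ℂ c hc2
  set Q := mM ℂ B - c • mJ ℂ V with hQdef
  have hG0 : (Fintype.card G : ℂ) ≠ 0 := by exact_mod_cast Fintype.card_ne_zero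
  obtain ⟨S, hS⟩ : ∃ S : Matrix V V ℂ, S = ∑ g : G, mP ℂ V g := ⟨_, rfl⟩
  obtain ⟨P, hP⟩ : ∃ P : Matrix V V ℂ, P = (Fintype.card G : ℂ)⁻¹ • S := ⟨_, rfl⟩
  have hSg : ∀ g : G, S * mP ℂ V g = S := by
    intro g
    rw [hS, Finset.sum_mul]
    simp only [mP_mul]
    exact Equiv.sum_comp (Equiv.mulLeft g) (fun x => mP ℂ V x)
  have hPg : ∀ g : G, P * mP ℂ V g = P := by
    intro g
    rw [hP, Matrix.smul_mul, hSg]
  have hPS : P * S = (Fintype.card G : ℂ) • P := by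
    rw [hS, Finset.mul_sum]
    simp only [hPg]
    rw [Finset.sum_const, Finset.card_univ, ← Nat.cast_smul_eq_nsmul ℂ]
  have hPP : P * P = P := by
    conv_lhs => rw [hP, Matrix.mul_smul, ← hP, hPS]
    rw [smul_smul, inv_mul_cancel₀ hG0, one_smul]
  have hPQ : P * Q = Q * P := by
    have h1 : ∀ g : G, mP ℂ V g * Q = Q * mP ℂ V g := by
      intro g
      rw [hQdef, mul_sub, sub_mul, mP_comm haut, Matrix.mul_smul, Matrix.smul_mul,
        mP_mul_mJ, mJ_mul_mP]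
    rw [hP, Matrix.smul_mul, Matrix.mul_smul, hS, Finset.sum_mul, Finset.mul_sum]
    simp only [h1]
  obtain ⟨A, hA⟩ : ∃ A : Matrix V V ℂ, A = P * Q := ⟨_, rfl⟩
  have hPA : P * A = A := by rw [hA, ← mul_assoc, hPP]
  have hAP : A * P = A := by rw [hA, mul_assoc, ← hPQ, ← mul_assoc, hPP]
  have hAA : A * A = ((n : ℂ) ^ 2) • P := by
    have h1 : A * A = A * P * Q := by rw [mul_assoc, ← hA]
    rw [h1, hAP, hA, mul_assoc, hQ]
    have : (((n ^ 2 + 2 : ℕ) : ℂ) - 2) = (n : ℂ) ^ 2 := by push_cast; ring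
    rw [this, Matrix.mul_smul, Matrix.mul_one]
  have hX : (1 - P + (n : ℂ)⁻¹ • A) ^ 2 = 1 := by
    have h1 : (n : ℂ)⁻¹ * ((n : ℂ)⁻¹ * (n : ℂ) ^ 2) = 1 := by field_simp
    rw [pow_two]
    simp only [mul_add, add_mul, mul_sub, sub_mul, one_mul, mul_one, Matrix.smul_mul,
      Matrix.mul_smul, hPP, hPA, hAP, hAA, smul_smul, h1, one_smul]
    abel
  have hY : (1 - (2 : ℂ) • P) ^ 2 = 1 := by
    rw [pow_two]
    simp only [mul_sub, sub_mul, one_mul, mul_one, Matrix.smul_mul,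
      Matrix.mul_smul, hPP, smul_smul]
    have : ((2 : ℂ) * 2) • P = (2 : ℂ) • P + (2 : ℂ) • P := by rw [← add_smul]; norm_num
    rw [this]
    abel
  obtain ⟨b, hb⟩ := SRC.exists_nat_trace _ hX
  obtain ⟨b', hb'⟩ := SRC.exists_nat_trace _ hY
  rw [Matrix.trace_sub, Matrix.trace_smul, Matrix.trace_one, ← hvdef, smul_eq_mul] at hb'
  rw [Matrix.trace_add, Matrix.trace_sub, Matrix.trace_smul, Matrix.trace_one, ← hvdef,
    smul_eq_mul] at hb
  have htP : P.trace = b' := by linear_combination (-1 / 2 : ℂ) * hb'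
  have htA : A.trace = n * ((b' : ℂ) - 2 * b) := by
    rw [htP] at hb
    have h1 : A.trace = n * ((n : ℂ)⁻¹ * A.trace) := by field_simp
    rw [h1]
    linear_combination (n : ℂ) * hb
  have htA2 : (Fintype.card G : ℂ) * A.trace =
      (∑ g : G, (NN B g : ℂ)) - (Fintype.card G : ℂ) * ((n : ℂ) ^ 2 + 2 + n) := by
    have h1 : ∀ g : G, (mP ℂ V g * Q).trace = (NN B g : ℂ) - ((n : ℂ) ^ 2 + 2 + n) := by
      intro g
      rw [hQdef, mul_sub, Matrix.mul_smul, mP_mul_mJ, Matrix.trace_sub, Matrix.trace_smul,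
        trace_mP_mul_mM h, trace_mJ, smul_eq_mul, ← hvdef, hcv]
    have h2 : A.trace = (Fintype.card G : ℂ)⁻¹ * ∑ g : G, (mP ℂ V g * Q).trace := by
      rw [hA, hP, Matrix.smul_mul, Matrix.trace_smul, smul_eq_mul, hS, Finset.sum_mul,
        Matrix.trace_sum]
    rw [h2, ← mul_assoc, mul_inv_cancel₀ hG0, one_mul]
    simp only [h1]
    rw [Finset.sum_sub_distrib, Finset.sum_const, Finset.card_univ, nsmul_eq_mul]
  refine ⟨(n : ℤ) + 1 + b' - 2 * b, ?_⟩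
  have hfin : (∑ g : G, (NN B g : ℂ)) =
      (Fintype.card G : ℂ) * (2 + n * ((n : ℂ) + 1 + b' - 2 * b)) := by
    rw [htA] at htA2
    linear_combination -htA2
  rw [Nat.card_eq_fintype_card]
  exact_mod_cast hfin

end SRV
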