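import Pool.Agent.SRV.Defs
import Pool.Agent.SRT.W4

set_option autoImplicit false

namespace SRV

open SRT

/-- the twisted closed walks that consist of fixed points are the closed walks of the fixed graph.
PROOF. Let `Δ = {x : V // g • x = x}`, `B' a b = B a.1 b.1`.  `y ↦ (i ↦ ⟨y i, _⟩)` is a bijection of the
left side with `TS (G := (⊥ : Subgroup (Equiv.Perm Δ))) B' 1 L`
(`y (i + L) = g • y i = y i`).  Then `SRT.card_TS` (Pool/Agent/SRT/W2b.lean) for the trivial group
`⊥ : Subgroup (Equiv.Perm Δ)` (all its elements are `1`, so `Aut` holds). -/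
theorem card_TS_fixed {G V : Type*} [Group G] [MulAction G V] [Fintype V] {B : V → V → Prop}
    (g : G) [Fintype {x : V // g • x = x}] (L : ℕ) (hL : 0 < L) :
    Nat.card {y : TS B g L // ∀ i, g • y.1 i = y.1 i} =
      ∑ x : {x : V // g • x = x}, wk (fun a b : {x : V // g • x = x} => B a.1 b.1) L x x := by
  have haut : Aut (⊥ : Subgroup (Equiv.Perm {x : V // g • x = x}))
      (fun a b : {x : V // g • x = x} => B a.1 b.1) := by
    intro h x y hxy
    have h1 : h = 1 := Subsingleton.elim _ _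
    rw [h1, one_smul, one_smul]
    exact hxy
  have e := card_TS haut 1 L hL
  simp only [one_smul] at e
  rw [← e]
  refine Nat.card_congr ⟨fun y => ⟨fun i => ⟨y.1.1 i, y.2 i⟩, fun i => y.1.2.1 i, fun i => ?_⟩,
    fun w => ⟨⟨fun i => (w.1 i).1, fun i => w.2.1 i, fun i => ?_⟩, fun i => (w.1 i).2⟩, fun y => ?_,
    fun w => ?_⟩
  · rw [one_smul]
    exact Subtype.ext ((y.1.2.2 i).trans (y.2 i))
  · have h1 := w.2.2 i
    rw [one_smul] at h1
    show (w.1 (i + L)).1 = g • (w.1 i).1
    rw [h1]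
    exact (w.1 i).2.symm
  · exact Subtype.ext (Subtype.ext rfl)
  · exact Subtype.ext rfl

/-- number of closed walks of odd length of such a geometry.
PROOF. `SRT.sum_wk` (Pool/Agent/SRT/W1.lean) for the group `⊥ : Subgroup (Equiv.Perm V)` and `g = 1`;
`NN B 1 = |V|` (`1 • y = y`, `refl`). -/
theorem sum_wk_self {V : Type*} [Fintype V] [Nonempty V] {B : V → V → Prop} {m : ℕ}
    (h : Geo B (m ^ 2 + 2)) (k : ℕ) :
    ∑ x : V, wk B (2 * k + 1) x x + m ^ (2 * k) * (m ^ 2 + 2) =
      m ^ (2 * k) * Nat.card V + (m ^ 2 + 2) ^ (2 * k + 1) := by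
  have e := sum_wk (G := (⊥ : Subgroup (Equiv.Perm V))) h k 1
  simp only [one_smul] at e
  have h1 : NN B (1 : (⊥ : Subgroup (Equiv.Perm V))) = Nat.card V := by
    unfold NN
    refine Nat.card_congr (Equiv.subtypeUnivEquiv fun y => ?_)
    rw [one_smul]
    exact h.refl y
  rw [h1] at e
  exact e

end SRV
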