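import Pool.Agent.SRV.W1
import Pool.Agent.SRV.W3
import Pool.Agent.SRV.A1

set_option autoImplicit false

namespace SRV

open SRT

/-- an integer divisible by all powers of `p` is `0` -/
theorem W4_zero {p : ℕ} (hp : p.Prime) (X : ℤ) (h : ∀ k : ℕ, (p : ℤ) ^ (k + 1) ∣ X) : X = 0 := by
  refine Int.eq_zero_of_abs_lt_dvd (h X.natAbs) ?_
  rw [Int.abs_eq_natAbs]
  have h3 : X.natAbs < p ^ (X.natAbs + 1) :=
    (Nat.lt_pow_self hp.one_lt).trans_le (Nat.pow_le_pow_right hp.pos (Nat.le_succ _))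
  exact_mod_cast h3

/-- the twisted walks: those of fixed points and the others -/
theorem W4_split {G V : Type*} [Group G] [MulAction G V] [Finite V] {B : V → V → Prop}
    (g : G) (L : ℕ) (hfin : Finite (TS B g L)) :
    Nat.card (TS B g L) = Nat.card {y : TS B g L // ∃ i, g • y.1 i ≠ y.1 i} +
      Nat.card {y : TS B g L // ∀ i, g • y.1 i = y.1 i} := by
  classical
  rw [← Nat.card_sum]
  refine Nat.card_congr ((Equiv.sumCompl (fun y : TS B g L => ∃ i, g • y.1 i ≠ y.1 i)).symm.trans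
    (Equiv.sumCongr (Equiv.refl _) (Equiv.subtypeEquivRight fun y => ?_)))
  push Not
  exact Iff.rfl

/-- Number of vertices moved into their closed neighbourhood by an automorphism `g` of `p`-power order
(`p` odd, not dividing `n`) whose fixed graph has degree `m ^ 2 + 1`, in terms of `m`.
PROOF. Let `Δ = {x // g • x = x}` (nonempty), `w = |Δ|`, `2 w = m^4 + 3 m^2 + 4`
(`Geo.two_mul_card'`).  Fix `k` and write `p^k = 2 l + 1`.
`T = Nat.card (TS B g (p^k)) = ∑_x wk B (p^k) x (g • x)` (`SRT.card_TS`),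
`T + n^(2l) (n^2+2) = n^(2l) NN B g + (n^2+2)^(p^k)` (`SRT.sum_wk`).
`T = T₁ + T₂`, `T₂ = Nat.card {y // ∀ i, g • y i = y i}`, `T₁ = Nat.card {y // ∃ i, ...}`,
`p^(k+1) ∣ T₁` (`dvd_card_TS_fix`; `SRT.finite_TS`), and
`T₂ + m^(2l) (m^2+2) = m^(2l) w + (m^2+2)^(p^k)` (`card_TS_fixed`, `sum_wk_self`).
As `n ≡ ε m (mod p)`: `n^2+2 ≡ m^2+2 (mod p)` so `(n^2+2)^(p^k) ≡ (m^2+2)^(p^k) (mod p^(k+1))` and
`n^(p^k) ≡ (ε m)^(p^k) = ε m^(p^k) (mod p^(k+1))` (`dvd_sub_pow_of_dvd_sub`).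
So mod `p^(k+1)`: `n^(2l) (NN B g - (n^2+2)) ≡ m^(2l) (w - (m^2+2))` and
`2 (w - (m^2+2)) = m^2 (m^2+1)`; multiply by `2 n`:
`n^(p^k) · 2 (NN B g - (n^2+2)) ≡ n m · m^(p^k) (m^2+1) ≡ n^(p^k) · ε n m (m^2+1)`
(`m^(p^k) ≡ ε n^(p^k)` as `ε^2 = 1`).  `p ∤ n`, so `p^(k+1)` divides
`2 (NN B g - (n^2+2)) - ε n m (m^2+1)` for every `k`; so it is `0`
(as in `SRT.NN_eq`, Pool/Agent/SRT/W4.lean). -/
theorem NN_fix {G V : Type*} [Group G] [MulAction G V] [Finite V] [Nonempty V]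
    {B : V → V → Prop} {n m : ℕ} (h : Geo B (n ^ 2 + 2)) (haut : Aut G B) (p : ℕ) (hp : p.Prime)
    (hp2 : p ≠ 2) (hpn : ¬ p ∣ n) (e : ℕ) (g : G) (hg : g ^ (p ^ e) = 1)
    (hne : ∃ x : V, g • x = x)
    (hm : Geo (fun x y : {x : V // g • x = x} => B x.1 y.1) (m ^ 2 + 2))
    (ε : ℤ) (hε : ε = 1 ∨ ε = -1) (hd : (p : ℤ) ∣ (n : ℤ) - ε * m) :
    2 * ((NN B g : ℤ) - ((n : ℤ) ^ 2 + 2)) = ε * n * m * ((m : ℤ) ^ 2 + 1) := by
  let _ : Fintype V := Fintype.ofFinite V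
  let _ : Fintype {x : V // g • x = x} := Fintype.ofFinite _
  have : Nonempty {x : V // g • x = x} := by
    obtain ⟨x, hx⟩ := hne
    exact ⟨⟨x, hx⟩⟩
  have key : ∀ k : ℕ, (p : ℤ) ^ (k + 1) ∣
      2 * ((NN B g : ℤ) - ((n : ℤ) ^ 2 + 2)) - ε * n * m * ((m : ℤ) ^ 2 + 1) := by
    intro k
    have hodd : Odd (p ^ k) := (hp.odd_of_ne_two hp2).pow
    obtain ⟨l, hl⟩ := hodd
    have hfin := finite_TS B g (p ^ k) (pow_pos hp.pos k)
    have h1 := dvd_card_TS_fix B g p k e hp hg hfin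
    have hsplit := W4_split (B := B) g (p ^ k) hfin
    have hT := card_TS haut g (p ^ k) (pow_pos hp.pos k)
    have hT2 := card_TS_fixed (B := B) g (p ^ k) (pow_pos hp.pos k)
    rw [hT, hT2] at hsplit
    have h1' : (p : ℤ) ^ (k + 1) ∣ ((Nat.card {y : TS B g (p ^ k) // ∃ i, g • y.1 i ≠ y.1 i} : ℕ) : ℤ) := by
      have := Int.natCast_dvd_natCast.2 h1
      rwa [Nat.cast_pow] at this
    clear h1 hT hT2
    generalize Nat.card {y : TS B g (p ^ k) // ∃ i, g • y.1 i ≠ y.1 i} = T1 at *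
    rw [hl] at hsplit
    have h2 := sum_wk h l g
    have h3 := sum_wk_self hm l
    have h4 := hm.two_mul_card'
    generalize (∑ x : V, wk B (2 * l + 1) x (g • x)) = T at *
    generalize (∑ x : {x : V // g • x = x},
      wk (fun a b : {x : V // g • x = x} => B a.1 b.1) (2 * l + 1) x x) = T2 at *
    generalize Nat.card {x : V // g • x = x} = w at *
    have hs' : (T : ℤ) = T1 + T2 := by exact_mod_cast hsplit
    have h2' : (T : ℤ) + (n : ℤ) ^ (2 * l) * ((n : ℤ) ^ 2 + 2)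
        = (n : ℤ) ^ (2 * l) * (NN B g : ℤ) + ((n : ℤ) ^ 2 + 2) ^ (2 * l + 1) := by
      exact_mod_cast h2
    have h3' : (T2 : ℤ) + (m : ℤ) ^ (2 * l) * ((m : ℤ) ^ 2 + 2)
        = (m : ℤ) ^ (2 * l) * (w : ℤ) + ((m : ℤ) ^ 2 + 2) ^ (2 * l + 1) := by
      exact_mod_cast h3
    have h4' : 2 * (w : ℤ) = (m : ℤ) ^ 4 + 3 * (m : ℤ) ^ 2 + 4 := by
      exact_mod_cast h4
    have hε2 : ε ^ 2 = 1 := by
      rcases hε with rfl | rfl <;> norm_num
    have hε3 : ε ^ (2 * l + 1) = ε := by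
      rw [pow_succ, pow_mul, hε2, one_pow, one_mul]
    have h5 : (p : ℤ) ^ (k + 1) ∣ ((n : ℤ) ^ 2 + 2) ^ (2 * l + 1) - ((m : ℤ) ^ 2 + 2) ^ (2 * l + 1) := by
      rw [← hl]
      refine dvd_sub_pow_of_dvd_sub (R := ℤ) (p := p) ?_ k
      have : ((n : ℤ) ^ 2 + 2) - ((m : ℤ) ^ 2 + 2) = ((n : ℤ) - ε * m) * ((n : ℤ) + ε * m) := by
        linear_combination (m : ℤ) ^ 2 * (hε2 : ε ^ 2 = 1)
      rw [this]
      exact Dvd.dvd.mul_right hd _
    have h6 : (p : ℤ) ^ (k + 1) ∣ (n : ℤ) ^ (2 * l + 1) - ε * (m : ℤ) ^ (2 * l + 1) := by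
      have := dvd_sub_pow_of_dvd_sub (R := ℤ) (p := p) hd k
      rw [hl, mul_pow, hε3] at this
      exact this
    have hcop : IsCoprime ((p : ℤ) ^ (k + 1)) ((n : ℤ) ^ (2 * l + 1)) := by
      apply IsCoprime.pow
      exact Int.isCoprime_iff_gcd_eq_one.2 ((Nat.Prime.coprime_iff_not_dvd hp).2 hpn)
    refine hcop.dvd_of_dvd_mul_left ?_
    have h7 : (n : ℤ) ^ (2 * l + 1) *
        (2 * ((NN B g : ℤ) - ((n : ℤ) ^ 2 + 2)) - ε * n * m * ((m : ℤ) ^ 2 + 1)) =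
        2 * n * T1 - 2 * n * (((n : ℤ) ^ 2 + 2) ^ (2 * l + 1) - ((m : ℤ) ^ 2 + 2) ^ (2 * l + 1))
        - ε * n * m * ((m : ℤ) ^ 2 + 1) *
          ((n : ℤ) ^ (2 * l + 1) - ε * (m : ℤ) ^ (2 * l + 1)) := by
      have e1 : (n : ℤ) ^ (2 * l + 1) = n * (n : ℤ) ^ (2 * l) := pow_succ' _ _
      have e2 : (m : ℤ) ^ (2 * l + 1) = m * (m : ℤ) ^ (2 * l) := pow_succ' _ _
      rw [e1, e2]
      linear_combination (2 * n) * h3' - (2 * n) * h2' + (2 * n) * hs'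
        + (n * (m : ℤ) ^ (2 * l)) * h4' + (- n * (m : ℤ) ^ 2 * ((m : ℤ) ^ 2 + 1) * (m : ℤ) ^ (2 * l)) * hε2
    rw [h7]
    exact dvd_sub (dvd_sub (Dvd.dvd.mul_left h1' _) (Dvd.dvd.mul_left h5 _)) (Dvd.dvd.mul_left h6 _)
  have := W4_zero hp _ key
  linarith

/-- The same when there is exactly one fixed vertex.
PROOF. As above with `T₂ = 1` (the constant walk; `card_TS_fixed` and `wk B' L x x = 1` for a
one-point set, or directly: `{y // ∀ i, g • y i = y i}` has exactly one element).  So mod `p^(k+1)`: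
`n^(2l) (NN B g - (n^2+2)) + (n^2+2)^(p^k) ≡ 1`.  `p ∣ n^2+1` is a hypothesis, so
`(n^2+2)^(p^k) ≡ 1 (mod p^(k+1))` (`dvd_sub_pow_of_dvd_sub`), and `p ∤ n`.  So
`p^(k+1) ∣ NN B g - (n^2+2)` for all `k`. -/
theorem NN_fix_one {G V : Type*} [Group G] [MulAction G V] [Finite V] [Nonempty V]
    {B : V → V → Prop} {n : ℕ} (h : Geo B (n ^ 2 + 2)) (haut : Aut G B) (p : ℕ) (hp : p.Prime)
    (hp2 : p ≠ 2) (hpn : p ∣ n ^ 2 + 1) (e : ℕ) (g : G) (hg : g ^ (p ^ e) = 1)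
    (hone : Nat.card {x : V // g • x = x} = 1) :
    NN B g = n ^ 2 + 2 := by
  let _ : Fintype V := Fintype.ofFinite V
  obtain ⟨hsub, ⟨⟨x0, hx0⟩⟩⟩ := Nat.card_eq_one_iff_unique.1 hone
  have huniq : ∀ x : V, g • x = x → x = x0 := fun x hx =>
    congrArg Subtype.val (hsub.allEq ⟨x, hx⟩ ⟨x0, hx0⟩)
  have hpn' : ¬ p ∣ n := by
    intro hcon
    have h1 : p ∣ n ^ 2 := dvd_pow hcon (by norm_num)
    have h2 : p ∣ 1 := (Nat.dvd_add_right h1).1 hpn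
    exact hp.one_lt.ne' (Nat.dvd_one.1 h2)
  have key : ∀ k : ℕ, (p : ℤ) ^ (k + 1) ∣ (NN B g : ℤ) - ((n : ℤ) ^ 2 + 2) := by
    intro k
    have hodd : Odd (p ^ k) := (hp.odd_of_ne_two hp2).pow
    obtain ⟨l, hl⟩ := hodd
    have hfin := finite_TS B g (p ^ k) (pow_pos hp.pos k)
    have h1 := dvd_card_TS_fix B g p k e hp hg hfin
    have hsplit := W4_split (B := B) g (p ^ k) hfin
    have hT := card_TS haut g (p ^ k) (pow_pos hp.pos k)
    have hT2 : Nat.card {y : TS B g (p ^ k) // ∀ i, g • y.1 i = y.1 i} = 1 := by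
      rw [Nat.card_eq_one_iff_unique]
      constructor
      · constructor
        intro a b
        refine Subtype.ext (Subtype.ext (funext fun i => ?_))
        rw [huniq _ (a.2 i), huniq _ (b.2 i)]
      · exact ⟨⟨⟨fun _ => x0, fun _ => h.refl x0, fun _ => hx0.symm⟩, fun _ => hx0⟩⟩
    rw [hT, hT2] at hsplit
    have h1' : (p : ℤ) ^ (k + 1) ∣ ((Nat.card {y : TS B g (p ^ k) // ∃ i, g • y.1 i ≠ y.1 i} : ℕ) : ℤ) := by
      have := Int.natCast_dvd_natCast.2 h1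
      rwa [Nat.cast_pow] at this
    clear h1 hT hT2
    generalize Nat.card {y : TS B g (p ^ k) // ∃ i, g • y.1 i ≠ y.1 i} = T1 at *
    rw [hl] at hsplit
    have h2 := sum_wk h l g
    generalize (∑ x : V, wk B (2 * l + 1) x (g • x)) = T at *
    have hs' : (T : ℤ) = T1 + 1 := by exact_mod_cast hsplit
    have h2' : (T : ℤ) + (n : ℤ) ^ (2 * l) * ((n : ℤ) ^ 2 + 2)
        = (n : ℤ) ^ (2 * l) * (NN B g : ℤ) + ((n : ℤ) ^ 2 + 2) ^ (2 * l + 1) := by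
      exact_mod_cast h2
    have h5 : (p : ℤ) ^ (k + 1) ∣ ((n : ℤ) ^ 2 + 2) ^ (2 * l + 1) - 1 ^ (2 * l + 1) := by
      rw [← hl]
      refine dvd_sub_pow_of_dvd_sub (R := ℤ) (p := p) ?_ k
      have h6 : (p : ℤ) ∣ (n : ℤ) ^ 2 + 1 := by exact_mod_cast Int.natCast_dvd_natCast.2 hpn
      have : ((n : ℤ) ^ 2 + 2) - 1 = (n : ℤ) ^ 2 + 1 := by ring
      rw [this]
      exact h6
    rw [one_pow] at h5
    have hcop : IsCoprime ((p : ℤ) ^ (k + 1)) ((n : ℤ) ^ (2 * l)) := by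
      apply IsCoprime.pow
      exact Int.isCoprime_iff_gcd_eq_one.2 ((Nat.Prime.coprime_iff_not_dvd hp).2 hpn')
    refine hcop.dvd_of_dvd_mul_left ?_
    have h7 : (n : ℤ) ^ (2 * l) * ((NN B g : ℤ) - ((n : ℤ) ^ 2 + 2)) =
        T1 - (((n : ℤ) ^ 2 + 2) ^ (2 * l + 1) - 1) := by
      linear_combination hs' - h2'
    rw [h7]
    exact dvd_sub h1' h5
  have := W4_zero hp _ key
  have h8 : (NN B g : ℤ) = ((n ^ 2 + 2 : ℕ) : ℤ) := by
    push_cast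
    linarith
  exact_mod_cast h8

end SRV
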