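import Pool.Agent.SRV.Defs

set_option autoImplicit false

namespace SRV

open SRT

theorem W5_pgroup {G : Type*} [Group G] (p e : ℕ) (g : G) (hg : g ^ (p ^ e) = 1) :
    IsPGroup p (Subgroup.zpowers g) := by
  rintro ⟨τ, hτ⟩
  obtain ⟨l, rfl⟩ := Subgroup.mem_zpowers_iff.1 hτ
  refine ⟨e, ?_⟩
  apply Subtype.ext
  show (g ^ l) ^ (p ^ e) = 1
  rw [← zpow_natCast, ← zpow_mul, mul_comm, zpow_mul, zpow_natCast, hg, one_zpow]

theorem W5_pow_fix {G V : Type*} [Group G] [MulAction G V] (g : G) (x : V) (hx : g • x = x)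
    (l : ℤ) : g ^ l • x = x := by
  have h1 : g ∈ MulAction.stabilizer G x := hx
  exact (MulAction.stabilizer G x).zpow_mem h1 l

/-- number of fixed closed neighbours of a fixed vertex.
PROOF. The cyclic group generated by `g` (a `p`-group: `zpowers g`, `IsPGroup.of_card`, or
`hg`) acts on `{y : V // B x y}` (`g • x = x`); `IsPGroup.card_modEq_card_fixedPoints`. -/
theorem fix_deg_modEq {G V : Type*} [Group G] [MulAction G V] [Finite V]
    {B : V → V → Prop} {d : ℕ} (h : Geo B d) (haut : Aut G B) (p : ℕ) (hp : p.Prime)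
    (e : ℕ) (g : G) (hg : g ^ (p ^ e) = 1) (x : V) (hx : g • x = x) :
    Nat.card {y : V // B x y ∧ g • y = y} ≡ d [MOD p] := by
  have hfp : Fact p.Prime := ⟨hp⟩
  have hY := W5_pgroup p e g hg
  letI : MulAction (Subgroup.zpowers g) {y : V // B x y} :=
    { smul := fun τ y => ⟨(τ : G) • y.1, by
        obtain ⟨l, hl⟩ := Subgroup.mem_zpowers_iff.1 τ.2
        have h1 := haut (τ : G) x y.1 y.2
        rw [← hl, W5_pow_fix g x hx l] at h1
        rw [← hl]
        exact h1⟩
      one_smul := fun y => Subtype.ext (one_smul G y.1)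
      mul_smul := fun a b y => Subtype.ext (mul_smul (a : G) (b : G) y.1) }
  have h1 := hY.card_modEq_card_fixedPoints {y : V // B x y}
  rw [h.card x] at h1
  refine Nat.ModEq.trans ?_ h1.symm
  have h2 : Nat.card {y : V // B x y ∧ g • y = y} =
      Nat.card (MulAction.fixedPoints (Subgroup.zpowers g) {y : V // B x y}) := by
    refine Nat.card_congr
      { toFun := fun y => ⟨⟨y.1, y.2.1⟩, ?_⟩
        invFun := fun y => ⟨y.1.1, y.1.2, ?_⟩
        left_inv := fun y => rfl
        right_inv := fun y => rfl }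
    · rw [MulAction.mem_fixedPoints]
      rintro ⟨τ, hτ⟩
      obtain ⟨l, rfl⟩ := Subgroup.mem_zpowers_iff.1 hτ
      exact Subtype.ext (W5_pow_fix g y.1 y.2.2 l)
    · have h3 := MulAction.mem_fixedPoints.1 y.2 ⟨g, Subgroup.mem_zpowers g⟩
      exact congrArg Subtype.val h3
  rw [h2]

/-- PROOF. as above, `zpowers g` acting on `V`. -/
theorem fix_card_modEq {G V : Type*} [Group G] [MulAction G V] [Finite V] (p : ℕ) (hp : p.Prime)
    (e : ℕ) (g : G) (hg : g ^ (p ^ e) = 1) :
    Nat.card {y : V // g • y = y} ≡ Nat.card V [MOD p] := by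
  have hfp : Fact p.Prime := ⟨hp⟩
  have hY := W5_pgroup p e g hg
  have h1 := hY.card_modEq_card_fixedPoints V
  refine Nat.ModEq.trans ?_ h1.symm
  have h2 : Nat.card {y : V // g • y = y} =
      Nat.card (MulAction.fixedPoints (Subgroup.zpowers g) V) := by
    refine Nat.card_congr
      { toFun := fun y => ⟨y.1, ?_⟩
        invFun := fun y => ⟨y.1, ?_⟩
        left_inv := fun y => rfl
        right_inv := fun y => rfl }
    · rw [MulAction.mem_fixedPoints]
      rintro ⟨τ, hτ⟩
      obtain ⟨l, rfl⟩ := Subgroup.mem_zpowers_iff.1 hτ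
      exact W5_pow_fix g y.1 y.2 l
    · exact MulAction.mem_fixedPoints.1 y.2 ⟨g, Subgroup.mem_zpowers g⟩
  rw [h2]

end SRV
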