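import Pool.Agent.SRV.W2
import Pool.Agent.SRV.W4
import Pool.Agent.SRV.W5
import Pool.Agent.SRT.H3
import Pool.Agent.SRT.A1b

set_option autoImplicit false

namespace SRV

open SRT

/-- converse of `SRT.geo_of_srg` -/
theorem srg_of_geo {V : Type*} [Fintype V] [DecidableEq V] (Γ : SimpleGraph V)
    [DecidableRel Γ.Adj] {k : ℕ} (h : Geo (fun x y => x = y ∨ Γ.Adj x y) (k + 1)) :
    Γ.IsSRGWith (Fintype.card V) k 0 2 := by
  classical
  have hcard : ∀ x, (Finset.univ.filter fun y => x = y ∨ Γ.Adj x y).card = k + 1 := by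
    intro x
    rw [← h.card x, Nat.card_eq_fintype_card, Fintype.card_subtype]
  have htwo : ∀ x z, x ≠ z →
      (Finset.univ.filter fun y => (x = y ∨ Γ.Adj x y) ∧ (y = z ∨ Γ.Adj y z)).card = 2 := by
    intro x z hxz
    rw [← h.two x z hxz, Nat.card_eq_fintype_card, Fintype.card_subtype]
  refine ⟨rfl, ?_, ?_, ?_⟩
  · intro x
    have h1 : (Finset.univ.filter fun y => x = y ∨ Γ.Adj x y) = insert x (Γ.neighborFinset x) := by
      ext y
      simp [eq_comm]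
    have h2 := hcard x
    rw [h1, Finset.card_insert_of_notMem (by simp), Γ.card_neighborFinset_eq_degree] at h2
    omega
  · intro x z hadj
    rw [Fintype.card_eq_zero_iff]
    refine ⟨fun ⟨y, hy1, hy2⟩ => ?_⟩
    have h1 : ({x, z, y} : Finset V) ⊆
        Finset.univ.filter fun y => (x = y ∨ Γ.Adj x y) ∧ (y = z ∨ Γ.Adj y z) := by
      intro u hu
      simp only [Finset.mem_insert, Finset.mem_singleton] at hu
      simp only [Finset.mem_filter, Finset.mem_univ, true_and]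
      rcases hu with rfl | rfl | rfl
      · exact ⟨Or.inl rfl, Or.inr hadj⟩
      · exact ⟨Or.inr hadj, Or.inl rfl⟩
      · exact ⟨Or.inr hy1, Or.inr hy2.symm⟩
    have h2 := Finset.card_le_card h1
    have hxy : x ≠ y := Γ.ne_of_adj hy1
    have hzy : z ≠ y := Γ.ne_of_adj hy2
    rw [htwo x z hadj.ne, Finset.card_eq_three.2 ⟨x, z, y, hadj.ne, hxy, hzy, rfl⟩] at h2
    omega
  · intro x z hxz hadj
    rw [← htwo x z hxz, ← Set.toFinset_card]
    congr 1
    ext y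
    simp only [Finset.mem_filter, Finset.mem_univ, true_and, Set.mem_toFinset,
      SimpleGraph.mem_commonNeighbors]
    constructor
    · rintro ⟨h1, h2⟩
      exact ⟨Or.inr h1, Or.inr h2.symm⟩
    · rintro ⟨h1 | h1, h2 | h2⟩
      · exact absurd (h1.trans h2) hxz
      · subst h1; exact absurd h2 hadj
      · subst h2; exact absurd h1 hadj
      · exact ⟨h1, h2.symm⟩

/-- Automorphisms of odd prime power order. -/
theorem odd_aut {G V : Type*} [Group G] [MulAction G V] [Finite V] [Nonempty V]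
    {B : V → V → Prop} {n : ℕ} (h : Geo B (n ^ 2 + 2)) (haut : Aut G B) (p : ℕ) (hp : p.Prime)
    (hp2 : p ≠ 2) (e : ℕ) (g : G) (hg : g ^ (p ^ e) = 1) :
    ((∀ x : V, g • x ≠ x) ∧ ∃ ε : ℤ, (ε = 1 ∨ ε = -1) ∧ (p : ℤ) ∣ (n : ℤ) ^ 2 + 2 + ε * n ∧
      (NN B g : ℤ) = (n : ℤ) ^ 2 + 2 + ε * n) ∨
    (Nat.card {x : V // g • x = x} = 1 ∧ p ∣ n ^ 2 + 1 ∧ NN B g = n ^ 2 + 2) ∨
    ((∃ x : V, g • x = x) ∧ ∃ (m : ℕ) (ε : ℤ), (ε = 1 ∨ ε = -1) ∧
      Geo (fun x y : {x : V // g • x = x} => B x.1 y.1) (m ^ 2 + 2) ∧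
      (p : ℤ) ∣ (n : ℤ) - ε * m ∧
      (¬ p ∣ n → 2 * ((NN B g : ℤ) - ((n : ℤ) ^ 2 + 2)) = ε * n * m * ((m : ℤ) ^ 2 + 1)) ∧
      ((∃ x : V, g • x ≠ x) → m ^ 2 + 1 ≤ n)) := by
  classical
  have hpZ : Prime (p : ℤ) := Nat.prime_iff_prime_int.1 hp
  by_cases hne : ∃ x : V, g • x = x
  · right
    have hodd : Odd (p ^ e) := (hp.odd_of_ne_two hp2).pow
    have hperm : (MulAction.toPermHom G V g) ^ (p ^ e) = 1 := by
      rw [← map_pow, hg, map_one]
    have hcl : Closed B (fun x : V => g • x = x) := by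
      intro x z hx hz hxz y hxy hyz
      refine fix_of_two (MulAction.toPermHom G V g) (p ^ e) hodd hperm
        (fun y => B x y ∧ B y z) (h.two x z hxz) ?_ y ⟨hxy, hyz⟩
      rintro w ⟨hw1, hw2⟩
      have e1 := haut g _ _ hw1
      have e2 := haut g _ _ hw2
      rw [hx] at e1
      rw [hz] at e2
      exact ⟨e1, e2⟩
    obtain ⟨d', h'⟩ := exists_geo_closed h hcl hne
    obtain ⟨x₀, hx₀⟩ := id hne
    have hW : Nonempty {x : V // g • x = x} := ⟨⟨x₀, hx₀⟩⟩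
    have hd1 := h'.one_le
    have hmod : d' ≡ n ^ 2 + 2 [MOD p] := by
      have h1 := fix_deg_modEq h haut p hp e g hg x₀ hx₀
      have h2 : Nat.card {y : V // B x₀ y ∧ g • y = y} = d' := by
        rw [← h'.card ⟨x₀, hx₀⟩]
        exact Nat.card_congr ⟨fun y => ⟨⟨y.1, y.2.2⟩, y.2.1⟩, fun y => ⟨y.1.1, y.2, y.1.2⟩,
          fun y => rfl, fun y => rfl⟩
      rwa [h2] at h1
    have hdvd : (p : ℤ) ∣ ((n ^ 2 + 2 : ℕ) : ℤ) - (d' : ℤ) :=
      (Nat.modEq_iff_dvd).1 hmod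
    have hcard := h'.two_mul_card
    rcases Nat.lt_or_ge d' 2 with hlt | hge
    · left
      have hd : d' = 1 := by omega
      subst hd
      have h1 : Nat.card {x : V // g • x = x} = 1 := by omega
      have h2 : p ∣ n ^ 2 + 1 := by
        have : (p : ℤ) ∣ ((n ^ 2 + 1 : ℕ) : ℤ) := by
          have e1 : ((n ^ 2 + 2 : ℕ) : ℤ) - ((1 : ℕ) : ℤ) = ((n ^ 2 + 1 : ℕ) : ℤ) := by
            push_cast
            ring
          rwa [e1] at hdvd
        exact_mod_cast this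
      exact ⟨h1, h2, NN_fix_one h haut p hp hp2 h2 e g hg h1⟩
    · right
      obtain ⟨m, hm⟩ : ∃ m : ℕ, d' = m ^ 2 + 2 := by
        rcases Nat.lt_or_ge d' 3 with hlt3 | hge3
        · exact ⟨0, by omega⟩
        · exact h'.exists_sq hge3
      subst hm
      have hd2 : (p : ℤ) ∣ ((n : ℤ) - m) * ((n : ℤ) + m) := by
        have e1 : ((n ^ 2 + 2 : ℕ) : ℤ) - ((m ^ 2 + 2 : ℕ) : ℤ) =
            ((n : ℤ) - m) * ((n : ℤ) + m) := by
          push_cast
          ring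
        rwa [e1] at hdvd
      obtain ⟨ε, hε, hεd⟩ : ∃ ε : ℤ, (ε = 1 ∨ ε = -1) ∧ (p : ℤ) ∣ (n : ℤ) - ε * m := by
        rcases hpZ.dvd_or_dvd hd2 with h3 | h3
        · exact ⟨1, Or.inl rfl, by rwa [one_mul]⟩
        · refine ⟨-1, Or.inr rfl, ?_⟩
          have e2 : (n : ℤ) - -1 * m = n + m := by ring
          rwa [e2]
      refine ⟨hne, m, ε, hε, h', hεd, ?_, ?_⟩
      · intro hpn
        exact NN_fix h haut p hp hp2 hpn e g hg hne h' ε hε hεd
      · intro hmove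
        have := closed_deg_le h hne hmove h'
        omega
  · left
    push Not at hne
    refine ⟨hne, ?_⟩
    have h1 := fix_card_modEq (V := V) p hp e g hg
    have h2 : IsEmpty {y : V // g • y = y} := ⟨fun y => hne y.1 y.2⟩
    rw [Nat.card_of_isEmpty] at h1
    have h3 : p ∣ Nat.card V := (Nat.modEq_zero_iff_dvd).1 h1.symm
    have h4 := h.two_mul_card'
    have h5 : (p : ℤ) ∣ ((n : ℤ) ^ 2 + 2 + 1 * n) * ((n : ℤ) ^ 2 + 2 + (-1) * n) := by
      have e1 : ((n : ℤ) ^ 2 + 2 + 1 * n) * ((n : ℤ) ^ 2 + 2 + (-1) * n) =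
          2 * (Nat.card V : ℤ) := by
        have : ((2 * Nat.card V : ℕ) : ℤ) = ((n ^ 4 + 3 * n ^ 2 + 4 : ℕ) : ℤ) := by rw [h4]
        push_cast at this
        rw [this]
        ring
      rw [e1]
      exact Dvd.dvd.mul_left (by exact_mod_cast h3) 2
    rcases hpZ.dvd_or_dvd h5 with h6 | h6
    · exact ⟨1, Or.inl rfl, h6, NN_eq_pow h haut p hp hp2 1 (Or.inl rfl) h6 e g hg hne⟩
    · exact ⟨-1, Or.inr rfl, h6, NN_eq_pow h haut p hp hp2 (-1) (Or.inr rfl) h6 e g hg hne⟩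

end SRV
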