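import Pool.Agent.SRV.Defs
import Pool.Agent.SRT.W4

set_option autoImplicit false

namespace SRV

open SRT

/-- a permutation of `p`-power order all of whose cycles are longer than `p ^ k` -/
theorem W1_perm {X : Type*} [Finite X] (σ : Equiv.Perm X) (p k N : ℕ) (hp : p.Prime)
    (h1 : σ ^ (p ^ N) = 1) (h2 : ∀ x, (σ ^ (p ^ k)) x ≠ x) :
    p ^ (k + 1) ∣ Nat.card X := by
  classical
  have hfp : Fact p.Prime := ⟨hp⟩
  have hY : IsPGroup p (Subgroup.zpowers σ) := by
    rintro ⟨τ, hτ⟩
    obtain ⟨l, rfl⟩ := Subgroup.mem_zpowers_iff.1 hτ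
    refine ⟨N, ?_⟩
    apply Subtype.ext
    show (σ ^ l) ^ (p ^ N) = 1
    rw [← zpow_natCast, ← zpow_mul, mul_comm, zpow_mul, zpow_natCast, h1, one_zpow]
  have := Fintype.ofFinite (Quotient (MulAction.orbitRel (Subgroup.zpowers σ) X))
  rw [Nat.card_congr (MulAction.selfEquivSigmaOrbits (Subgroup.zpowers σ) X), Nat.card_sigma]
  apply Finset.dvd_sum
  intro ω _
  obtain ⟨l, hl⟩ := hY.card_orbit ω.out
  by_cases hlk : k + 1 ≤ l
  · rw [hl]
    exact pow_dvd_pow p hlk
  · exfalso
    have hidx : (MulAction.stabilizer (Subgroup.zpowers σ) ω.out).index = p ^ l := by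
      rw [MulAction.index_stabilizer, ← hl]
      rfl
    have hmem := Subgroup.pow_index_mem (MulAction.stabilizer (Subgroup.zpowers σ) ω.out)
      (⟨σ, Subgroup.mem_zpowers σ⟩ : Subgroup.zpowers σ)
    rw [hidx, MulAction.mem_stabilizer_iff] at hmem
    have h5 : (σ ^ (p ^ l)) ω.out = ω.out := hmem
    apply h2 ω.out
    have h6 : p ^ k = p ^ l * p ^ (k - l) := by
      rw [← pow_add]
      congr 1
      omega
    rw [h6, pow_mul]
    exact Equiv.Perm.pow_apply_eq_self_of_apply_eq_self h5 _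

/-- Twisted closed walks of length `p ^ k` of an automorphism `g` of `p`-power order that do not
consist of fixed points of `g` come in orbits of the shift of size divisible by `p ^ (k + 1)`.
PROOF. Like `SRT.dvd_card_TS` (Pool/Agent/SRT/W3.lean, copy its construction of the shift `σ`).  Let
`X = {y : TS B g (p^k) // ∃ i, g • y.1 i ≠ y.1 i}`.  The shift `σ : y ↦ (i ↦ y (i+1))` is a permutation
of `X` (`∃ i` is invariant: `y (i + p^k) = g • y i`, and the shift by `1` is inverted by the shift by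
`p^(k+e) - 1`, because `y (i + p^(k+e)) = g^(p^e) • y i = y i`), `(σ^m y) i = y (i+m)`, and
`σ^(p^(k+e)) = 1`.  The group generated by `σ` (e.g. `Subgroup.zpowers σ`, or `Multiplicative (ZMod _)`)
is a finite `p`-group.  The orbit of `y` has size `p^l` (`IsPGroup.card_orbit`, or
orbit size = `Function.minimalPeriod σ y`, which divides `p^(k+e)`).  If `l ≤ k`, then
`σ^(p^k) y = y`, so `g • y i = y (i + p^k) = y i` for all `i`, contradiction to `y ∈ X`.  So
`p^(k+1)` divides the size of every orbit, hence `|X|` (sum over the orbits: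
`MulAction.selfEquivSigmaOrbits`, `Nat.card_sigma`, `Finset.dvd_sum`, as in
`SRC.free_dvd`, Pool/Agent/SRC/C3.lean). -/
theorem dvd_card_TS_fix {G V : Type*} [Group G] [MulAction G V] [Finite V] (B : V → V → Prop)
    (g : G) (p k e : ℕ) (hp : p.Prime) (hg : g ^ (p ^ e) = 1)
    (hfin : Finite (TS B g (p ^ k))) :
    p ^ (k + 1) ∣ Nat.card {y : TS B g (p ^ k) // ∃ i, g • y.1 i ≠ y.1 i} := by
  have hp0 : 0 < p ^ (k + e) := pow_pos hp.pos _
  have hper : ∀ (y : TS B g (p ^ k)) (i : ℕ), y.1 (i + p ^ (k + e)) = y.1 i := by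
    intro y i
    rw [pow_add, mul_comm, W3_mul y (p ^ e) i, hg, one_smul]
  -- shifting preserves the set
  have hinv : ∀ (s : ℕ) (y : TS B g (p ^ k)), (∃ i, g • y.1 i ≠ y.1 i) →
      ∃ i, g • (W3_sh s y).1 i ≠ (W3_sh s y).1 i := by
    rintro s y ⟨i, hi⟩
    refine ⟨i + (p ^ (k + e) * s - s), ?_⟩
    show g • y.1 (i + (p ^ (k + e) * s - s) + s) ≠ y.1 (i + (p ^ (k + e) * s - s) + s)
    have h1 : s ≤ p ^ (k + e) * s := Nat.le_mul_of_pos_left s hp0
    rw [add_assoc, Nat.sub_add_cancel h1]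
    have h2 : y.1 (i + p ^ (k + e) * s) = y.1 i := by
      clear h1
      induction s with
      | zero => rw [mul_zero, add_zero]
      | succ s ih =>
        rw [Nat.mul_succ, ← add_assoc, hper, ih]
    rw [h2]
    exact hi
  let σ : Equiv.Perm {y : TS B g (p ^ k) // ∃ i, g • y.1 i ≠ y.1 i} :=
    { toFun := fun y => ⟨W3_sh 1 y.1, hinv 1 y.1 y.2⟩
      invFun := fun y => ⟨W3_sh (p ^ (k + e) - 1) y.1, hinv _ y.1 y.2⟩
      left_inv := fun y => Subtype.ext (Subtype.ext (funext fun i => by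
        show y.1.1 (i + (p ^ (k + e) - 1) + 1) = y.1.1 i
        rw [add_assoc, Nat.sub_add_cancel hp0]
        exact hper y.1 i))
      right_inv := fun y => Subtype.ext (Subtype.ext (funext fun i => by
        show y.1.1 (i + 1 + (p ^ (k + e) - 1)) = y.1.1 i
        rw [add_assoc, add_comm 1, Nat.sub_add_cancel hp0]
        exact hper y.1 i)) }
  have hσ : ∀ (m : ℕ) (y : {y : TS B g (p ^ k) // ∃ i, g • y.1 i ≠ y.1 i}) (i : ℕ),
      ((σ ^ m) y).1.1 i = y.1.1 (i + m) := by
    intro m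
    induction m with
    | zero => intro y i; rfl
    | succ m ih =>
      intro y i
      rw [pow_succ', Equiv.Perm.mul_apply]
      show ((σ ^ m) y).1.1 (i + 1) = y.1.1 (i + (m + 1))
      rw [ih, add_assoc, add_comm 1 m]
  refine W1_perm σ p k (k + e) hp ?_ ?_
  · refine Equiv.ext fun y => Subtype.ext (Subtype.ext (funext fun i => ?_))
    rw [hσ, hper]
    rfl
  · intro y hy
    obtain ⟨i, hi⟩ := y.2
    have h1 := congrArg (fun z : {y : TS B g (p ^ k) // ∃ i, g • y.1 i ≠ y.1 i} => z.1.1 i) hy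
    have h2 : y.1.1 (i + p ^ k) = y.1.1 i := by
      rw [← hσ]
      exact h1
    rw [y.1.2.2 i] at h2
    exact hi h2

end SRV
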